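import Pool.Agent.Q145.LT.Su

/-!
# Project LT: translation to explicit forms `a_i n + b_i`
-/

set_option autoImplicit false
set_option linter.all false

namespace Pool.Agent.Q145.LT

open Finset Filter
open Pool.Agent.Q145.SZ Pool.Agent.Q145.LQ Pool.Agent.Q145.LE

lemma Uz_ge (Q : ℕ) : 2 ^ Q ≤ Uz (4 * (Q + 1)) := by
  unfold Uz
  exact Nat.pow_le_pow_right (by norm_num) (by omega)

end Pool.Agent.Q145.LT
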