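import Pool.Agent.Q145.LT.Nr
import Pool.Agent.Q145.LQ.AllF

/-!
# Project LT: averages over the slopes (adapted from `Pool/Agent/Q145/LQ/AllF.lean`)
-/

set_option autoImplicit false
set_option linter.all false

namespace Pool.Agent.Q145.LT

open Finset Filter
open Pool.Agent.Q145.SZ Pool.Agent.Q145.LQ Pool.Agent.Q145.LE

/-- the constant parts of the forms -/
noncomputable def G0 {K : ℕ} (Y : ℕ) (T : Fin K → ℕ) : Fin K → Polynomial ℤ := fun i => Polynomial.C (5 * Y * T i : ℤ)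

lemma qt_eval {K : ℕ} (Y : ℕ) (T t : Fin K → ℕ) (i : Fin K) (n : ℤ) : (qt (G0 Y T) t i).eval n = t i * n + 5 * Y * T i := by
  unfold qt G0
  simp
  ring

lemma qt_deg {K : ℕ} (Y : ℕ) (T t : Fin K → ℕ) (i : Fin K) (h : 1 ≤ t i) : (qt (G0 Y T) t i).natDegree = 1 := by
  unfold qt G0
  rw [add_comm]
  apply Polynomial.natDegree_linear
  omega

lemma qt_c1 {K : ℕ} (Y : ℕ) (T t : Fin K → ℕ) (i : Fin K) : (qt (G0 Y T) t i).coeff 1 = t i := by
  unfold qt G0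
  simp

lemma qt_c0 {K : ℕ} (Y : ℕ) (T t : Fin K → ℕ) (i : Fin K) : (qt (G0 Y T) t i).coeff 0 = 5 * Y * T i := by
  unfold qt G0
  simp

lemma qt_la {K : ℕ} (Y : ℕ) (T t : Fin K → ℕ) (i : Fin K) (h : 1 ≤ t i) : la (qt (G0 Y T) t i) = t i := by
  unfold la
  rw [lc_lin (qt_deg Y T t i h), qt_c1]
  simp

/-- the systems -/
theorem sysL_qt {K : ℕ} {z Y X : ℕ} {T t : Fin K → ℕ} (ht : t ∈ Fintype.piFinset fun i => Icc 1 (T i)) (hs : ∀ i, X ≤ 4 * Y * T i ∧ 4 * Y * T i ≤ Uz z * X) :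
    SysL z Y X (fun i => 4 * Y * T i) (qt (G0 Y T) t) := by
  rw [Fintype.mem_piFinset] at ht
  have ht1 : ∀ i, 1 ≤ t i ∧ t i ≤ T i := fun i => mem_Icc.1 (ht i)
  refine ⟨fun i => qt_deg Y T t i (ht1 i).1, hs, fun i n hn => ?_⟩
  rw [mem_Ioc] at hn
  rw [qt_eval]
  have h1 : (1 : ℤ) ≤ t i := by exact_mod_cast (ht1 i).1
  have h2 : (t i : ℤ) ≤ T i := by exact_mod_cast (ht1 i).2
  have h3 : (Y : ℤ) + 1 ≤ n := by exact_mod_cast hn.1
  have h4 : (n : ℤ) ≤ 2 * Y := by exact_mod_cast hn.2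
  have h5 : (0 : ℤ) ≤ Y := by positivity
  have h6 : (0 : ℤ) ≤ T i := by positivity
  have h7 : (0 : ℤ) < t i * n := by
    apply mul_pos <;> linarith
  have h8 : (t i : ℤ) * n ≤ T i * (2 * Y) := mul_le_mul h2 h4 (by linarith) h6
  have h9 : 0 ≤ (T i : ℤ) * Y := by positivity
  push_cast
  constructor <;> nlinarith

/-- sums of functions of one coordinate -/
lemma sum_one_coord {K : ℕ} (A : Fin K → Finset ℕ) (i : Fin K) (f : ℕ → ℝ) :
    ∑ t ∈ Fintype.piFinset A, f (t i) = (∑ u ∈ A i, f u) * ∏ j ∈ univ.erase i, ((A j).card : ℝ) := by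
  classical
  have h1 := Finset.prod_univ_sum A (fun j u => if j = i then f u else (1 : ℝ))
  have h2 : ∀ t : Fin K → ℕ, ∏ j, (if j = i then f (t j) else (1 : ℝ)) = f (t i) := by
    intro t
    rw [Finset.prod_ite_eq' univ i (fun j => f (t j)), if_pos (mem_univ i)]
  rw [← sum_congr rfl fun t _ => h2 t, ← h1, ← mul_prod_erase univ _ (mem_univ i)]
  congr 1
  · exact sum_congr rfl fun u _ => if_pos rfl
  · refine prod_congr rfl fun j hj => ?_
    rw [sum_congr rfl fun u _ => if_neg (ne_of_mem_erase hj), sum_const, nsmul_eq_mul, mul_one]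

/-- the primes above `z` dividing a random integer -/
lemma one_slope {C : ℝ} (hSQ : ∀ z w : ℕ, 2 ≤ z → ∑ p ∈ (Ioc z w).filter Nat.Prime, 1 / (p : ℝ) ^ 2 ≤ C / ((z : ℝ) * Real.log z)) {z : ℕ} (hz : 2 ≤ z) (T : ℕ) :
    ∑ u ∈ Icc 1 T, ∑ p ∈ u.primeFactors.filter (fun p => z < p), 1 / (p : ℝ) ≤ T * (C / ((z : ℝ) * Real.log z)) := by
  classical
  have h1 : ∀ u ∈ Icc 1 T, ∑ p ∈ u.primeFactors.filter (fun p => z < p), 1 / (p : ℝ) = ∑ p ∈ (Ioc z T).filter Nat.Prime, if p ∣ u then 1 / (p : ℝ) else 0 := by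
    intro u hu
    rw [mem_Icc] at hu
    rw [← sum_filter]
    refine sum_congr ?_ fun _ _ => rfl
    ext p
    rw [mem_filter, mem_filter, mem_filter, mem_Ioc, Nat.mem_primeFactors]
    constructor
    · rintro ⟨⟨h1, h2, h3⟩, h4⟩
      exact ⟨⟨⟨h4, (Nat.le_of_dvd (by omega) h2).trans hu.2⟩, h1⟩, h2⟩
    · rintro ⟨⟨⟨h1, h2⟩, h3⟩, h4⟩
      exact ⟨⟨h3, h4, by omega⟩, h1⟩
  rw [sum_congr rfl h1, sum_comm]
  refine le_trans ?_ (mul_le_mul_of_nonneg_left (hSQ z T hz) (Nat.cast_nonneg T))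
  rw [mul_sum]
  refine sum_le_sum fun p hp => ?_
  rw [mem_filter] at hp
  have hp0 : (0 : ℝ) < p := by exact_mod_cast hp.2.pos
  rw [← sum_filter, sum_const, nsmul_eq_mul]
  have h2 : ((Icc 1 T).filter fun u => p ∣ u).card = T / p := by
    have := Nat.card_multiples' T p
    have e : (Icc 1 T).filter (fun u => p ∣ u) = (range T.succ).filter fun k => k ≠ 0 ∧ p ∣ k := by
      ext k
      rw [mem_filter, mem_Icc, mem_filter, mem_range]
      constructor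
      · rintro ⟨⟨h1, h2⟩, h3⟩
        exact ⟨by omega, by omega, h3⟩
      · rintro ⟨h1, h2, h3⟩
        exact ⟨⟨by omega, by omega⟩, h3⟩
    rw [e, this]
  rw [h2]
  have h3 : ((T / p : ℕ) : ℝ) ≤ (T : ℝ) / p := Nat.cast_div_le
  calc ((T / p : ℕ) : ℝ) * (1 / (p : ℝ)) ≤ ((T : ℝ) / p) * (1 / p) := by gcongr
    _ = T * (1 / (p : ℝ) ^ 2) := by
      rw [sq]
      field_simp

open Classical in
/-- **most slopes have few large prime factors** -/
theorem gg_most : ∀ g ε : ℝ, 0 < g → 0 < ε → ∃ z₀ : ℕ, ∀ (z Y K : ℕ) (T : Fin K → ℕ), z₀ ≤ z → K ≤ z →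
    ((((Fintype.piFinset fun i => Icc 1 (T i)).filter fun t => ¬ GG z (qt (G0 Y T) t) ≤ g).card : ℕ) : ℝ) ≤ ε * ∏ i, (T i : ℝ) := by
  intro g ε hg hε
  obtain ⟨C, hC, hSQ0⟩ := Pool.Agent.Q145.LS.t_SQ2
  have hSQ := fun (z w : ℕ) (hz : 2 ≤ z) => (hSQ0 z w hz).1
  have hev : ∀ᶠ z : ℕ in atTop, C / (g * ε) ≤ Real.log z ∧ 2 ≤ z ∧ 1 ≤ Real.log z := by
    have h1 : Tendsto (fun z : ℕ => Real.log z) atTop atTop :=
      Real.tendsto_log_atTop.comp tendsto_natCast_atTop_atTop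
    filter_upwards [h1.eventually_ge_atTop (C / (g * ε)), eventually_ge_atTop 2, h1.eventually_ge_atTop 1] with z a b c
    exact ⟨a, b, c⟩
  obtain ⟨z₀, hz₀⟩ := hev.exists_forall_of_atTop
  refine ⟨z₀, ?_⟩
  intro z Y K T hz hK
  obtain ⟨h1, h2, h3⟩ := hz₀ z hz
  have hz0 : (0 : ℝ) < z := by exact_mod_cast (show 0 < z by omega)
  have hT0 : (0 : ℝ) ≤ ∏ i, (T i : ℝ) := prod_nonneg fun i _ => Nat.cast_nonneg _
  set A : Fin K → Finset ℕ := fun i => Icc 1 (T i) with hA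
  have hGG : ∀ t ∈ Fintype.piFinset A, GG z (qt (G0 Y T) t) = ∑ i, ∑ p ∈ (t i).primeFactors.filter (fun p => z < p), 1 / (p : ℝ) := by
    intro t ht
    rw [Fintype.mem_piFinset] at ht
    unfold GG
    refine sum_congr rfl fun i _ => ?_
    rw [qt_la Y T t i (mem_Icc.1 (ht i)).1]
  have hsum : ∑ t ∈ Fintype.piFinset A, GG z (qt (G0 Y T) t) ≤ K * (C / ((z : ℝ) * Real.log z)) * ∏ i, (T i : ℝ) := by
    rw [sum_congr rfl hGG, sum_comm]
    have e1 : ∀ i ∈ (univ : Finset (Fin K)), ∑ t ∈ Fintype.piFinset A, ∑ p ∈ (t i).primeFactors.filter (fun p => z < p), 1 / (p : ℝ) ≤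
        (C / ((z : ℝ) * Real.log z)) * ∏ i, (T i : ℝ) := by
      intro i _
      rw [sum_one_coord A i (fun u => ∑ p ∈ u.primeFactors.filter (fun p => z < p), 1 / (p : ℝ))]
      have e2 : ∏ j ∈ univ.erase i, ((A j).card : ℝ) = ∏ j ∈ univ.erase i, (T j : ℝ) := by
        refine prod_congr rfl fun j _ => ?_
        rw [hA, Nat.card_Icc, Nat.add_sub_cancel]
      rw [e2, ← mul_prod_erase univ (fun i => (T i : ℝ)) (mem_univ i)]
      have e3 := one_slope hSQ h2 (T i)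
      have e4 : (0 : ℝ) ≤ ∏ j ∈ univ.erase i, (T j : ℝ) := prod_nonneg fun i _ => Nat.cast_nonneg _
      calc _ ≤ (T i * (C / ((z : ℝ) * Real.log z))) * ∏ j ∈ univ.erase i, (T j : ℝ) := mul_le_mul_of_nonneg_right e3 e4
        _ = _ := by ring
    refine (sum_le_card_nsmul _ _ _ e1).trans (le_of_eq ?_)
    rw [card_univ, Fintype.card_fin, nsmul_eq_mul]
    ring
  have hmk : ((((Fintype.piFinset A).filter fun t => ¬ GG z (qt (G0 Y T) t) ≤ g).card : ℕ) : ℝ) * g ≤ ∑ t ∈ Fintype.piFinset A, GG z (qt (G0 Y T) t) := by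
    calc ((((Fintype.piFinset A).filter fun t => ¬ GG z (qt (G0 Y T) t) ≤ g).card : ℕ) : ℝ) * g = ∑ _t ∈ (Fintype.piFinset A).filter fun t => ¬ GG z (qt (G0 Y T) t) ≤ g, g := by
          rw [sum_const, nsmul_eq_mul]
      _ ≤ ∑ t ∈ (Fintype.piFinset A).filter (fun t => ¬ GG z (qt (G0 Y T) t) ≤ g), GG z (qt (G0 Y T) t) :=
        sum_le_sum fun t ht => (not_le.1 (mem_filter.1 ht).2).le
      _ ≤ _ := sum_le_sum_of_subset_of_nonneg (filter_subset _ _) fun t _ _ => GG_nonneg _ _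
  have hKz : (K : ℝ) ≤ z := by exact_mod_cast hK
  have hfin : (K : ℝ) * (C / ((z : ℝ) * Real.log z)) ≤ ε * g := by
    have e1 : (K : ℝ) * (C / ((z : ℝ) * Real.log z)) ≤ z * (C / ((z : ℝ) * Real.log z)) := by
      apply mul_le_mul_of_nonneg_right hKz (by positivity)
    have e2 : (z : ℝ) * (C / ((z : ℝ) * Real.log z)) = C / Real.log z := by field_simp
    have e3 : C / Real.log z ≤ ε * g := by
      rw [div_le_iff₀ (by linarith)]
      rw [div_le_iff₀ (by positivity)] at h1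
      linarith
    linarith
  have h5 := hmk.trans hsum
  have h6 : K * (C / ((z : ℝ) * Real.log z)) * ∏ i, (T i : ℝ) ≤ (ε * g) * ∏ i, (T i : ℝ) := mul_le_mul_of_nonneg_right hfin hT0
  have h7 := h5.trans h6
  have h8 : (ε * g) * ∏ i, (T i : ℝ) = (ε * ∏ i, (T i : ℝ)) * g := by ring
  rw [h8] at h7
  exact le_of_mul_le_mul_right h7 hg

open Classical in
/-- for most slopes few pairs are exceptional -/
theorem exq_l (prt : S_PRT) (tau : S_TAU) (a₀ : ℕ) : ∀ ε : ℝ, 0 < ε → ∃ M : ℝ, 64 ≤ M ∧ ∀ (z Y X K : ℕ) (T : Fin K → ℕ) (D : Fin K → Finset ℕ),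
    M ≤ Real.log (Real.log X) → 64 * Real.log (Real.log X) ≤ z → 64 * z * Real.log (Real.log X) ≤ Real.log Y → Y ≤ X → K ≤ z →
    (∀ i, X ≤ 4 * Y * T i ∧ 4 * Y * T i ≤ Uz z * X) →
    (∀ i, D i ⊆ Icc 1 (4 * Y * T i) ∧ ((D i).card : ℝ) ≤ ((4 * Y * T i : ℕ) : ℝ) / (PW z : ℝ) ^ (4 * a₀ + 40)) →
    ((((Fintype.piFinset fun i => Icc 1 (T i)).filter fun t => ¬ (((exq Y (qt (G0 Y T) t) D).card : ℝ) ≤ (Y : ℝ) ^ 2 / (PW z : ℝ) ^ (2 * (a₀ + 8)))).card : ℕ) : ℝ) ≤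
      ε * ∏ i, (T i : ℝ) := by
  intro ε hε
  obtain ⟨Ct, hCt, ht⟩ := tau
  obtain ⟨z₁, hz₁⟩ := Pool.Agent.Q111.SZ.t_PWB.2
  set M : ℝ := 64 + 64 * Ct + z₁ + 1 / ε with hM
  have p1 : 0 < 1 / ε := by positivity
  have p2 : (0 : ℝ) ≤ z₁ := by positivity
  have hM64 : 64 ≤ M := by linarith
  refine ⟨M, hM64, ?_⟩
  intro z Y X K T D hX hz hzY hYX hK hsc hD
  obtain ⟨hL0, hLM, hzM, hzL, hzl, hXe, hYe, hLe, hl64, hlL, hYXl⟩ := elemQ hM64 hX hYX hz hzY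
  have hscale := fun (Z : ℕ) (h1 : X ≤ Z) (h2 : Z ≤ Uz z * X) => scaleE hl64 hz (by linarith) h1 h2
  set L := Real.log X with hL
  set l := Real.log L with hl
  have hz0 : (0 : ℝ) < z := by linarith
  have hY0 : (0 : ℝ) < Y := by rw [hYe]; exact Real.exp_pos _
  have hX0 : (0 : ℝ) < X := by rw [hXe]; exact Real.exp_pos _
  have hz1 : z₁ ≤ z := by
    have : (z₁ : ℝ) ≤ z := by linarith
    exact_mod_cast this
  have hW := hz₁ z hz1
  have hW1 := one_le_PW z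
  set W : ℝ := (PW z : ℝ) with hWd
  have hW0 : 0 < W := by linarith
  have hL1 : 1 ≤ L := by linarith
  have hLW : L ^ 32 ≤ W := by
    calc L ^ 32 = Real.exp (32 * l) := by
          rw [hLe, show (32 : ℝ) = ((32 : ℕ) : ℝ) by norm_num, Real.exp_nat_mul]
      _ ≤ Real.exp ((z : ℝ) / 2) := Real.exp_le_exp.2 (by linarith)
      _ ≤ W := hW
  have hL6 : L ^ 6 ≤ W := (pow_le_pow_right₀ hL1 (by norm_num)).trans hLW
  have hXL : L ≤ X := by
    have := Real.add_one_le_exp L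
    rw [← hXe] at this; linarith
  have hX3 : 3 ≤ X := by
    have : (3 : ℝ) ≤ X := by linarith
    exact_mod_cast this
  rcases Nat.eq_zero_or_pos K with hK0 | hK0
  · subst hK0
    have e : ((Fintype.piFinset fun i => Icc 1 (T i)).filter fun t => ¬ (((exq Y (qt (G0 Y T) t) D).card : ℝ) ≤ (Y : ℝ) ^ 2 / W ^ (2 * (a₀ + 8)))) = ∅ := by
      apply filter_eq_empty_iff.2
      intro t _
      rw [not_not]
      have : (exq Y (qt (G0 Y T) t) D) = ∅ := by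
        unfold exq
        apply filter_eq_empty_iff.2
        rintro x _ ⟨i, _⟩
        exact i.elim0
      rw [this]
      simp
      positivity
    rw [e]
    simp
    positivity
  have hKz : (K : ℝ) ≤ z := by exact_mod_cast hK
  have hK1 : (1 : ℝ) ≤ K := by exact_mod_cast hK0
  have hKp : (0 : ℝ) < K := by linarith
  have hzLr : (z : ℝ) ≤ L := by linarith
  have hCtL : 64 * Ct ≤ L := by linarith
  -- pairs for one coordinate
  set N : Fin K → ℕ → ℝ := fun i t => (((((Ioc Y (2 * Y)) ×ˢ (Ioc Y (2 * Y))).filter fun x : ℕ × ℕ =>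
    dst (vq (G0 Y T i + Polynomial.C (t : ℤ) * Polynomial.X) x.1) (vq (G0 Y T i + Polynomial.C (t : ℤ) * Polynomial.X) x.2) ∈ D i).card : ℕ) : ℝ) with hN
  have hN0 : ∀ i t, 0 ≤ N i t := fun i t => Nat.cast_nonneg _
  have hnn : ∀ i, ∀ t ∈ Icc 1 (T i), ∀ n ∈ Ioc Y (2 * Y), 0 ≤ (G0 Y T i + Polynomial.C (t : ℤ) * Polynomial.X).eval (n : ℤ) := by
    intro i t hti n hn
    unfold G0
    simp only [Polynomial.eval_add, Polynomial.eval_mul, Polynomial.eval_C, Polynomial.eval_X]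
    positivity
  have key : ∀ i, ∑ t ∈ Icc 1 (T i), N i t ≤ L ^ 5 * (Y : ℝ) ^ 2 * T i / W ^ (2 * a₀ + 20) := by
    intro i
    obtain ⟨s1, s2, s3, s4⟩ := hscale _ (hsc i).1 (hsc i).2
    have h0 : 0 ∉ D i := fun h => by
      have := (hD i).1 h
      rw [mem_Icc] at this
      omega
    have h1 := prt Y (T i) (G0 Y T i) (D i) (hnn i) h0
    have hDc := (hD i).2
    rw [show 4 * a₀ + 40 = 2 * (2 * a₀ + 20) by ring] at hDc
    have h2 := tau_small (L := L) hCt hW1 (hX3.trans (hsc i).1) ht (hD i).1 hDc s2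
    have hT0 : (0 : ℝ) ≤ T i := Nat.cast_nonneg _
    calc _ ≤ 4 * Y * ∑ h ∈ D i, (h.divisors.card : ℝ) := h1
      _ ≤ 4 * Y * (4 * Ct * L ^ 2 * ((4 * Y * T i : ℕ) : ℝ) / W ^ (2 * a₀ + 20)) := by gcongr
      _ = (64 * Ct) * L ^ 2 * (Y : ℝ) ^ 2 * T i / W ^ (2 * a₀ + 20) := by
        push_cast
        ring
      _ ≤ L * L ^ 2 * (Y : ℝ) ^ 2 * T i / W ^ (2 * a₀ + 20) := by gcongr
      _ = L ^ 3 * (Y : ℝ) ^ 2 * T i / W ^ (2 * a₀ + 20) := by ring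
      _ ≤ _ := by
        gcongr
        norm_num
  -- bad values of `t`
  set B : Fin K → Finset ℕ := fun i => (Icc 1 (T i)).filter fun t => (Y : ℝ) ^ 2 / (K * W ^ (2 * (a₀ + 8))) < N i t with hB
  have hBc : ∀ i, ((B i).card : ℝ) ≤ (1 / W ^ 3) * ((Icc 1 (T i)).card : ℝ) := by
    intro i
    have hp : 0 < (Y : ℝ) ^ 2 / (K * W ^ (2 * (a₀ + 8))) := by positivity
    have h1 : ((B i).card : ℝ) * ((Y : ℝ) ^ 2 / (K * W ^ (2 * (a₀ + 8)))) ≤ ∑ t ∈ Icc 1 (T i), N i t := by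
      calc ((B i).card : ℝ) * ((Y : ℝ) ^ 2 / (K * W ^ (2 * (a₀ + 8)))) = ∑ _t ∈ B i, (Y : ℝ) ^ 2 / (K * W ^ (2 * (a₀ + 8))) := by
            rw [sum_const, nsmul_eq_mul]
        _ ≤ ∑ t ∈ B i, N i t := sum_le_sum fun t ht => (mem_filter.1 ht).2.le
        _ ≤ ∑ t ∈ Icc 1 (T i), N i t := sum_le_sum_of_subset_of_nonneg (filter_subset _ _) fun t _ _ => hN0 i t
    have h2 := h1.trans (key i)
    rw [← le_div_iff₀ hp] at h2
    refine h2.trans ?_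
    rw [Nat.card_Icc, Nat.add_sub_cancel]
    have hT0 : (0 : ℝ) ≤ T i := Nat.cast_nonneg _
    calc L ^ 5 * (Y : ℝ) ^ 2 * T i / W ^ (2 * a₀ + 20) / ((Y : ℝ) ^ 2 / (K * W ^ (2 * (a₀ + 8))))
        = L ^ 5 * K * T i / W ^ 4 := by
          rw [show 2 * a₀ + 20 = 2 * (a₀ + 8) + 4 by ring, pow_add]
          field_simp
      _ ≤ L ^ 5 * L * T i / W ^ 4 := by gcongr; linarith
      _ = L ^ 6 * T i / W ^ 4 := by ring
      _ ≤ W * T i / W ^ 4 := by gcongr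
      _ = 1 / W ^ 3 * T i := by field_simp
  have hcb := card_bad (fun i => Icc 1 (T i)) B hBc
  have hsub : ((Fintype.piFinset fun i => Icc 1 (T i)).filter fun t => ¬ (((exq Y (qt (G0 Y T) t) D).card : ℝ) ≤ (Y : ℝ) ^ 2 / W ^ (2 * (a₀ + 8)))) ⊆
      ((Fintype.piFinset fun i => Icc 1 (T i)).filter fun t => ∃ i, t i ∈ B i) := by
    intro t htt
    rw [mem_filter] at htt ⊢
    refine ⟨htt.1, ?_⟩
    by_contra hcon
    push Not at hcon
    apply htt.2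
    have hmem := htt.1
    rw [Fintype.mem_piFinset] at hmem
    calc ((exq Y (qt (G0 Y T) t) D).card : ℝ) ≤ ∑ i, N i (t i) := exq_le Y (qt (G0 Y T) t) D
      _ ≤ ∑ _i : Fin K, (Y : ℝ) ^ 2 / (K * W ^ (2 * (a₀ + 8))) := by
        apply sum_le_sum
        intro i _
        by_contra h
        exact hcon i (mem_filter.2 ⟨hmem i, not_le.1 h⟩)
      _ = (Y : ℝ) ^ 2 / W ^ (2 * (a₀ + 8)) := by
        rw [sum_const, card_univ, Fintype.card_fin, nsmul_eq_mul]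
        field_simp
  have h5 : ((((Fintype.piFinset fun i => Icc 1 (T i)).filter fun t => ¬ (((exq Y (qt (G0 Y T) t) D).card : ℝ) ≤ (Y : ℝ) ^ 2 / W ^ (2 * (a₀ + 8)))).card : ℕ) : ℝ) ≤
      ((((Fintype.piFinset fun i => Icc 1 (T i)).filter fun t => ∃ i, t i ∈ B i).card : ℕ) : ℝ) := by exact_mod_cast card_le_card hsub
  have hcard : ((Fintype.piFinset fun i => Icc 1 (T i)).card : ℝ) = ∏ i, (T i : ℝ) := by
    rw [Fintype.card_piFinset]
    push_cast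
    refine prod_congr rfl fun i _ => ?_
    rw [Nat.card_Icc, Nat.add_sub_cancel]
  have h6 : (K : ℝ) * (1 / W ^ 3) ≤ ε := by
    have hLε : 1 / ε ≤ L := by linarith
    have h7 : 1 ≤ ε * L := by
      rw [div_le_iff₀ hε] at hLε
      linarith
    have h8 : (K : ℝ) ≤ L := by linarith
    have h9 : L ^ 2 ≤ W ^ 3 := by
      calc L ^ 2 ≤ L ^ 32 := pow_le_pow_right₀ hL1 (by norm_num)
        _ ≤ W := hLW
        _ = W ^ 1 := (pow_one W).symm
        _ ≤ W ^ 3 := pow_le_pow_right₀ hW1 (by norm_num)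
    rw [mul_one_div, div_le_iff₀ (by positivity)]
    calc (K : ℝ) ≤ L * 1 := by linarith
      _ ≤ L * (ε * L) := by gcongr
      _ = ε * L ^ 2 := by ring
      _ ≤ ε * W ^ 3 := by gcongr
  have h10 : (0 : ℝ) ≤ ∏ i, (T i : ℝ) := prod_nonneg fun i _ => Nat.cast_nonneg _
  rw [hcard] at hcb
  exact h5.trans (hcb.trans (mul_le_mul_of_nonneg_right h6 h10))

/-- the variance -/
theorem vbl : ∃ a₀ κ : ℕ, 64 ≤ κ ∧ VBL a₀ κ := by
  obtain ⟨C, hC, hl⟩ := Pool.Agent.Q38.LQ.t_LOCQ t_ABS 1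
  obtain ⟨l1, l2⟩ := Pool.Agent.Q177.LQ.t_LAWQ 1 C hC (t_CRTQ 1 C hC hl)
  exact var_boundL hC l1 l2 t_MOM1Q t_MOM2Q Pool.Agent.Q177.LQ.t_NOK (hsqL (jpolyE sq2)) t_ESQ t_SIEVE t_CCB
    Pool.Agent.Q111.SZ.t_PWB t_US

end Pool.Agent.Q145.LT
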