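import Pool.Agent.Q145.LT.Sys

/-!
# Project LT: few constants are not admissible; from the classes to all admissible constants
-/

set_option autoImplicit false

namespace Pool.Agent.Q145.LT

open Finset Filter
open Pool.Agent.Q145.SZ Pool.Agent.Q145.LQ Pool.Agent.Q145.LE

open Classical in
/-- few tuples have a bad coordinate -/
lemma card_bad' {K : ℕ} (A B : Fin K → Finset ℕ) {δ : Fin K → ℝ} (h : ∀ i, ((B i).card : ℝ) ≤ δ i * (A i).card) :
    ((((Fintype.piFinset A).filter fun t => ∃ i, t i ∈ B i).card : ℕ) : ℝ) ≤ (∑ i, δ i) * ((Fintype.piFinset A).card : ℝ) := by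
  have hsub : ((Fintype.piFinset A).filter fun t => ∃ i, t i ∈ B i) ⊆ univ.biUnion fun i => Fintype.piFinset (Function.update A i (B i)) := by
    intro t ht
    rw [mem_filter] at ht
    obtain ⟨h1, i, hi⟩ := ht
    rw [mem_biUnion]
    refine ⟨i, mem_univ i, ?_⟩
    rw [Fintype.mem_piFinset] at h1 ⊢
    intro j
    by_cases hj : j = i
    · subst hj
      rw [Function.update_self]
      exact hi
    · rw [Function.update_of_ne hj]
      exact h1 j
  have h2 := (card_le_card hsub).trans card_biUnion_le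
  have h3 : ((((Fintype.piFinset A).filter fun t => ∃ i, t i ∈ B i).card : ℕ) : ℝ) ≤ ∑ i : Fin K, ((Fintype.piFinset (Function.update A i (B i))).card : ℝ) := by
    exact_mod_cast h2
  refine h3.trans ?_
  have h4 : ∀ i : Fin K, ((Fintype.piFinset (Function.update A i (B i))).card : ℝ) ≤ δ i * ((Fintype.piFinset A).card : ℝ) := by
    intro i
    rw [Fintype.card_piFinset, Fintype.card_piFinset, ← mul_prod_erase univ (fun j => (A j).card) (mem_univ i),
      ← mul_prod_erase univ (fun j => (Function.update A i (B i) j).card) (mem_univ i)]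
    have e : ∏ j ∈ univ.erase i, (Function.update A i (B i) j).card = ∏ j ∈ univ.erase i, (A j).card := by
      refine prod_congr rfl fun j hj => ?_
      rw [Function.update_of_ne (ne_of_mem_erase hj)]
    rw [e, Function.update_self]
    push_cast
    rw [← mul_assoc]
    apply mul_le_mul_of_nonneg_right (h i)
    exact prod_nonneg fun j _ => Nat.cast_nonneg _
  rw [sum_mul]
  exact sum_le_sum fun i _ => h4 i

/-- the leading coefficients are small -/
lemma la_le {z Y X K : ℕ} {H : Fin K → ℕ} {q : Fin K → Polynomial ℤ} (hS : SysL z Y X H q) (hY : 4 ≤ Y) (i : Fin K) : la (q i) * Y ≤ H i := by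
  have h1 := hS.val i (Y + 1) (mem_Ioc.2 ⟨by omega, by omega⟩)
  have h2 := hS.val i (2 * Y) (mem_Ioc.2 ⟨by omega, le_rfl⟩)
  have e1 := eval_lin (hS.deg i) ((Y + 1 : ℕ) : ℤ)
  have e2 := eval_lin (hS.deg i) ((2 * Y : ℕ) : ℤ)
  rw [e1] at h1
  rw [e2] at h2
  have hl : (la (q i) : ℤ) = |(q i).coeff 1| := by
    unfold la
    rw [lc_lin (hS.deg i), Int.natCast_natAbs]
  push_cast at h1 h2
  have hY' : (4 : ℤ) ≤ Y := by exact_mod_cast hY
  have h3 : 4 * ((q i).coeff 1 * ((Y : ℤ) - 1)) ≤ 3 * H i := by nlinarith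
  have h4 : -(3 * (H i : ℤ)) ≤ 4 * ((q i).coeff 1 * ((Y : ℤ) - 1)) := by nlinarith
  have h5 : 4 * (|(q i).coeff 1| * ((Y : ℤ) - 1)) ≤ 3 * H i := by
    rcases abs_cases ((q i).coeff 1) with ⟨h, _⟩ | ⟨h, _⟩
    · rw [h]; exact h3
    · rw [h]; linarith
  have h6 : (la (q i) * Y : ℤ) ≤ H i := by
    rw [hl]
    have h7 : 0 ≤ |(q i).coeff 1| := abs_nonneg _
    nlinarith
  exact_mod_cast h6

open Classical in
/-- few constants are bad -/
theorem bad_card {z Y X K : ℕ} {H : Fin K → ℕ} {q : Fin K → Polynomial ℤ} (hS : SysL z Y X H q) (hY : 4 * PW z ≤ Y) (hYX : Y ≤ X) (b : Fin K → ZMod (PW z)) :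
    (((SbQ H b).filter (BadL z q)).card : ℝ) ≤ 4 * GG z q * (SbQ H b).card := by
  have hW : 0 < PW z := Nat.pos_of_ne_zero (NeZero.ne (PW z))
  have hWr : (0 : ℝ) < PW z := by exact_mod_cast hW
  have hY4 : 4 ≤ Y := by omega
  set δ : Fin K → ℝ := fun i => ∑ p ∈ (la (q i)).primeFactors.filter (fun p => z < p), 4 / (p : ℝ) with hδ
  have e : ∑ i, δ i = 4 * GG z q := by
    unfold GG
    rw [mul_sum]
    refine sum_congr rfl fun i _ => ?_
    rw [hδ, mul_sum]
    refine sum_congr rfl fun p _ => ?_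
    ring
  rw [← e]
  have key := card_bad' (fun i => cls (H i) (b i)) (fun i => (cls (H i) (b i)).filter fun s => ∃ p : ℕ, p.Prime ∧ z < p ∧ p ∣ la (q i) ∧ (p : ℤ) ∣ cf (q i) s) (δ := δ) ?_
  · refine le_trans ?_ key
    have : (SbQ H b).filter (BadL z q) ⊆ (Fintype.piFinset fun i => cls (H i) (b i)).filter fun t => ∃ i, t i ∈ (cls (H i) (b i)).filter fun s => ∃ p : ℕ, p.Prime ∧ z < p ∧ p ∣ la (q i) ∧ (p : ℤ) ∣ cf (q i) s := by
      intro s hs
      rw [mem_filter] at hs ⊢
      obtain ⟨h1, i, p, hp⟩ := hs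
      have h1' := h1
      unfold SbQ at h1'
      rw [Fintype.mem_piFinset] at h1'
      exact ⟨h1, i, mem_filter.2 ⟨h1' i, p, hp⟩⟩
    exact_mod_cast card_le_card this
  · intro i
    have hla := la_le hS hY4 i
    have hHW : 2 * (PW z : ℝ) ≤ H i := by
      have h1 := (hS.scale i).1
      have : 2 * PW z ≤ H i := by omega
      exact_mod_cast this
    have hcl := Pool.Agent.Q58.SZ.le_card_cls (H i) (b i)
    have hcl2 : (H i : ℝ) / PW z / 2 ≤ ((cls (H i) (b i)).card : ℝ) := by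
      have : 2 ≤ (H i : ℝ) / PW z := by
        rw [le_div_iff₀ hWr]
        exact hHW
      linarith
    have hsub : ((cls (H i) (b i)).filter fun s => ∃ p : ℕ, p.Prime ∧ z < p ∧ p ∣ la (q i) ∧ (p : ℤ) ∣ cf (q i) s) ⊆
        ((la (q i)).primeFactors.filter (fun p => z < p)).biUnion fun p => (cls (H i) (b i)).filter fun s => s ≡ ((-(q i).coeff 0) % p).toNat [MOD p] := by
      intro s hs
      rw [mem_filter] at hs
      obtain ⟨h1, p, hp, hz, hd, hc⟩ := hs
      rw [mem_biUnion]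
      refine ⟨p, mem_filter.2 ⟨Nat.mem_primeFactors.2 ⟨hp, hd, (la_pos (hS.deg i)).ne'⟩, hz⟩, mem_filter.2 ⟨h1, ?_⟩⟩
      rw [← Int.natCast_modEq_iff]
      have hp0 : (0 : ℤ) < p := by exact_mod_cast hp.pos
      rw [Int.toNat_of_nonneg (Int.emod_nonneg _ hp0.ne')]
      unfold cf at hc
      refine Int.ModEq.symm ((Int.mod_modEq _ _).trans ?_)
      rw [Int.modEq_iff_dvd]
      have e3 : (s : ℤ) - -(q i).coeff 0 = (q i).coeff 0 + s := by ring
      rw [e3]
      exact hc
    have h2 := (card_le_card hsub).trans card_biUnion_le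
    have h3 : ((((cls (H i) (b i)).filter fun s => ∃ p : ℕ, p.Prime ∧ z < p ∧ p ∣ la (q i) ∧ (p : ℤ) ∣ cf (q i) s).card : ℕ) : ℝ) ≤
        ∑ p ∈ (la (q i)).primeFactors.filter (fun p => z < p), (((cls (H i) (b i)).filter fun s => s ≡ ((-(q i).coeff 0) % p).toNat [MOD p]).card : ℝ) := by
      exact_mod_cast h2
    refine h3.trans ?_
    rw [hδ, sum_mul]
    refine sum_le_sum fun p hp => ?_
    rw [mem_filter, Nat.mem_primeFactors] at hp
    obtain ⟨⟨hpp, hpd, _⟩, hzp⟩ := hp
    have hp0 : (0 : ℝ) < p := by exact_mod_cast hpp.pos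
    have h4 := (abs_le.1 (Pool.Agent.Q261.SZ.cnt_cls (H i) p ((-(q i).coeff 0) % p).toNat hpp.pos (Pool.Agent.Q261.SZ.coprime_PW hpp hzp) (b i))).2
    have hpl : p ≤ la (q i) := Nat.le_of_dvd (la_pos (hS.deg i)) hpd
    have h5 : PW z * p ≤ H i := by
      calc PW z * p ≤ Y * la (q i) := Nat.mul_le_mul (by omega) hpl
        _ = la (q i) * Y := mul_comm _ _
        _ ≤ H i := hla
    have h6 : 1 ≤ (H i : ℝ) / PW z / p := by
      rw [div_div, le_div_iff₀ (by positivity), one_mul]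
      exact_mod_cast h5
    calc (((cls (H i) (b i)).filter fun s => s ≡ ((-(q i).coeff 0) % p).toNat [MOD p]).card : ℝ) ≤ 2 * ((H i : ℝ) / PW z / p) := by linarith
      _ = 4 / p * ((H i : ℝ) / PW z / 2) := by ring
      _ ≤ 4 / p * ((cls (H i) (b i)).card : ℝ) := by gcongr

open Pool.Agent.Q58.SZ (card_cls_le le_card_cls)
open Pool.Agent.Q210.LQ (card_SbQ mem_SbQ ratio_prod)

open Classical in
/-- a sum over the admissible tuples -/
theorem sum_ATL {z K : ℕ} {H : Fin K → ℕ} {q : Fin K → Polynomial ℤ} (E : (Fin K → ℕ) → Prop) :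
    (((ATQ H q).filter fun s => E s).card : ℝ) ≤
      ∑ b ∈ AdQ (PW z) q, (((SbQ H b).filter fun s => E s).card : ℝ) := by
  rw [← Nat.cast_sum, ← Finset.card_biUnion]
  · have : ((ATQ H q).filter fun s => E s) ⊆ (AdQ (PW z) q).biUnion fun b => (SbQ H b).filter fun s => E s := by
      intro s
      simp only [Finset.mem_filter, Finset.mem_biUnion, ATQ, Fintype.mem_piFinset,
        AdQ, Finset.mem_univ, true_and, mem_SbQ]
      rintro ⟨⟨h1, h2⟩, h3⟩
      exact ⟨_, adm_cls h2, ⟨h1, rfl⟩, h3⟩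
    exact_mod_cast card_le_card this
  · intro b _ b' _ hbb'
    rw [Function.onFun, Finset.disjoint_left]
    intro s hs hs'
    rw [Finset.mem_filter, mem_SbQ] at hs hs'
    exact hbb' (hs.1.2.symm.trans hs'.1.2)

open Classical in
/-- many tuples are admissible -/
theorem le_ATL {z Y X K : ℕ} {H : Fin K → ℕ} {q : Fin K → Polynomial ℤ} (hK : K ≤ z) (hs : SysL z Y X H q) (hY : 4 * PW z ≤ Y) (hYX : Y ≤ X)
    (hG : GG z q ≤ 1 / 8) : (1 / 2) * ∑ b ∈ AdQ (PW z) q, ((SbQ H b).card : ℝ) ≤ ((ATQ H q).card : ℝ) := by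
  have h1 : (∑ b ∈ AdQ (PW z) q, (((SbQ H b).filter fun s => ¬ BadL z q s).card : ℝ)) ≤ ((ATQ H q).card : ℝ) := by
    rw [← Nat.cast_sum, ← Finset.card_biUnion]
    · have : ((AdQ (PW z) q).biUnion fun b => (SbQ H b).filter fun s => ¬ BadL z q s) ⊆ ATQ H q := by
        intro s
        simp only [Finset.mem_filter, Finset.mem_biUnion, ATQ, Fintype.mem_piFinset,
          AdQ, Finset.mem_univ, true_and, mem_SbQ]
        rintro ⟨b, hb, ⟨h1, rfl⟩, h3⟩
        exact ⟨h1, cls_adm hs.deg hK h3 hb⟩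
      exact_mod_cast card_le_card this
    · intro b _ b' _ hbb'
      rw [Function.onFun, Finset.disjoint_left]
      intro s hs hs'
      rw [Finset.mem_filter, mem_SbQ] at hs hs'
      exact hbb' (hs.1.2.symm.trans hs'.1.2)
  refine le_trans ?_ h1
  rw [mul_sum]
  refine sum_le_sum fun b _ => ?_
  have h2 := bad_card hs hY hYX b
  have h3 : (((SbQ H b).filter (BadL z q)).card : ℝ) + (((SbQ H b).filter fun s => ¬ BadL z q s).card : ℝ) = ((SbQ H b).card : ℝ) := by
    exact_mod_cast Finset.card_filter_add_card_filter_not (s := SbQ H b) (BadL z q)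
  have h4 : 4 * GG z q * ((SbQ H b).card : ℝ) ≤ 1 / 2 * ((SbQ H b).card : ℝ) := by
    apply mul_le_mul_of_nonneg_right _ (Nat.cast_nonneg _)
    linarith
  linarith

open Classical in
/-- from the classes to all admissible constants -/
theorem transL {z Yn X K : ℕ} {H : Fin K → ℕ} {q : Fin K → Polynomial ℤ} {E : (Fin K → ℕ) → Prop} {η : ℝ} (hK : K ≤ z)
    (hs : SysL z Yn X H q) (hX : 8 * (K + 1) * PW z ≤ X) (hY : 4 * PW z ≤ Yn) (hYX : Yn ≤ X) (hG : GG z q ≤ 1 / 8)
    (h : ∑ b ∈ AdQ (PW z) q, (((SbQ H b).filter fun s => E s).card : ℝ) / (SbQ H b).card ≤ η * (AdQ (PW z) q).card) :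
    (((ATQ H q).filter fun s => E s).card : ℝ) ≤ 4 * η * (ATQ H q).card := by
  have hW : (0 : ℝ) < PW z := by exact_mod_cast Nat.pos_of_ne_zero (NeZero.ne (PW z))
  set Y : ℝ := (X : ℝ) / PW z with hYdef
  have hY : 8 * ((K : ℝ) + 1) ≤ Y := by
    rw [hYdef, le_div_iff₀ hW]
    exact_mod_cast hX
  have hK0 : (0 : ℝ) ≤ K := Nat.cast_nonneg K
  set y : Fin K → ℝ := fun i => (H i : ℝ) / PW z with hy
  have hyY : ∀ i, Y ≤ y i := by
    intro i
    rw [hYdef, hy]
    apply div_le_div_of_nonneg_right _ hW.le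
    exact_mod_cast (hs.scale i).1
  have hratio := ratio_prod hY hyY
  set B : ℝ := ∏ i, (y i + 1) with hB
  set A : ℝ := ∏ i, (y i - 1) with hA
  have hA0 : 0 < A := Finset.prod_pos fun i _ => by linarith [hyY i]
  have hB0 : 0 < B := Finset.prod_pos fun i _ => by linarith [hyY i]
  have hSle : ∀ b : Fin K → ZMod (PW z), ((SbQ H b).card : ℝ) ≤ B := by
    intro b
    rw [card_SbQ]
    exact Finset.prod_le_prod (fun _ _ => Nat.cast_nonneg _) fun i _ => card_cls_le (H i) (b i)
  have hSge : ∀ b : Fin K → ZMod (PW z), A ≤ ((SbQ H b).card : ℝ) := by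
    intro b
    rw [card_SbQ]
    exact Finset.prod_le_prod (fun i _ => by linarith [hyY i]) fun i _ => le_card_cls (H i) (b i)
  have h0 : 0 ≤ η * (AdQ (PW z) q).card :=
    le_trans (Finset.sum_nonneg fun b _ => by positivity) h
  have h1 : (((ATQ H q).filter fun s => E s).card : ℝ) ≤ B * (η * (AdQ (PW z) q).card) := by
    refine (sum_ATL (z := z) E).trans ?_
    refine le_trans ?_ (mul_le_mul_of_nonneg_left h hB0.le)
    rw [Finset.mul_sum]
    refine Finset.sum_le_sum fun b _ => ?_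
    have hSpos : (0 : ℝ) < (SbQ H b).card := lt_of_lt_of_le hA0 (hSge b)
    rw [mul_div_assoc', le_div_iff₀ hSpos, mul_comm]
    exact mul_le_mul_of_nonneg_right (hSle b) (Nat.cast_nonneg _)
  have h2 : A * (AdQ (PW z) q).card ≤ 2 * ((ATQ H q).card : ℝ) := by
    have e1 := le_ATL hK hs ‹_› hYX hG
    have e2 : A * (AdQ (PW z) q).card ≤ ∑ b ∈ AdQ (PW z) q, ((SbQ H b).card : ℝ) := by
      calc A * (AdQ (PW z) q).card = ∑ _b ∈ AdQ (PW z) q, A := by
            rw [Finset.sum_const, nsmul_eq_mul, mul_comm]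
        _ ≤ ∑ b ∈ AdQ (PW z) q, ((SbQ H b).card : ℝ) :=
          Finset.sum_le_sum fun b _ => hSge b
    linarith
  by_cases hη : 0 ≤ η
  · calc (((ATQ H q).filter fun s => E s).card : ℝ)
        ≤ B * (η * (AdQ (PW z) q).card) := h1
      _ ≤ 2 * A * (η * (AdQ (PW z) q).card) := mul_le_mul_of_nonneg_right hratio h0
      _ = 2 * η * (A * (AdQ (PW z) q).card) := by ring
      _ ≤ 2 * η * (2 * (ATQ H q).card) := mul_le_mul_of_nonneg_left h2 (by linarith)
      _ = _ := by ring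
  · push Not at hη
    have hAd : ((AdQ (PW z) q).card : ℝ) = 0 := by
      have h3 : (0 : ℝ) ≤ (AdQ (PW z) q).card := Nat.cast_nonneg _
      nlinarith
    have hAT : ((ATQ H q).card : ℝ) = 0 := by
      have e1 := sum_ATL (z := z) (H := H) (q := q) (fun _ => True)
      simp only [Finset.filter_true] at e1
      have : AdQ (PW z) q = ∅ := by
        rw [← Finset.card_eq_zero]
        exact_mod_cast hAd
      rw [this, Finset.sum_empty] at e1
      exact le_antisymm e1 (Nat.cast_nonneg _)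
    rw [hAT, mul_zero]
    have h4 : (((ATQ H q).filter fun s => E s).card : ℝ) ≤ (ATQ H q).card := by
      exact_mod_cast Finset.card_filter_le _ _
    linarith

end Pool.Agent.Q145.LT
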