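import Pool.Agent.Q145.LT.Ta
import Pool.Agent.Q145.LE.Near

/-!
# Project LT: the large primes in the singular series of linear forms with arbitrary slopes (adapted from `Pool/Agent/Q145/LE/Far.lean`, `Near.lean`)
-/

set_option autoImplicit false
set_option linter.all false

namespace Pool.Agent.Q145.LT

open Finset Filter
open Pool.Agent.Q145.SZ Pool.Agent.Q145.LQ Pool.Agent.Q145.LE Pool.Agent.Q261.SZ Pool.Agent.Q150.LQ

/-- a prime divisor of a slope does not divide the constant term -/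
lemma adm_nd {K : ℕ} {q : Fin K → Polynomial ℤ} (hq : ∀ i, (q i).natDegree = 1) {s : Fin K → ℕ} (hA : AdmQ q s) {p : ℕ} (hp : p.Prime) (i : Fin K)
    (hi : p ∣ la (q i)) : ¬ (p : ℤ) ∣ cf (q i) (s i) := by
  intro hc
  have h1 := hA p hp
  have h2 : nuQ q s p = p := by
    unfold nuQ
    rw [filter_true_of_mem, card_range]
    intro n _
    refine ⟨i, ?_⟩
    have e : (q i).eval (n : ℤ) + s i = (q i).coeff 1 * n + cf (q i) (s i) := by
      rw [eval_lin (hq i)]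
      unfold cf
      ring
    rw [e]
    rw [la_dvd, lc_lin (hq i)] at hi
    exact dvd_add (hi.mul_right _) hc
  omega

/-- the crude bound of a local factor -/
lemma log_crude {K ν p : ℕ} (hp : 2 ≤ p) (hK : 2 * K ≤ p) (hν : ν ≤ K) :
    |Real.log ((1 - (ν : ℝ) / p) / (1 - 1 / (p : ℝ)) ^ K)| ≤ 2 * K / p := by
  have hp0 : (0 : ℝ) < p := by exact_mod_cast (show 0 < p by omega)
  have hp2 : (2 : ℝ) ≤ p := by exact_mod_cast hp
  have hνK : (ν : ℝ) ≤ K := by exact_mod_cast hν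
  have hν0 : (0 : ℝ) ≤ ν := Nat.cast_nonneg _
  have hK0 : (0 : ℝ) ≤ K := Nat.cast_nonneg _
  have hKp : 2 * (K : ℝ) ≤ p := by exact_mod_cast hK
  have hx1 : (ν : ℝ) / p ≤ 1 / 2 := by
    rw [div_le_div_iff₀ hp0 two_pos]
    linarith
  have hx0 : 0 ≤ (ν : ℝ) / p := by positivity
  have hy1 : 1 / (p : ℝ) ≤ 1 / 2 := one_div_le_one_div_of_le two_pos hp2
  have hy0 : 0 ≤ 1 / (p : ℝ) := by positivity
  have h1 : 0 < 1 - (ν : ℝ) / p := by linarith
  have h2 : 0 < 1 - 1 / (p : ℝ) := by linarith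
  rw [Real.log_div h1.ne' (pow_pos h2 K).ne', Real.log_pow]
  have a1 := Real.one_sub_inv_le_log_of_pos h1
  have a2 := Real.log_le_sub_one_of_pos h1
  have b1 := Real.one_sub_inv_le_log_of_pos h2
  have b2 := Real.log_le_sub_one_of_pos h2
  have e1 : (1 - (ν : ℝ) / p)⁻¹ ≤ 1 + 2 * ((ν : ℝ) / p) := by
    rw [inv_le_iff_one_le_mul₀ h1]
    nlinarith
  have e2 : (1 - 1 / (p : ℝ))⁻¹ ≤ 1 + 2 * (1 / (p : ℝ)) := by
    rw [inv_le_iff_one_le_mul₀ h2]
    nlinarith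
  have e3 : (ν : ℝ) / p ≤ K / p := div_le_div_of_nonneg_right hνK hp0.le
  have e4 : (K : ℝ) * Real.log (1 - 1 / (p : ℝ)) ≤ 0 := mul_nonpos_of_nonneg_of_nonpos hK0 (by linarith)
  have e5 : (K : ℝ) * (-(2 * (1 / (p : ℝ)))) ≤ K * Real.log (1 - 1 / (p : ℝ)) := mul_le_mul_of_nonneg_left (by linarith) hK0
  have e6 : (K : ℝ) * (-(2 * (1 / (p : ℝ)))) = -(2 * K / p) := by ring
  have e7 : 2 * (K : ℝ) / p = 2 * (K / p) := by ring
  rw [abs_le]
  constructor
  · rw [e7]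
    linarith
  · linarith

open Classical in
/-- the logarithm of one factor -/
lemma log_oneL {K : ℕ} {q : Fin K → Polynomial ℤ} (hq : ∀ i, (q i).natDegree = 1) {s : Fin K → ℕ} (hA : AdmQ q s) {Y p : ℕ} (hY : 0 < Y) (hp : p.Prime)
    (hYp : Y < p) (hK : 2 * K ≤ p) :
    |Real.log (locQ q s p)| ≤ 2 * (K : ℝ) ^ 2 * ((p : ℝ) ^ 2)⁻¹ + (2 * K / Y) * ((((univ : Finset (Fin K)).filter fun i => (p : ℤ) ∣ (q i).coeff 1).card : ℝ) +
      (((univ : Finset (Fin K × Fin K)).filter fun x => x.1 ≠ x.2 ∧ (p : ℤ) ∣ dtl q s x.1 x.2).card : ℝ)) := by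
  have hp0 : (0 : ℝ) < p := by exact_mod_cast hp.pos
  have hY0 : (0 : ℝ) < Y := by exact_mod_cast hY
  have hYp' : (Y : ℝ) ≤ p := by exact_mod_cast hYp.le
  have hK0 : (0 : ℝ) ≤ K := Nat.cast_nonneg _
  have hν : nuQ q s p ≤ K := nuQ_le_K hq hp fun i hi => adm_nd hq hA hp i hi
  have h0 : 0 ≤ 2 * (K : ℝ) ^ 2 * ((p : ℝ) ^ 2)⁻¹ := by positivity
  have hcr : |Real.log (locQ q s p)| ≤ 2 * K / Y := by
    unfold locQ
    refine (log_crude hp.two_le hK hν).trans ?_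
    exact div_le_div_of_nonneg_left (by positivity) hY0 hYp'
  have h2K : (0 : ℝ) ≤ 2 * K / Y := by positivity
  by_cases h1 : ∃ i, (p : ℤ) ∣ (q i).coeff 1
  · obtain ⟨i, hi⟩ := h1
    have h2 : 1 ≤ ((univ : Finset (Fin K)).filter fun i => (p : ℤ) ∣ (q i).coeff 1).card := card_pos.2 ⟨i, mem_filter.2 ⟨mem_univ _, hi⟩⟩
    have h3 : (1 : ℝ) ≤ (((univ : Finset (Fin K)).filter fun i => (p : ℤ) ∣ (q i).coeff 1).card : ℝ) := by exact_mod_cast h2
    have h4 : (0 : ℝ) ≤ (((univ : Finset (Fin K × Fin K)).filter fun x => x.1 ≠ x.2 ∧ (p : ℤ) ∣ dtl q s x.1 x.2).card : ℝ) := Nat.cast_nonneg _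
    have h5 := mul_le_mul_of_nonneg_left (show (1 : ℝ) ≤ (((univ : Finset (Fin K)).filter fun i => (p : ℤ) ∣ (q i).coeff 1).card : ℝ) +
      (((univ : Finset (Fin K × Fin K)).filter fun x => x.1 ≠ x.2 ∧ (p : ℤ) ∣ dtl q s x.1 x.2).card : ℝ) by linarith) h2K
    linarith
  · by_cases h6 : ∃ x : Fin K × Fin K, x.1 ≠ x.2 ∧ (p : ℤ) ∣ dtl q s x.1 x.2
    · obtain ⟨x, hx⟩ := h6
      have h2 : 1 ≤ ((univ : Finset (Fin K × Fin K)).filter fun x => x.1 ≠ x.2 ∧ (p : ℤ) ∣ dtl q s x.1 x.2).card := card_pos.2 ⟨x, mem_filter.2 ⟨mem_univ _, hx⟩⟩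
      have h3 : (1 : ℝ) ≤ (((univ : Finset (Fin K × Fin K)).filter fun x => x.1 ≠ x.2 ∧ (p : ℤ) ∣ dtl q s x.1 x.2).card : ℝ) := by exact_mod_cast h2
      have h4 : (0 : ℝ) ≤ (((univ : Finset (Fin K)).filter fun i => (p : ℤ) ∣ (q i).coeff 1).card : ℝ) := Nat.cast_nonneg _
      have h5 := mul_le_mul_of_nonneg_left (show (1 : ℝ) ≤ (((univ : Finset (Fin K)).filter fun i => (p : ℤ) ∣ (q i).coeff 1).card : ℝ) +
        (((univ : Finset (Fin K × Fin K)).filter fun x => x.1 ≠ x.2 ∧ (p : ℤ) ∣ dtl q s x.1 x.2).card : ℝ) by linarith) h2K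
      linarith
    · push Not at h1 h6
      have h7 : K ≤ nu (rtl q s p) p := by
        have hc := collide (rtl q s p) p
        have he : ((univ : Finset (Fin K × Fin K)).filter fun x => x.1 ≠ x.2 ∧ rtl q s p x.1 % p = rtl q s p x.2 % p) = ∅ := by
          apply filter_eq_empty_iff.2
          rintro x _ ⟨hx1, hx2⟩
          exact h6 x hx1 (dvd_dtl hq s hp h1 _ _ hx2)
        rw [he, card_empty] at hc
        omega
      have h8 : nu (rtl q s p) p < p := by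
        have h9 := nu_le (rtl q s p) p
        have h10 := hp.two_le
        omega
      have h9 := (log_loc (rtl q s p) hp.two_le hK h8).2
      rw [← locQ_lin hq s hp h1] at h9
      have h10 : ((K : ℝ) - nu (rtl q s p) p) / p ≤ 0 := by
        apply div_nonpos_of_nonpos_of_nonneg _ hp0.le
        have : (K : ℝ) ≤ nu (rtl q s p) p := by exact_mod_cast h7
        linarith
      have h11 : (0 : ℝ) ≤ (2 * K / Y) * ((((univ : Finset (Fin K)).filter fun i => (p : ℤ) ∣ (q i).coeff 1).card : ℝ) +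
        (((univ : Finset (Fin K × Fin K)).filter fun x => x.1 ≠ x.2 ∧ (p : ℤ) ∣ dtl q s x.1 x.2).card : ℝ)) := by positivity
      rw [← div_eq_mul_inv]
      linarith

/-- the sum of the logarithms -/
theorem sum_logL {K : ℕ} {q : Fin K → Polynomial ℤ} (hq : ∀ i, (q i).natDegree = 1) {s : Fin K → ℕ} {M Y w : ℕ} (hM : 3 ≤ M) (hY : 8 * (K + 1) ^ 2 ≤ Y)
    (haM : ∀ i, |(q i).coeff 1| ≤ M) (hs : ∀ i, |cf (q i) (s i)| ≤ M) (hnd : ∀ i j, i ≠ j → dtl q s i j ≠ 0) (hA : AdmQ q s) :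
    ∑ p ∈ (Ioc Y w).filter Nat.Prime, |Real.log (locQ q s p)| ≤ 8 * ((K : ℝ) + 1) ^ 3 * Real.log M / Y := by
  classical
  have hlog : 1 ≤ Real.log M := by
    rw [Real.le_log_iff_exp_le (by exact_mod_cast (show 0 < M by omega))]
    have : (3 : ℝ) ≤ M := by exact_mod_cast hM
    linarith [Real.exp_one_lt_d9]
  have hY3 : 3 ≤ Y := by
    have : 1 ≤ (K + 1) ^ 2 := Nat.one_le_pow _ _ (by omega)
    omega
  have hY0 : (0 : ℝ) < Y := by exact_mod_cast (show 0 < Y by omega)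
  have hK0 : (0 : ℝ) ≤ K := Nat.cast_nonneg _
  set P := (Ioc Y w).filter Nat.Prime with hP
  have hPm : ∀ p ∈ P, Y < p ∧ p.Prime := fun p hp => by
    rw [hP, mem_filter, mem_Ioc] at hp
    exact ⟨hp.1.1, hp.2⟩
  have h1 : ∀ p ∈ P, |Real.log (locQ q s p)| ≤ 2 * (K : ℝ) ^ 2 * ((p : ℝ) ^ 2)⁻¹ + (2 * K / Y) * ((((univ : Finset (Fin K)).filter fun i => (p : ℤ) ∣ (q i).coeff 1).card : ℝ) +
      (((univ : Finset (Fin K × Fin K)).filter fun x => x.1 ≠ x.2 ∧ (p : ℤ) ∣ dtl q s x.1 x.2).card : ℝ)) := fun p hp =>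
    log_oneL hq hA (by omega) (hPm p hp).2 (hPm p hp).1 (by have := (hPm p hp).1; nlinarith)
  refine (sum_le_sum h1).trans ?_
  rw [sum_add_distrib, ← mul_sum, ← mul_sum, sum_add_distrib]
  have h3 := sum_inv_sq Y w (by omega) P (filter_subset _ _)
  -- the primes dividing the slopes
  have h4 : ∑ p ∈ P, (((univ : Finset (Fin K)).filter fun i => (p : ℤ) ∣ (q i).coeff 1).card : ℝ) ≤ K * (3 * Real.log M) := by
    have e1 : ∀ p : ℕ, (((univ : Finset (Fin K)).filter fun i => (p : ℤ) ∣ (q i).coeff 1).card : ℝ) = ∑ i : Fin K, if (p : ℤ) ∣ (q i).coeff 1 then (1 : ℝ) else 0 := by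
      intro p
      rw [sum_boole]
    simp only [e1]
    rw [sum_comm]
    have e2 : ∀ i ∈ (univ : Finset (Fin K)), ∑ p ∈ P, (if (p : ℤ) ∣ (q i).coeff 1 then (1 : ℝ) else 0) ≤ 3 * Real.log M := by
      intro i _
      rw [sum_boole]
      have hne : ((q i).coeff 1).natAbs ≠ 0 := by
        rw [Int.natAbs_ne_zero]
        exact c1_ne (hq i)
      have h5 := card_primes ((q i).coeff 1).natAbs hne (Y := (Y : ℝ)) (by exact_mod_cast hY3) (P.filter fun p : ℕ => (p : ℤ) ∣ (q i).coeff 1) (fun p hp => by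
        rw [mem_filter] at hp
        exact ⟨(hPm p hp.1).2, Int.natCast_dvd.1 hp.2, by exact_mod_cast (hPm p hp.1).1.le⟩)
      have h6 : Real.log (((q i).coeff 1).natAbs : ℝ) ≤ Real.log M := by
        refine Real.log_le_log (by exact_mod_cast Nat.pos_of_ne_zero hne) ?_
        have h7 := haM i
        rw [Int.abs_eq_natAbs] at h7
        exact_mod_cast h7
      linarith
    refine (sum_le_card_nsmul _ _ _ e2).trans (le_of_eq ?_)
    rw [card_univ, Fintype.card_fin, nsmul_eq_mul]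
  -- the primes dividing the determinants
  have h5 : ∑ p ∈ P, (((univ : Finset (Fin K × Fin K)).filter fun x => x.1 ≠ x.2 ∧ (p : ℤ) ∣ dtl q s x.1 x.2).card : ℝ) ≤ (K : ℝ) ^ 2 * (3 * Real.log M) := by
    have e1 : ∀ p : ℕ, (((univ : Finset (Fin K × Fin K)).filter fun x => x.1 ≠ x.2 ∧ (p : ℤ) ∣ dtl q s x.1 x.2).card : ℝ) =
        ∑ x : Fin K × Fin K, if x.1 ≠ x.2 ∧ (p : ℤ) ∣ dtl q s x.1 x.2 then (1 : ℝ) else 0 := by
      intro p
      rw [sum_boole]
    simp only [e1]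
    rw [sum_comm]
    have e2 : ∀ x ∈ (univ : Finset (Fin K × Fin K)), ∑ p ∈ P, (if x.1 ≠ x.2 ∧ (p : ℤ) ∣ dtl q s x.1 x.2 then (1 : ℝ) else 0) ≤ 3 * Real.log M := by
      intro x _
      rw [sum_boole]
      by_cases hx : x.1 = x.2
      · rw [filter_false_of_mem]
        · rw [card_empty, Nat.cast_zero]
          linarith
        · intro p _ h
          exact h.1 hx
      · have hne : (dtl q s x.1 x.2).natAbs ≠ 0 := by
          rw [Int.natAbs_ne_zero]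
          exact hnd _ _ hx
        have h4 := card_primes (dtl q s x.1 x.2).natAbs hne (Y := (Y : ℝ))
          (by exact_mod_cast hY3) (P.filter fun p : ℕ => x.1 ≠ x.2 ∧ (p : ℤ) ∣ dtl q s x.1 x.2) (fun p hp => by
            rw [mem_filter] at hp
            exact ⟨(hPm p hp.1).2, Int.natCast_dvd.1 hp.2.2, by exact_mod_cast (hPm p hp.1).1.le⟩)
        refine h4.trans ?_
        have h5 : Real.log ((dtl q s x.1 x.2).natAbs : ℝ) ≤ Real.log ((M : ℝ) ^ 3) := by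
          refine Real.log_le_log (by exact_mod_cast Nat.pos_of_ne_zero hne) ?_
          have h6 := dtl_le (M := M) haM hs x.1 x.2
          have h7 : 2 * M ^ 2 ≤ M ^ 3 := by nlinarith [Nat.zero_le (M ^ 2)]
          exact_mod_cast h6.trans h7
        rw [Real.log_pow] at h5
        exact_mod_cast h5
    refine (sum_le_card_nsmul _ _ _ e2).trans (le_of_eq ?_)
    rw [card_univ, Fintype.card_prod, Fintype.card_fin, nsmul_eq_mul]
    push_cast
    ring
  have h6 : 2 * (K : ℝ) ^ 2 * ∑ p ∈ P, ((p : ℝ) ^ 2)⁻¹ ≤ 2 * (K : ℝ) ^ 2 * Real.log M / Y := by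
    calc 2 * (K : ℝ) ^ 2 * ∑ p ∈ P, ((p : ℝ) ^ 2)⁻¹
        ≤ 2 * (K : ℝ) ^ 2 * (Y : ℝ)⁻¹ := by gcongr
      _ ≤ 2 * (K : ℝ) ^ 2 * (Real.log M * (Y : ℝ)⁻¹) := by
          gcongr
          exact le_mul_of_one_le_left (by positivity) hlog
      _ = _ := by ring
  have h7 : (2 * K / Y) * (∑ p ∈ P, (((univ : Finset (Fin K)).filter fun i => (p : ℤ) ∣ (q i).coeff 1).card : ℝ) +
      ∑ p ∈ P, (((univ : Finset (Fin K × Fin K)).filter fun x => x.1 ≠ x.2 ∧ (p : ℤ) ∣ dtl q s x.1 x.2).card : ℝ)) ≤ (2 * K / Y) * (K * (3 * Real.log M) + (K : ℝ) ^ 2 * (3 * Real.log M)) :=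
    mul_le_mul_of_nonneg_left (add_le_add h4 h5) (by positivity)
  have h8 : 2 * (K : ℝ) ^ 2 * Real.log M / Y + (2 * K / Y) * (K * (3 * Real.log M) + (K : ℝ) ^ 2 * (3 * Real.log M)) ≤ 8 * ((K : ℝ) + 1) ^ 3 * Real.log M / Y := by
    have e : 2 * (K : ℝ) ^ 2 * Real.log M / Y + (2 * K / Y) * (K * (3 * Real.log M) + (K : ℝ) ^ 2 * (3 * Real.log M)) = (8 * (K : ℝ) ^ 2 + 6 * (K : ℝ) ^ 3) * Real.log M / Y := by ring
    rw [e]
    have h9 : 8 * (K : ℝ) ^ 2 + 6 * (K : ℝ) ^ 3 ≤ 8 * ((K : ℝ) + 1) ^ 3 := by nlinarith [pow_nonneg hK0 2, pow_nonneg hK0 3]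
    gcongr
  linarith

/-- convergence of the singular series of linear forms -/
theorem farL {K : ℕ} {q : Fin K → Polynomial ℤ} (hq : ∀ i, (q i).natDegree = 1) (s : Fin K → ℕ) {M Y : ℕ} (hM : 3 ≤ M) (hY : 8 * (K + 1) ^ 2 ≤ Y)
    (haM : ∀ i, |(q i).coeff 1| ≤ M)
    (hs : ∀ i, |cf (q i) (s i)| ≤ M) (hnd : ∀ i j, i ≠ j → dtl q s i j ≠ 0) (hA : AdmQ q s) :
    0 < singQ q s ∧ Tendsto (singPQ q s) atTop (nhds (singQ q s)) ∧
      |Real.log (singQ q s / singPQ q s Y)| ≤ 8 * ((K : ℝ) + 1) ^ 3 * Real.log M / Y := by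
  have hloc : ∀ p : ℕ, p.Prime → Y < p → 0 < locQ q s p := fun p hp _ => Pool.Agent.Q150.LQ.locQ_pos hp (hA p hp)
  obtain ⟨L, hL0, hL1, hL2⟩ := Pool.Agent.Q261.LS.far_abs (locQ q s) Y (8 * ((K : ℝ) + 1) ^ 3 * Real.log M / Y) hloc
    (Pool.Agent.Q150.LQ.singPQ_pos hA Y) (fun n => sum_logL hq hM hY haM hs hnd hA)
  have hlim : Tendsto (singPQ q s) atTop (nhds L) := hL1
  have hsing : singQ q s = L := hlim.limUnder_eq
  rw [hsing]
  exact ⟨hL0, hlim, hL2⟩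

/-- the truncated series -/
theorem near_truncL : ∀ e δ : ℝ, 0 < e → 0 < δ → ∃ M g : ℝ, 64 ≤ M ∧ 0 < g ∧ ∀ (z w Y X K : ℕ) (H : Fin K → ℕ) (q : Fin K → Polynomial ℤ), M ≤ Real.log (Real.log X) →
    64 * Real.log (Real.log X) ≤ z → 64 * z * Real.log (Real.log X) ≤ Real.log Y → Y ≤ X → 8 * (K + 1) ≤ z → SysL z Y X H q → GG z q ≤ g → z ≤ w → (w : ℝ) ^ 20 ≤ X →
    NearQ z H q (fun s => singPQ q s w) e δ := by
  classical
  intro e δ he hδ
  obtain ⟨C, X₀, z₀, hC, ht⟩ := tailL e he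
  set M : ℝ := 64 + X₀ + z₀ + Real.exp (2 * C / δ) with hM
  have p1 := Real.exp_pos (2 * C / δ)
  have p2 : (0 : ℝ) ≤ X₀ := by positivity
  have p3 : (0 : ℝ) ≤ z₀ := by positivity
  have hM64 : 64 ≤ M := by linarith
  refine ⟨M, δ / (2 * C), hM64, by positivity, ?_⟩
  intro z w Y X K H q hX hz hzY hYX hK hS hg hzw hw b
  obtain ⟨hL0, hLM, hzM, hzL, hzl, hXe, hYe, hLe, hl64, hlL, hYXl⟩ := elemQ hM64 hX hYX hz hzY
  have hXL : Real.log X ≤ X := by
    have := Real.add_one_le_exp (Real.log X)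
    rw [← hXe] at this; linarith
  have hX0 : X₀ ≤ X := by
    have : (X₀ : ℝ) ≤ X := by linarith
    exact_mod_cast this
  have hz0 : z₀ ≤ z := by
    have : (z₀ : ℝ) ≤ z := by linarith
    exact_mod_cast this
  have hzpos : (0 : ℝ) < z := by linarith
  have hW20 : (PW z : ℝ) ^ 20 ≤ X := by
    calc (PW z : ℝ) ^ 20 ≤ (Real.exp (2 * z)) ^ 20 := by gcongr; exact PW_le Pool.Agent.Q111.SZ.t_PWB z
      _ = Real.exp (40 * z) := by rw [← Real.exp_nat_mul]; ring_nf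
      _ ≤ Real.exp (Real.log X) := Real.exp_le_exp.2 (by linarith)
      _ = X := hXe.symm
  have h1 := ht z w Y X K H q hX0 hz0 hK hS (by linarith) hW20 hzw hw b
  have hlz : 2 * C / δ ≤ Real.log z := by
    rw [Real.le_log_iff_exp_le hzpos]
    linarith
  have hlz0 : 0 < Real.log z := lt_of_lt_of_le (by positivity) hlz
  have h2 : C / Real.log z ≤ δ / 2 := by
    rw [div_le_iff₀ hlz0]
    rw [div_le_iff₀ hδ] at hlz
    linarith
  have h2' : C * GG z q ≤ δ / 2 := by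
    have := mul_le_mul_of_nonneg_left hg hC.le
    have e1 : C * (δ / (2 * C)) = δ / 2 := by field_simp
    linarith
  have h3 : (0 : ℝ) ≤ (SbQ H b).card := Nat.cast_nonneg _
  have h4 : (((SbQ H b).filter fun s => ¬ (AdmQ q s → |singPQ q s w - singPQ q s z| ≤ e * singPQ q s z)).card : ℝ) ≤
      (((SbQ H b).filter fun s => ¬ (|singPQ q s w - singPQ q s z| ≤ e * singPQ q s z)).card : ℝ) := by
    have : ((SbQ H b).filter fun s => ¬ (AdmQ q s → |singPQ q s w - singPQ q s z| ≤ e * singPQ q s z)) ⊆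
        ((SbQ H b).filter fun s => ¬ (|singPQ q s w - singPQ q s z| ≤ e * singPQ q s z)) := by
      intro s hs
      rw [mem_filter] at hs ⊢
      refine ⟨hs.1, fun h => hs.2 fun _ => h⟩
    exact_mod_cast card_le_card this
  have h5 := h4.trans (h1.trans (mul_le_mul_of_nonneg_right (show C / Real.log z + C * GG z q ≤ δ by linarith) h3))
  convert h5 using 2

open Classical in
/-- the large primes, for most constants -/
theorem far_mostL : ∀ ε : ℝ, 0 < ε → ∃ X₀ : ℕ, ∀ (z Y X K : ℕ) (H : Fin K → ℕ) (q : Fin K → Polynomial ℤ), X₀ ≤ X → 2 ≤ Y → 16 * (K + 1) ≤ z → SysL z Y X H q →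
    (z : ℝ) ≤ Real.log X → (PW z : ℝ) ^ 40 ≤ X → (Uz z : ℝ) ^ 2 ≤ X → ∀ b : Fin K → ZMod (PW z),
    (((SbQ H b).filter fun s => ¬ (AdmQ q s → 0 < singQ q s ∧ Tendsto (singPQ q s) atTop (nhds (singQ q s)) ∧
      |singQ q s - singPQ q s (w0 X)| ≤ ε * singPQ q s (w0 X))).card : ℝ) ≤ ε * (SbQ H b).card := by
  intro ε hε
  obtain ⟨X₀, hX₀⟩ := Filter.eventually_atTop.1 (ev40 (1000 + 1000 / ε) (1 + 1 / ε) (by positivity))
  refine ⟨max X₀ 2, ?_⟩
  intro z Yn X K H q hX hYn2 hK hSys hz hW hU b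
  have hY0 : X₀ ≤ X := (le_max_left _ _).trans hX
  have hX2 : 2 ≤ X := (le_max_right _ _).trans hX
  have hq : ∀ i, (q i).natDegree = 1 := hSys.deg
  obtain ⟨hlog4, hlogD⟩ := hX₀ X hY0
  set L : ℝ := Real.log X with hL
  have hYpos : (0 : ℝ) < X := by exact_mod_cast (show 0 < X by omega)
  obtain ⟨r, hr⟩ : ∃ r : ℝ, r = (X : ℝ) ^ (1 / 40 : ℝ) := ⟨_, rfl⟩
  rw [← hr] at hlog4
  have hr0 : 0 < r := by
    rw [hr]
    exact Real.rpow_pos_of_pos hYpos _
  have hX40 : (X : ℝ) = r ^ 40 := by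
    rw [hr, ← Real.rpow_natCast, ← Real.rpow_mul hYpos.le]
    norm_num
  have hL1 : 1 ≤ L := by
    have : 0 < 1 / ε := by positivity
    linarith
  have hC0 : 0 < 1000 / ε := by positivity
  have hL3 : L ≤ L ^ 4 := by nlinarith [pow_le_pow_right₀ hL1 (show 1 ≤ 4 by norm_num)]
  have hrL : 1000 * L ^ 4 ≤ r := by nlinarith [pow_pos (zero_lt_one.trans_le hL1) 4]
  have hrLε : 1000 / ε * L ^ 4 ≤ r := by nlinarith [pow_pos (zero_lt_one.trans_le hL1) 4]
  have hr1 : 1000 ≤ r := by linarith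
  have hKz : (16 : ℝ) * (K + 1) ≤ z := by exact_mod_cast hK
  have hK0 : (0 : ℝ) ≤ K := Nat.cast_nonneg _
  have hKL : (K : ℝ) + 1 ≤ L := by linarith
  have hz1 : (1 : ℝ) ≤ z := by linarith
  -- the cut-off
  obtain ⟨w, hw⟩ : ∃ w : ℕ, w = w0 X := ⟨_, rfl⟩
  have hw1 : r < 2 * (w : ℝ) := by
    have h1 := w0_lt X
    rw [← hw] at h1
    have h2 : (X : ℝ) < (((2 * w) ^ 40 : ℕ) : ℝ) := by exact_mod_cast h1
    rw [hX40] at h2
    push_cast at h2
    exact lt_of_pow_lt_pow_left₀ 40 (by positivity) h2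
  have hzw' : (z : ℝ) ≤ w := by linarith
  have hzw : z ≤ w := by exact_mod_cast hzw'
  have hw3 : 3 ≤ w := by omega
  have hw0 : (0 : ℝ) < w := by exact_mod_cast (show 0 < w by omega)
  have hKw : 8 * (K + 1) ^ 2 ≤ w := by
    have h1 : 8 * ((K : ℝ) + 1) ^ 2 ≤ w := by
      have h3 : ((K : ℝ) + 1) ^ 2 ≤ L ^ 2 := by gcongr
      have h4 : L ^ 2 ≤ L ^ 4 := pow_le_pow_right₀ hL1 (by norm_num)
      linarith
    exact_mod_cast h1
  have hHX : ∀ i, 9 * H i ≤ X ^ 2 := by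
    intro i
    have h1 : (9 * H i : ℝ) ≤ (X : ℝ) ^ 2 := by
      have h2 : (H i : ℝ) ≤ Uz z * X := by exact_mod_cast (hSys.scale i).2
      have h3 : (9 : ℝ) * Uz z ≤ X := by
        have h4 : (9 * (Uz z : ℝ)) ≤ (Uz z : ℝ) ^ 2 := by
          have h5 : (9 : ℝ) ≤ Uz z := by
            have h6 : 9 ≤ Uz z := le_trans (by omega) (le_Uz z)
            exact_mod_cast h6
          nlinarith
        linarith
      calc (9 * H i : ℝ) ≤ 9 * (Uz z * X) := by linarith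
        _ = 9 * Uz z * X := by ring
        _ ≤ X * X := by gcongr
        _ = (X : ℝ) ^ 2 := by ring
    exact_mod_cast h1
  -- good tuples
  have hgood : ∀ s ∈ SbQ H b, (∀ i j, i ≠ j → dtl q s i j ≠ 0) →
      (AdmQ q s → 0 < singQ q s ∧ Tendsto (singPQ q s) atTop (nhds (singQ q s)) ∧
        |singQ q s - singPQ q s (w0 X)| ≤ ε * singPQ q s (w0 X)) := by
    intro s hs hnp hA
    unfold SbQ at hs
    rw [Fintype.mem_piFinset] at hs
    have hsI : ∀ i, s i ∈ Icc 1 (H i) := by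
      intro i
      have h1 := hs i
      unfold cls at h1
      exact (mem_filter.1 h1).1
    have hco := fun i => coefE (z := z) (hq i) hYn2 (hSys.val i) (mem_Icc.1 (hsI i)).2
    have hMM : ∀ i, (9 * H i : ℤ) ≤ ((X ^ 2 : ℕ) : ℤ) := fun i => by exact_mod_cast hHX i
    obtain ⟨g1, g2, g3⟩ := farL hq s (M := X ^ 2) (Y := w) (by nlinarith) hKw
      (fun i => (hco i).1.trans (hMM i)) (fun i => (hco i).2.trans (hMM i)) hnp hA
    refine ⟨g1, g2, ?_⟩
    rw [← hw]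
    have hβ : 8 * ((K : ℝ) + 1) ^ 3 * Real.log ((X ^ 2 : ℕ) : ℝ) / w ≤ 32 * L ^ 4 / r := by
      push_cast
      rw [Real.log_pow]
      push_cast
      rw [← hL]
      have h1 : ((K : ℝ) + 1) ^ 3 ≤ L ^ 3 := by gcongr
      rw [div_le_div_iff₀ hw0 hr0]
      have h6 : 8 * ((K : ℝ) + 1) ^ 3 * (2 * L) ≤ 16 * L ^ 4 := by
        calc 8 * ((K : ℝ) + 1) ^ 3 * (2 * L) ≤ 8 * L ^ 3 * (2 * L) := by gcongr
          _ = 16 * L ^ 4 := by ring
      have h7 : (0 : ℝ) ≤ 16 * L ^ 4 := by positivity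
      calc 8 * ((K : ℝ) + 1) ^ 3 * (2 * L) * r ≤ 16 * L ^ 4 * r := by gcongr
        _ ≤ 16 * L ^ 4 * (2 * w) := by gcongr
        _ = 32 * L ^ 4 * w := by ring
    have e1 : 32 * L ^ 4 / r ≤ 32 / 1000 := by
      rw [div_le_div_iff₀ hr0 (by norm_num)]
      linarith
    have e3 : 32 * L ^ 4 / r ≤ 32 / 1000 * ε := by
      rw [div_le_iff₀ hr0]
      have h7 : 1000 * L ^ 4 ≤ ε * r := by
        have h8 : 1000 / ε * L ^ 4 = 1000 * L ^ 4 / ε := by ring
        rw [h8, div_le_iff₀ hε] at hrLε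
        linarith
      nlinarith
    have h9 := close g1 (singPQ_pos hA w) (g3.trans hβ) (by linarith)
    refine h9.trans ?_
    have hP := singPQ_pos hA w
    nlinarith
  -- sizes of the classes
  have hWr : (PW z : ℝ) ≤ r := by
    have h1 : (PW z : ℝ) ^ 40 ≤ r ^ 40 := by
      refine hW.trans (le_of_eq hX40)
    exact le_of_pow_le_pow_left₀ (by norm_num) hr0.le h1
  have hW0 : (0 : ℝ) < PW z := by exact_mod_cast Nat.pos_of_ne_zero (NeZero.ne (PW z))
  have hT : ∀ i, r ^ 39 / 2 ≤ ((cls (H i) (b i)).card : ℝ) := by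
    intro i
    have h1 := (abs_le.1 (Pool.Agent.Q261.SZ.card_cls (H i) (b i))).1
    have h2 : r ^ 40 ≤ H i := by
      rw [← hX40]
      exact_mod_cast (hSys.scale i).1
    have h3 : r ^ 39 ≤ (H i : ℝ) / PW z := by
      rw [le_div_iff₀ hW0]
      calc r ^ 39 * PW z ≤ r ^ 39 * r := by gcongr
        _ = r ^ 40 := by ring
        _ ≤ H i := h2
    have h4 : r ≤ r ^ 39 := le_self_pow₀ (by linarith) (by norm_num)
    linarith
  set N : ℝ := ((SbQ H b).card : ℝ) with hN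
  have hN0 : 0 ≤ N := Nat.cast_nonneg _
  have hbad2 : ∀ x : Fin K × Fin K, x.1 ≠ x.2 → (((SbQ H b).filter fun s => dtl q s x.1 x.2 = 0).card : ℝ) ≤
      2 / r ^ 3 * N := by
    rintro ⟨i, j⟩ hij
    dsimp only at hij ⊢
    have h1 := count_upd (fun i => cls (H i) (b i)) j (fun s => dtl q s i j = 0) 1 (by
      intro s _
      rw [card_le_one]
      intro t ht t' ht'
      rw [mem_filter] at ht ht'
      have e1 := ht.2
      have e2 := ht'.2
      unfold dtl cf at e1 e2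
      simp only [Function.update_self, Function.update_of_ne hij] at e1 e2
      have e3 : (q i).coeff 1 * ((t : ℤ) - t') = 0 := by linear_combination e1 - e2
      rcases mul_eq_zero.1 e3 with e4 | e4
      · exact absurd e4 (c1_ne (hq i))
      · have e5 : (t : ℤ) = t' := sub_eq_zero.1 e4
        exact_mod_cast e5)
    have h1' : ((SbQ H b).filter fun s => dtl q s i j = 0).card * (cls (H j) (b j)).card ≤ 1 * (SbQ H b).card := h1
    have h2 : (((SbQ H b).filter fun s => dtl q s i j = 0).card : ℝ) * ((cls (H j) (b j)).card : ℝ) ≤ 1 * N := by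
      rw [hN]
      exact_mod_cast h1'
    have h3 : (((SbQ H b).filter fun s => dtl q s i j = 0).card : ℝ) * (r ^ 39 / 2) ≤ r ^ 36 * N := by
      calc _ ≤ (((SbQ H b).filter fun s => dtl q s i j = 0).card : ℝ) * ((cls (H j) (b j)).card : ℝ) :=
            mul_le_mul_of_nonneg_left (hT j) (Nat.cast_nonneg _)
        _ ≤ 1 * N := h2
        _ ≤ r ^ 36 * N := mul_le_mul_of_nonneg_right (one_le_pow₀ (by linarith)) hN0
    have h4 : 2 / r ^ 3 * N = (r ^ 36 * N) / (r ^ 39 / 2) := by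
      field_simp
    rw [h4, le_div_iff₀ (by positivity)]
    exact h3
  -- the union bound
  have hsub : ((SbQ H b).filter fun s => ¬ (AdmQ q s → 0 < singQ q s ∧
      Tendsto (singPQ q s) atTop (nhds (singQ q s)) ∧
      |singQ q s - singPQ q s (w0 X)| ≤ ε * singPQ q s (w0 X))) ⊆
      ((univ : Finset (Fin K × Fin K)).filter (fun x => x.1 ≠ x.2)).biUnion fun x =>
        (SbQ H b).filter fun s => dtl q s x.1 x.2 = 0 := by
    intro s hs
    rw [mem_filter] at hs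
    by_contra hcon
    rw [mem_biUnion] at hcon
    apply hs.2
    refine hgood s hs.1 (fun i j hij h => ?_)
    exact hcon ⟨(i, j), mem_filter.2 ⟨mem_univ _, hij⟩, mem_filter.2 ⟨hs.1, h⟩⟩
  have hcard := (card_le_card hsub).trans card_biUnion_le
  have hcard' : ((((SbQ H b).filter fun s => ¬ (AdmQ q s → 0 < singQ q s ∧
      Tendsto (singPQ q s) atTop (nhds (singQ q s)) ∧
      |singQ q s - singPQ q s (w0 X)| ≤ ε * singPQ q s (w0 X))).card : ℕ) : ℝ) ≤
      ∑ x ∈ (univ : Finset (Fin K × Fin K)).filter (fun x => x.1 ≠ x.2), (((SbQ H b).filter fun s =>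
        dtl q s x.1 x.2 = 0).card : ℝ) := by
    exact_mod_cast hcard
  refine hcard'.trans ?_
  have hs2 := sum_le_card_nsmul ((univ : Finset (Fin K × Fin K)).filter (fun x => x.1 ≠ x.2)) _ _
    fun x hx => hbad2 x (mem_filter.1 hx).2
  rw [nsmul_eq_mul] at hs2
  have hpairs : ((((univ : Finset (Fin K × Fin K)).filter (fun x => x.1 ≠ x.2)).card : ℕ) : ℝ) ≤ (K : ℝ) ^ 2 := by
    have h1 : ((univ : Finset (Fin K × Fin K)).filter (fun x => x.1 ≠ x.2)).card ≤ K * K := by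
      refine (card_filter_le _ _).trans ?_
      rw [card_univ, Fintype.card_prod, Fintype.card_fin]
    have h2 : ((((univ : Finset (Fin K × Fin K)).filter (fun x => x.1 ≠ x.2)).card : ℕ) : ℝ) ≤ ((K * K : ℕ) : ℝ) := by
      exact_mod_cast h1
    refine h2.trans (le_of_eq ?_)
    push_cast
    ring
  have hnn : 0 ≤ 2 / r ^ 3 * N := mul_nonneg (div_nonneg (by norm_num) (pow_nonneg hr0.le 3)) hN0
  have hs3 : ((((univ : Finset (Fin K × Fin K)).filter (fun x => x.1 ≠ x.2)).card : ℕ) : ℝ) * (2 / r ^ 3 * N) ≤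
      (K : ℝ) ^ 2 * (2 / r ^ 3 * N) := mul_le_mul_of_nonneg_right hpairs hnn
  have hfin : (K : ℝ) ^ 2 * (2 / r ^ 3) ≤ ε := by
    have h1 : (K : ℝ) ^ 2 ≤ 2 * L ^ 4 := by
      have h2 : (K : ℝ) ^ 2 ≤ L ^ 2 := by
        have : (K : ℝ) ≤ L := by linarith
        gcongr
      have h3 : L ^ 2 ≤ L ^ 4 := pow_le_pow_right₀ hL1 (by norm_num)
      linarith
    have h2 : r ≤ r ^ 3 := le_self_pow₀ (by linarith) (by norm_num)
    have h3 : 2 / r ^ 3 ≤ 2 / r := by gcongr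
    have h7 : 1000 * L ^ 4 ≤ ε * r := by
      have h8 : 1000 / ε * L ^ 4 = 1000 * L ^ 4 / ε := by ring
      rw [h8, div_le_iff₀ hε] at hrLε
      linarith
    calc (K : ℝ) ^ 2 * (2 / r ^ 3) ≤ 2 * L ^ 4 * (2 / r) := by gcongr
      _ = 4 * L ^ 4 / r := by ring
      _ ≤ ε := by
        rw [div_le_iff₀ hr0]
        nlinarith [pow_pos (zero_lt_one.trans_le hL1) 4]
  calc _ ≤ (K : ℝ) ^ 2 * (2 / r ^ 3 * N) := by linarith
    _ = ((K : ℝ) ^ 2 * (2 / r ^ 3)) * N := by ring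
    _ ≤ ε * N := mul_le_mul_of_nonneg_right hfin hN0

end Pool.Agent.Q145.LT
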