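import Pool.Agent.Q145.LT.Bad
import Pool.Agent.Q145.LE.Hs

/-!
# Project LT: the average of the pair singular series, for linear forms whose slopes may have large prime factors
-/

set_option autoImplicit false

namespace Pool.Agent.Q145.LT

open Finset Filter
open Pool.Agent.Q145.SZ Pool.Agent.Q145.LQ Pool.Agent.Q145.LE Pool.Agent.Q261.SZ Pool.Agent.Q53.LQ.JPOLY Pool.Agent.Q53.LQ.HSQ

/-- the factor of the slopes -/
lemma JP_le_exp (z a : ℕ) : JP z a ≤ Real.exp (2 * ∑ p ∈ a.primeFactors.filter (fun p => z < p), 1 / (p : ℝ)) := by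
  rw [mul_sum, Real.exp_sum]
  unfold JP
  refine prod_le_prod (fun p hp => ?_) fun p hp => ?_
  · exact zero_le_one.trans (fac_one_le (Nat.prime_of_mem_primeFactors (mem_filter.1 hp).1))
  · have hp2 : (2 : ℝ) ≤ p := by exact_mod_cast (Nat.prime_of_mem_primeFactors (mem_filter.1 hp).1).two_le
    have h1 := Real.add_one_le_exp (2 * (1 / (p : ℝ)))
    refine le_trans ?_ h1
    rw [div_le_iff₀ (by linarith)]
    have h2 : (2 * (1 / (p : ℝ)) + 1) * ((p : ℝ) - 1) = p + 1 - 2 / p := by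
      field_simp
      ring
    rw [h2]
    have h3 : 2 / (p : ℝ) ≤ 1 := by
      rw [div_le_one (by linarith)]
      exact hp2
    linarith

/-- the product of the factors of the slopes -/
lemma prod_JP_le {K : ℕ} (z r : ℕ) (hr : r ≤ 2) (q : Fin K → Polynomial ℤ) : ∏ i, JP z (la (q i)) ^ r ≤ Real.exp (4 * GG z q) := by
  have h1 : ∏ i, JP z (la (q i)) ^ r ≤ ∏ i, JP z (la (q i)) ^ 2 := by
    refine prod_le_prod (fun i _ => pow_nonneg (zero_le_one.trans (JP_one_le _ _)) _) fun i _ => ?_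
    exact pow_le_pow_right₀ (JP_one_le _ _) hr
  refine h1.trans ?_
  unfold GG
  rw [mul_sum, Real.exp_sum]
  refine prod_le_prod (fun i _ => pow_nonneg (zero_le_one.trans (JP_one_le _ _)) _) fun i _ => ?_
  calc JP z (la (q i)) ^ 2 ≤ Real.exp (2 * ∑ p ∈ (la (q i)).primeFactors.filter (fun p => z < p), 1 / (p : ℝ)) ^ 2 :=
        pow_le_pow_left₀ (zero_le_one.trans (JP_one_le _ _)) (JP_le_exp z _) 2
    _ = _ := by
        rw [← Real.exp_nat_mul]
        congr 1
        push_cast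
        ring

open Classical in
/-- the conclusion of `HSQ` -/
def HSQl : Prop := ∃ (C z₀ : ℕ), 1 ≤ C ∧ ∀ (z Y X K r : ℕ) (H : Fin K → ℕ) (q : Fin K → Polynomial ℤ), z₀ ≤ z → r ≤ 2 → 32 * K ≤ z → SysL z Y X H q → Y ≤ X →
  (PW z : ℝ) ^ 2 * Real.log ((Uz z : ℝ) * X) ^ (C * (K + 1)) ≤ Y → ∀ c e : ZMod (PW z),
  ∑ n ∈ (Ioc Y (2 * Y)).filter (fun n : ℕ => (n : ZMod (PW z)) = c),
    ∑ m ∈ (Ioc Y (2 * Y)).filter (fun m : ℕ => (m : ZMod (PW z)) = e ∧ okp q n m), ∏ i, SP z (H i) (dst (vq (q i) n) (vq (q i) m)) ^ r ≤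
      ((Y : ℝ) / PW z) ^ 2 * (1 + C / Real.log z) * Real.exp (4 * GG z q)

theorem hsqL (hJ : JPOLYe) : HSQl := by
  classical
  obtain ⟨C, z₁, hC1, hJ⟩ := hJ 1
  have hev : ∀ᶠ z : ℕ in atTop, Real.exp ((z : ℝ) / 2) ≤ PW z ∧ 60 ≤ z ∧ 1 ≤ Real.log z ∧ z₁ ≤ z := by
    have h1 : Tendsto (fun z : ℕ => Real.log z) atTop atTop :=
      Real.tendsto_log_atTop.comp tendsto_natCast_atTop_atTop
    filter_upwards [PW_large, eventually_ge_atTop 60, h1.eventually_ge_atTop 1,
      eventually_ge_atTop z₁] with z a b c d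
    exact ⟨a, b, c, d⟩
  obtain ⟨z₀, hz₀⟩ := hev.exists_forall_of_atTop
  refine ⟨4 * C, z₀, by omega, ?_⟩
  intro z Y X K r H q hz hr hK hS hYX hY c e
  obtain ⟨hW, hz60, hlog1, hz1⟩ := hz₀ z hz
  have hz60r : (60 : ℝ) ≤ z := by exact_mod_cast hz60
  have hW0 : (0 : ℝ) < PW z := by exact_mod_cast Nat.pos_of_ne_zero (NeZero.ne (PW z))
  have hlog0 : 0 < Real.log z := by linarith
  rcases Nat.eq_zero_or_pos Y with hY0 | hY0
  · subst hY0
    simp
  have hX0 : 0 < X := by omega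
  have hZ3 : 3 ≤ Uz z * X := le_trans (by have := le_Uz z; omega : 3 ≤ Uz z) (Nat.le_mul_of_pos_right (Uz z) hX0)
  have hYZ : Y ≤ Uz z * X := hYX.trans (Nat.le_mul_of_pos_left X (Uz_pos z))
  have hLeq : Real.log ((Uz z : ℝ) * X) = Real.log ((Uz z * X : ℕ) : ℝ) := by push_cast; rfl
  set L := Real.log ((Uz z * X : ℕ) : ℝ) with hL
  rw [hLeq] at hY
  have hL1 : 1 ≤ L := by
    rw [hL, Real.le_log_iff_exp_le (by exact_mod_cast Nat.mul_pos (Uz_pos z) hX0)]
    have : (3 : ℝ) ≤ ((Uz z * X : ℕ) : ℝ) := by exact_mod_cast hZ3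
    linarith [Real.exp_one_lt_d9]
  have hWY : (PW z : ℝ) ^ 2 ≤ Y :=
    le_trans (le_mul_of_one_le_right (by positivity) (one_le_pow₀ hL1)) hY
  set T : ℝ := (Y : ℝ) / PW z with hT
  have hY0r : (0 : ℝ) < Y := by exact_mod_cast hY0
  have hT0 : 0 < T := by positivity
  set E : ℝ := Real.exp (4 * GG z q) with hE
  have hE0 : 0 < E := Real.exp_pos _
  -- the inner sum
  have hinner : ∀ n ∈ Ioc Y (2 * Y),
      ∑ m ∈ (Ioc Y (2 * Y)).filter (fun m : ℕ => (m : ZMod (PW z)) = e ∧ okp q n m),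
        ∏ i, SP z (H i) (dst (vq (q i) n) (vq (q i) m)) ^ r ≤ T * (1 + C / Real.log z) * E := by
    intro n hn
    have hM2 : r * K ≤ 2 * K := Nat.mul_le_mul_right K hr
    have hX1 := hJ z Y (Uz z * X) (r * K) (Polynomial.X - Polynomial.C (n : ℤ)) hz1 (by omega) hZ3 hYZ (by
        refine le_trans ?_ hY
        rw [← hL]
        refine mul_le_mul_of_nonneg_left (pow_le_pow_right₀ hL1 ?_) (by positivity)
        have : r * K + 1 ≤ 4 * (K + 1) := by omega
        calc C * (r * K + 1) ≤ C * (4 * (K + 1)) := Nat.mul_le_mul_left _ this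
          _ = 4 * C * (K + 1) := by ring) (Polynomial.X_sub_C_ne_zero _)
      (by rw [Polynomial.natDegree_X_sub_C])
      (fun p hp _ hd => hp.one_lt.ne' (by rw [Polynomial.leadingCoeff_X_sub_C] at hd; exact_mod_cast Int.eq_one_of_dvd_one (by positivity) hd)) e
    set F := (Ioc Y (2 * Y)).filter (fun m : ℕ => (m : ZMod (PW z)) = e ∧ okp q n m) with hF
    have hFX : F ⊆ (Ioc Y (2 * Y)).filter (fun m : ℕ => (m : ZMod (PW z)) = e ∧
        (Polynomial.X - Polynomial.C (n : ℤ)).eval (m : ℤ) ≠ 0 ∧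
        ((Polynomial.X - Polynomial.C (n : ℤ)).eval (m : ℤ)).natAbs ≤ Uz z * X) := by
      intro m hm
      rw [hF, mem_filter] at hm
      rw [mem_filter]
      refine ⟨hm.1, hm.2.1, ?_, ?_⟩
      · rw [Polynomial.eval_sub, Polynomial.eval_X, Polynomial.eval_C]
        have := hm.2.2.1
        omega
      · rw [Polynomial.eval_sub, Polynomial.eval_X, Polynomial.eval_C]
        rw [mem_Ioc] at hn hm
        omega
    have hdst : ∀ i, ∀ m ∈ Ioc Y (2 * Y), dst (vq (q i) n) (vq (q i) m) = la (q i) * dst n m := by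
      intro i m hm
      unfold vq
      rw [dst_toNat (hS.nonneg i hn) (hS.nonneg i hm), eval_lin (hS.deg i), eval_lin (hS.deg i), dst_nat]
      unfold la
      rw [lc_lin (hS.deg i), ← Int.natAbs_mul]
      congr 1
      ring
    have hpt : ∀ m ∈ F, ∏ i, SP z (H i) (dst (vq (q i) n) (vq (q i) m)) ^ r ≤
        JP z ((Polynomial.X - Polynomial.C (n : ℤ)).eval (m : ℤ)).natAbs ^ (r * K) * E := by
      intro m hm
      have hm1 := hm
      rw [hF, mem_filter] at hm1
      have e1 : ((Polynomial.X - Polynomial.C (n : ℤ)).eval (m : ℤ)).natAbs = dst n m := by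
        rw [Polynomial.eval_sub, Polynomial.eval_X, Polynomial.eval_C, dst_nat]
      rw [e1]
      have hD : dst n m ≠ 0 := by
        have := hm1.2.2.1
        unfold dst
        omega
      have hz2 : 2 ≤ z := by omega
      calc ∏ i, SP z (H i) (dst (vq (q i) n) (vq (q i) m)) ^ r ≤ ∏ i, (JP z (la (q i)) * JP z (dst n m)) ^ r := by
            refine prod_le_prod (fun i _ => pow_nonneg (SP_nonneg hz2) r) fun i _ => ?_
            rw [hdst i m hm1.1]
            exact pow_le_pow_left₀ (SP_nonneg hz2)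
              ((SP_le_JP hz2 (Nat.mul_ne_zero (la_pos (hS.deg i)).ne' hD)).trans (JP_mul_le (la_pos (hS.deg i)).ne' hD)) r
        _ = JP z (dst n m) ^ (r * K) * ∏ i, JP z (la (q i)) ^ r := by
            simp only [mul_pow]
            rw [prod_mul_distrib, prod_const, card_univ, Fintype.card_fin, ← pow_mul, mul_comm]
        _ ≤ JP z (dst n m) ^ (r * K) * E := by
            refine mul_le_mul_of_nonneg_left (prod_JP_le z r hr q) ?_
            exact pow_nonneg (zero_le_one.trans (JP_one_le _ _)) _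
    refine (sum_le_sum hpt).trans ?_
    rw [← sum_mul]
    refine mul_le_mul_of_nonneg_right ?_ hE0.le
    have hnn : ∀ h : ℕ, 0 ≤ JP z h ^ (r * K) := fun h => pow_nonneg (zero_le_one.trans (JP_one_le z h)) _
    exact (sum_le_sum_of_subset_of_nonneg (f := fun m : ℕ =>
      JP z ((Polynomial.X - Polynomial.C (n : ℤ)).eval (m : ℤ)).natAbs ^ (r * K)) hFX
      fun m _ _ => hnn _).trans hX1
  -- the outer sum
  have hcard : (((Ioc Y (2 * Y)).filter (fun n : ℕ => (n : ZMod (PW z)) = c)).card : ℝ) ≤ T + 1 := by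
    refine cnt_le Y (PW z) (Nat.pos_of_ne_zero (NeZero.ne (PW z))) _ (filter_subset _ _) fun a ha b hb => ?_
    rw [mem_filter] at ha hb
    rw [← ZMod.natCast_eq_natCast_iff, ha.2, hb.2]
  refine (sum_le_card_nsmul _ _ _ fun n hn => hinner n (mem_filter.1 hn).1).trans ?_
  rw [nsmul_eq_mul]
  have hC0 : (0 : ℝ) ≤ C := Nat.cast_nonneg _
  have hB0 : 0 ≤ T * (1 + C / Real.log z) := by positivity
  refine (mul_le_mul_of_nonneg_right hcard (mul_nonneg hB0 hE0.le)).trans ?_
  rw [← mul_assoc]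
  refine mul_le_mul_of_nonneg_right ?_ hE0.le
  have h1 : Real.log z ≤ T := by
    have h2 : (PW z : ℝ) ≤ T := by
      rw [hT, le_div_iff₀ hW0]
      calc (PW z : ℝ) * PW z = (PW z : ℝ) ^ 2 := by ring
        _ ≤ Y := hWY
    have h3 : Real.log z ≤ PW z := by
      have h3 := Real.add_one_le_exp ((z : ℝ) / 2)
      have h4 : Real.log z ≤ (z : ℝ) / 2 + 1 := by
        have h5 : Real.log z = Real.log (z / 2) + Real.log 2 := by
          rw [← Real.log_mul (by positivity) two_ne_zero]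
          congr 1
          ring
        have h6 := Real.log_le_sub_one_of_pos (show (0 : ℝ) < z / 2 by linarith)
        have h7 := Real.log_two_lt_d9
        linarith
      linarith
    linarith
  set u : ℝ := 1 / Real.log z with hu
  have hu0 : 0 < u := by positivity
  have hu1 : u ≤ 1 := by
    rw [hu, div_le_one hlog0]
    exact hlog1
  have hTu : 1 ≤ T * u := by
    rw [hu, mul_one_div, le_div_iff₀ hlog0, one_mul]
    exact h1
  have hC1r : (1 : ℝ) ≤ C := by exact_mod_cast hC1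
  have hCu : (C : ℝ) / Real.log z = C * u := by rw [hu]; ring
  have hCu4 : ((4 * C : ℕ) : ℝ) / Real.log z = 4 * C * u := by rw [hu]; push_cast; ring
  rw [hCu, hCu4]
  calc (T + 1) * (T * (1 + C * u)) ≤ (T + T * u) * (T * (1 + C * u)) := by gcongr
    _ = T ^ 2 * (1 + (1 + C) * u + C * (u * u)) := by ring
    _ ≤ T ^ 2 * (1 + (1 + C) * u + C * (u * 1)) := by gcongr
    _ ≤ T ^ 2 * (1 + 4 * C * u) := by
        refine mul_le_mul_of_nonneg_left ?_ (by positivity)
        have h9 : u ≤ C * u := le_mul_of_one_le_left hu0.le hC1r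
        have h10 : 0 ≤ C * u := mul_nonneg hC0 hu0.le
        linarith

end Pool.Agent.Q145.LT
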