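import Pool.Agent.Q145.LT.Su

/-!
# Project LT: one common slope (prime tuples in progressions to large moduli)
-/

set_option autoImplicit false
set_option linter.all false

namespace Pool.Agent.Q145.LT

open Finset Filter
open Pool.Agent.Q145.SZ Pool.Agent.Q145.LQ Pool.Agent.Q145.LE
open Pool.Agent.Q145.LS (SUFP SUFc case1 case2 dich)

open Classical in
/-- for most common slopes few pairs are exceptional -/
theorem exq_c (prt : S_PRT) (tau : S_TAU) (a₀ : ℕ) : ∀ ε : ℝ, 0 < ε → ∃ M : ℝ, 64 ≤ M ∧ ∀ (z Y X K T : ℕ) (D : Finset ℕ),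
    M ≤ Real.log (Real.log X) → 64 * Real.log (Real.log X) ≤ z → 64 * z * Real.log (Real.log X) ≤ Real.log Y → Y ≤ X → K ≤ z →
    X ≤ 4 * Y * T ∧ 4 * Y * T ≤ Uz z * X →
    D ⊆ Icc 1 (4 * Y * T) → (D.card : ℝ) ≤ ((4 * Y * T : ℕ) : ℝ) / (PW z : ℝ) ^ (4 * a₀ + 40) →
    ((((Icc 1 T).filter fun t => ¬ (((exq Y (qt (G0 Y fun _ : Fin K => T) fun _ => t) fun _ => D).card : ℝ) ≤ (Y : ℝ) ^ 2 / (PW z : ℝ) ^ (2 * (a₀ + 8)))).card : ℕ) : ℝ) ≤
      ε * T := by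
  intro ε hε
  obtain ⟨Ct, hCt, ht⟩ := tau
  obtain ⟨z₁, hz₁⟩ := Pool.Agent.Q111.SZ.t_PWB.2
  set M : ℝ := 64 + 64 * Ct + z₁ + 1 / ε with hM
  have p1 : 0 < 1 / ε := by positivity
  have p2 : (0 : ℝ) ≤ z₁ := by positivity
  have hM64 : 64 ≤ M := by linarith
  refine ⟨M, hM64, ?_⟩
  intro z Y X K T D hX hz hzY hYX hK hsc hDs hDc
  obtain ⟨hL0, hLM, hzM, hzL, hzl, hXe, hYe, hLe, hl64, hlL, hYXl⟩ := elemQ hM64 hX hYX hz hzY
  have hscale := fun (Z : ℕ) (h1 : X ≤ Z) (h2 : Z ≤ Uz z * X) => scaleE hl64 hz (by linarith) h1 h2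
  set L := Real.log X with hL
  set l := Real.log L with hl
  have hz0 : (0 : ℝ) < z := by linarith
  have hY0 : (0 : ℝ) < Y := by rw [hYe]; exact Real.exp_pos _
  have hX0 : (0 : ℝ) < X := by rw [hXe]; exact Real.exp_pos _
  have hz1 : z₁ ≤ z := by
    have : (z₁ : ℝ) ≤ z := by linarith
    exact_mod_cast this
  have hW := hz₁ z hz1
  have hW1 := one_le_PW z
  set W : ℝ := (PW z : ℝ) with hWd
  have hW0 : 0 < W := by linarith
  have hL1 : 1 ≤ L := by linarith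
  have hLW : L ^ 32 ≤ W := by
    calc L ^ 32 = Real.exp (32 * l) := by
          rw [hLe, show (32 : ℝ) = ((32 : ℕ) : ℝ) by norm_num, Real.exp_nat_mul]
      _ ≤ Real.exp ((z : ℝ) / 2) := Real.exp_le_exp.2 (by linarith)
      _ ≤ W := hW
  have hL6 : L ^ 6 ≤ W := (pow_le_pow_right₀ hL1 (by norm_num)).trans hLW
  have hXL : L ≤ X := by
    have := Real.add_one_le_exp L
    rw [← hXe] at this; linarith
  have hX3 : 3 ≤ X := by
    have : (3 : ℝ) ≤ X := by linarith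
    exact_mod_cast this
  rcases Nat.eq_zero_or_pos K with hK0 | hK0
  · subst hK0
    have e : ((Icc 1 T).filter fun t => ¬ (((exq Y (qt (G0 Y fun _ : Fin 0 => T) fun _ => t) fun _ => D).card : ℝ) ≤ (Y : ℝ) ^ 2 / W ^ (2 * (a₀ + 8)))) = ∅ := by
      apply filter_eq_empty_iff.2
      intro t _
      rw [not_not]
      have : (exq Y (qt (G0 Y fun _ : Fin 0 => T) fun _ => t) fun _ => D) = ∅ := by
        unfold exq
        apply filter_eq_empty_iff.2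
        rintro x _ ⟨i, _⟩
        exact i.elim0
      rw [this]
      simp
      positivity
    rw [e]
    simp
    positivity
  have hKz : (K : ℝ) ≤ z := by exact_mod_cast hK
  have hK1 : (1 : ℝ) ≤ K := by exact_mod_cast hK0
  have hKp : (0 : ℝ) < K := by linarith
  have hzLr : (z : ℝ) ≤ L := by linarith
  have hCtL : 64 * Ct ≤ L := by linarith
  -- pairs
  set N : ℕ → ℝ := fun t => (((((Ioc Y (2 * Y)) ×ˢ (Ioc Y (2 * Y))).filter fun x : ℕ × ℕ =>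
    dst (vq (Polynomial.C (5 * Y * T : ℤ) + Polynomial.C (t : ℤ) * Polynomial.X) x.1) (vq (Polynomial.C (5 * Y * T : ℤ) + Polynomial.C (t : ℤ) * Polynomial.X) x.2) ∈ D).card : ℕ) : ℝ) with hN
  have hN0 : ∀ t, 0 ≤ N t := fun t => Nat.cast_nonneg _
  have hnn : ∀ t ∈ Icc 1 T, ∀ n ∈ Ioc Y (2 * Y), 0 ≤ (Polynomial.C (5 * Y * T : ℤ) + Polynomial.C (t : ℤ) * Polynomial.X).eval (n : ℤ) := by
    intro t hti n hn
    simp only [Polynomial.eval_add, Polynomial.eval_mul, Polynomial.eval_C, Polynomial.eval_X]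
    positivity
  have key : ∑ t ∈ Icc 1 T, N t ≤ L ^ 5 * (Y : ℝ) ^ 2 * T / W ^ (2 * a₀ + 20) := by
    obtain ⟨s1, s2, s3, s4⟩ := hscale _ hsc.1 hsc.2
    have h0 : 0 ∉ D := fun h => by
      have := hDs h
      rw [mem_Icc] at this
      omega
    have h1 := prt Y T (Polynomial.C (5 * Y * T : ℤ)) D hnn h0
    rw [show 4 * a₀ + 40 = 2 * (2 * a₀ + 20) by ring] at hDc
    have h2 := tau_small (L := L) hCt hW1 (hX3.trans hsc.1) ht hDs hDc s2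
    have hT0 : (0 : ℝ) ≤ T := Nat.cast_nonneg _
    calc _ ≤ 4 * Y * ∑ h ∈ D, (h.divisors.card : ℝ) := h1
      _ ≤ 4 * Y * (4 * Ct * L ^ 2 * ((4 * Y * T : ℕ) : ℝ) / W ^ (2 * a₀ + 20)) := by gcongr
      _ = (64 * Ct) * L ^ 2 * (Y : ℝ) ^ 2 * T / W ^ (2 * a₀ + 20) := by
        push_cast
        ring
      _ ≤ L * L ^ 2 * (Y : ℝ) ^ 2 * T / W ^ (2 * a₀ + 20) := by gcongr
      _ = L ^ 3 * (Y : ℝ) ^ 2 * T / W ^ (2 * a₀ + 20) := by ring
      _ ≤ _ := by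
        gcongr
        norm_num
  -- bad values of `t`
  have hp : 0 < (Y : ℝ) ^ 2 / (K * W ^ (2 * (a₀ + 8))) := by positivity
  set B : Finset ℕ := (Icc 1 T).filter fun t => (Y : ℝ) ^ 2 / (K * W ^ (2 * (a₀ + 8))) < N t with hB
  have hT0 : (0 : ℝ) ≤ T := Nat.cast_nonneg _
  have hBc : (B.card : ℝ) ≤ 1 / W ^ 3 * T := by
    have h1 : (B.card : ℝ) * ((Y : ℝ) ^ 2 / (K * W ^ (2 * (a₀ + 8)))) ≤ ∑ t ∈ Icc 1 T, N t := by
      calc (B.card : ℝ) * ((Y : ℝ) ^ 2 / (K * W ^ (2 * (a₀ + 8)))) = ∑ _t ∈ B, (Y : ℝ) ^ 2 / (K * W ^ (2 * (a₀ + 8))) := by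
            rw [sum_const, nsmul_eq_mul]
        _ ≤ ∑ t ∈ B, N t := sum_le_sum fun t ht => (mem_filter.1 ht).2.le
        _ ≤ ∑ t ∈ Icc 1 T, N t := sum_le_sum_of_subset_of_nonneg (filter_subset _ _) fun t _ _ => hN0 t
    have h2 := h1.trans key
    rw [← le_div_iff₀ hp] at h2
    refine h2.trans ?_
    calc L ^ 5 * (Y : ℝ) ^ 2 * T / W ^ (2 * a₀ + 20) / ((Y : ℝ) ^ 2 / (K * W ^ (2 * (a₀ + 8))))
        = L ^ 5 * K * T / W ^ 4 := by
          rw [show 2 * a₀ + 20 = 2 * (a₀ + 8) + 4 by ring, pow_add]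
          field_simp
      _ ≤ L ^ 5 * L * T / W ^ 4 := by gcongr; linarith
      _ = L ^ 6 * T / W ^ 4 := by ring
      _ ≤ W * T / W ^ 4 := by gcongr
      _ = 1 / W ^ 3 * T := by field_simp
  have hsub : ((Icc 1 T).filter fun t => ¬ (((exq Y (qt (G0 Y fun _ : Fin K => T) fun _ => t) fun _ => D).card : ℝ) ≤ (Y : ℝ) ^ 2 / W ^ (2 * (a₀ + 8)))) ⊆ B := by
    intro t htt
    rw [mem_filter] at htt
    rw [hB, mem_filter]
    refine ⟨htt.1, ?_⟩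
    by_contra hcon
    apply htt.2
    calc ((exq Y (qt (G0 Y fun _ : Fin K => T) fun _ => t) fun _ => D).card : ℝ) ≤ ∑ _i : Fin K, N t := exq_le Y (qt (G0 Y fun _ : Fin K => T) fun _ => t) fun _ => D
      _ ≤ ∑ _i : Fin K, (Y : ℝ) ^ 2 / (K * W ^ (2 * (a₀ + 8))) := sum_le_sum fun i _ => not_lt.1 hcon
      _ = (Y : ℝ) ^ 2 / W ^ (2 * (a₀ + 8)) := by
        rw [sum_const, card_univ, Fintype.card_fin, nsmul_eq_mul]
        field_simp
  have h5 : ((((Icc 1 T).filter fun t => ¬ (((exq Y (qt (G0 Y fun _ : Fin K => T) fun _ => t) fun _ => D).card : ℝ) ≤ (Y : ℝ) ^ 2 / W ^ (2 * (a₀ + 8)))).card : ℕ) : ℝ) ≤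
      B.card := by exact_mod_cast card_le_card hsub
  have h6 : (K : ℝ) * (1 / W ^ 3) ≤ ε := by
    have hLε : 1 / ε ≤ L := by linarith
    have h7 : 1 ≤ ε * L := by
      rw [div_le_iff₀ hε] at hLε
      linarith
    have h8 : (K : ℝ) ≤ L := by linarith
    have h9 : L ^ 2 ≤ W ^ 3 := by
      calc L ^ 2 ≤ L ^ 32 := pow_le_pow_right₀ hL1 (by norm_num)
        _ ≤ W := hLW
        _ = W ^ 1 := (pow_one W).symm
        _ ≤ W ^ 3 := pow_le_pow_right₀ hW1 (by norm_num)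
    rw [mul_one_div, div_le_iff₀ (by positivity)]
    calc (K : ℝ) ≤ L * 1 := by linarith
      _ ≤ L * (ε * L) := by gcongr
      _ = ε * L ^ 2 := by ring
      _ ≤ ε * W ^ 3 := by gcongr
  have h11 : (1 : ℝ) / W ^ 3 ≤ ε := by
    have : (1 : ℝ) / W ^ 3 ≤ K * (1 / W ^ 3) := le_mul_of_one_le_left (by positivity) hK1
    linarith
  exact h5.trans (hBc.trans (mul_le_mul_of_nonneg_right h11 hT0))

open Classical in
/-- most common slopes have few large prime factors -/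
theorem gg_c : ∀ g ε : ℝ, 0 < g → 0 < ε → ∃ z₀ : ℕ, ∀ (z Y K T : ℕ), z₀ ≤ z → K ≤ z →
    ((((Icc 1 T).filter fun t => ¬ GG z (qt (G0 Y fun _ : Fin K => T) fun _ => t) ≤ g).card : ℕ) : ℝ) ≤ ε * T := by
  intro g ε hg hε
  obtain ⟨C, hC, hSQ0⟩ := Pool.Agent.Q145.LS.t_SQ2
  have hSQ := fun (z w : ℕ) (hz : 2 ≤ z) => (hSQ0 z w hz).1
  have hev : ∀ᶠ z : ℕ in atTop, C / (g * ε) ≤ Real.log z ∧ 2 ≤ z ∧ 1 ≤ Real.log z := by
    have h1 : Tendsto (fun z : ℕ => Real.log z) atTop atTop :=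
      Real.tendsto_log_atTop.comp tendsto_natCast_atTop_atTop
    filter_upwards [h1.eventually_ge_atTop (C / (g * ε)), eventually_ge_atTop 2, h1.eventually_ge_atTop 1] with z a b c
    exact ⟨a, b, c⟩
  obtain ⟨z₀, hz₀⟩ := hev.exists_forall_of_atTop
  refine ⟨z₀, ?_⟩
  intro z Y K T hz hK
  obtain ⟨h1, h2, h3⟩ := hz₀ z hz
  have hz0 : (0 : ℝ) < z := by exact_mod_cast (show 0 < z by omega)
  have hT0 : (0 : ℝ) ≤ T := Nat.cast_nonneg _
  have hGG : ∀ t ∈ Icc 1 T, GG z (qt (G0 Y fun _ : Fin K => T) fun _ => t) = K * ∑ p ∈ t.primeFactors.filter (fun p => z < p), 1 / (p : ℝ) := by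
    intro t ht
    unfold GG
    rw [sum_congr rfl fun i _ => by rw [qt_la Y (fun _ => T) (fun _ => t) i (mem_Icc.1 ht).1], sum_const, card_univ, Fintype.card_fin, nsmul_eq_mul]
  have hsum : ∑ t ∈ Icc 1 T, GG z (qt (G0 Y fun _ : Fin K => T) fun _ => t) ≤ K * (C / ((z : ℝ) * Real.log z)) * T := by
    rw [sum_congr rfl hGG, ← mul_sum]
    calc _ ≤ K * (T * (C / ((z : ℝ) * Real.log z))) := mul_le_mul_of_nonneg_left (one_slope hSQ h2 T) (Nat.cast_nonneg _)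
      _ = _ := by ring
  have hmk : ((((Icc 1 T).filter fun t => ¬ GG z (qt (G0 Y fun _ : Fin K => T) fun _ => t) ≤ g).card : ℕ) : ℝ) * g ≤ ∑ t ∈ Icc 1 T, GG z (qt (G0 Y fun _ : Fin K => T) fun _ => t) := by
    calc ((((Icc 1 T).filter fun t => ¬ GG z (qt (G0 Y fun _ : Fin K => T) fun _ => t) ≤ g).card : ℕ) : ℝ) * g = ∑ _t ∈ (Icc 1 T).filter fun t => ¬ GG z (qt (G0 Y fun _ : Fin K => T) fun _ => t) ≤ g, g := by
          rw [sum_const, nsmul_eq_mul]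
      _ ≤ ∑ t ∈ (Icc 1 T).filter (fun t => ¬ GG z (qt (G0 Y fun _ : Fin K => T) fun _ => t) ≤ g), GG z (qt (G0 Y fun _ : Fin K => T) fun _ => t) :=
        sum_le_sum fun t ht => (not_le.1 (mem_filter.1 ht).2).le
      _ ≤ _ := sum_le_sum_of_subset_of_nonneg (filter_subset _ _) fun t _ _ => GG_nonneg _ _
  have hKz : (K : ℝ) ≤ z := by exact_mod_cast hK
  have hfin : (K : ℝ) * (C / ((z : ℝ) * Real.log z)) ≤ ε * g := by
    have e1 : (K : ℝ) * (C / ((z : ℝ) * Real.log z)) ≤ z * (C / ((z : ℝ) * Real.log z)) := by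
      apply mul_le_mul_of_nonneg_right hKz (by positivity)
    have e2 : (z : ℝ) * (C / ((z : ℝ) * Real.log z)) = C / Real.log z := by field_simp
    have e3 : C / Real.log z ≤ ε * g := by
      rw [div_le_iff₀ (by linarith)]
      rw [div_le_iff₀ (by positivity)] at h1
      linarith
    linarith
  have h5 := hmk.trans hsum
  have h6 : K * (C / ((z : ℝ) * Real.log z)) * (T : ℝ) ≤ (ε * g) * T := mul_le_mul_of_nonneg_right hfin hT0
  have h7 := h5.trans h6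
  have h8 : (ε * g) * (T : ℝ) = (ε * T) * g := by ring
  rw [h8] at h7
  exact le_of_mul_le_mul_right h7 hg

open Classical in
/-- the result for one common slope -/
def PC (C : ℝ) (X Q : ℕ) (ε : ℝ) : Prop := ∀ (Y K T : ℕ),
  C * ((Q + Real.log (Real.log X)) * Real.log (Real.log X)) ≤ Real.log Y → Y ≤ X → 4 * (K + 1) ≤ Q →
  X ≤ 4 * Y * T ∧ 4 * Y * T ≤ Uz Q * X →
  ((((Icc 1 T).filter fun t => ¬ HLC Y (fun _ : Fin K => 4 * Y * T) (qt (G0 Y fun _ : Fin K => T) fun _ => t) ε).card : ℕ) : ℝ) ≤ ε * T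

open Classical in
theorem sufC : ∃ C : ℝ, 0 < C ∧ SUFP (PC C) := by
  obtain ⟨a₀, κ, hκ, vb⟩ := vbl
  obtain ⟨B, C₀, hB, hC₀, hin⟩ := inputsE anE Pool.Agent.Q53.LQ.H2U.main (2 * (a₀ + 11)) (4 * a₀ + 40) (by omega)
  have hκr : (64 : ℝ) ≤ κ := by exact_mod_cast hκ
  refine ⟨κ * (17 + C₀), by positivity, B, C₀ + 1, hB, by linarith, fun ε hε => ?_⟩
  obtain ⟨M₁, hM₁, hexq⟩ := exq_c t_PRT t_TAU a₀ (ε / 2) (by positivity)
  obtain ⟨M₂, g₂, hM₂, hg₂, hnear⟩ := near_linL (min (ε / 2) 1 / 16) (ε / 2 / 16) (by positivity) (by positivity)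
  obtain ⟨M₃, g₃, hM₃, hg₃, hh⟩ := hls_boundL hκ vb t_MBQ Pool.Agent.Q111.SZ.t_PWB (ε / 2) (by positivity)
  obtain ⟨M₄, hM₄, hcv⟩ := conv_linL (ε / 2) (by positivity)
  set g : ℝ := min (min g₂ g₃) (1 / 8) with hg
  have hg0 : 0 < g := by positivity
  have hgg2 : g ≤ g₂ := (min_le_left _ _).trans (min_le_left _ _)
  have hgg3 : g ≤ g₃ := (min_le_left _ _).trans (min_le_right _ _)
  have hgg4 : g ≤ 1 / 8 := min_le_right _ _
  obtain ⟨z₀, hgm⟩ := gg_c g (ε / 2) hg0 (by positivity)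
  have hz₀0 : (0 : ℝ) ≤ z₀ := Nat.cast_nonneg _
  refine ⟨M₁ + M₂ + M₃ + M₄ + C₀ + z₀ + 1, by linarith, ?_⟩
  intro z₁ X ω T hl hz₁ hzL₁ hω hω4 hωL hT hTz₁ hTL hZF₁ Q hQ₁ Y K Tt hYl hYX hKQ hSys
  set l := Real.log (Real.log X) with hldef
  have hl0 : 0 < l := by linarith
  have hl1 : 1 ≤ l := by linarith
  -- the smaller sieve level
  set z : ℕ := max (16 * Q) ⌈C₀ * l⌉₊ with hzdef
  have hzz : z ≤ z₁ := by
    apply max_le hQ₁
    apply Nat.ceil_le.2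
    refine le_trans ?_ hz₁
    nlinarith
  have hz : C₀ * l ≤ z := (Nat.le_ceil _).trans (by exact_mod_cast le_max_right _ _)
  have hQ16 : 16 * Q ≤ z := le_max_left _ _
  have hzub : (z : ℝ) ≤ 16 * Q + C₀ * l + 1 := by
    have h1 : (⌈C₀ * l⌉₊ : ℝ) ≤ C₀ * l + 1 := (Nat.ceil_lt_add_one (by positivity)).le
    have h2 : (z : ℝ) = max ((16 * Q : ℕ) : ℝ) (⌈C₀ * l⌉₊ : ℝ) := by
      rw [hzdef]
      push_cast
      rfl
    have h3 : 0 ≤ (Q : ℝ) := Nat.cast_nonneg _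
    have h4 : 0 ≤ C₀ * l := by positivity
    rw [h2]
    apply max_le
    · push_cast
      linarith
    · linarith
  have hzzr : (z : ℝ) ≤ z₁ := by exact_mod_cast hzz
  have hz0 : (0 : ℝ) ≤ z := by positivity
  have hlog0 : 0 ≤ Real.log X := Real.log_natCast_nonneg X
  have hC₀0 : 0 ≤ C₀ := by linarith
  have hz₁0 : (0 : ℝ) ≤ z₁ := by positivity
  have hC₀l : 0 ≤ C₀ * l := by positivity
  have hzl0 : 0 ≤ (z₁ : ℝ) * l := by positivity
  have hS : X ≤ 4 * Y * Tt ∧ 4 * Y * Tt ≤ Uz z * X := ⟨hSys.1, hSys.2.trans (Nat.mul_le_mul_right _ (Uz_mono (by omega)))⟩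
  have c2 : C₀ * z * l ≤ Real.log X := by
    have h1 : C₀ * z * l ≤ C₀ * z₁ * l := by gcongr
    nlinarith
  have c3 : C₀ * l ≤ ω * Real.log X := by nlinarith
  have c4 : 7 * √(Real.log X) ≤ Real.log T := by
    refine le_trans ?_ hTL
    have := Real.sqrt_nonneg (Real.log X)
    linarith
  have hTz : 120 * B * z ≤ Real.log T := by
    refine le_trans ?_ hTz₁
    gcongr
  have hZF : ZF (PW z ^ B) ω T := ZF_mono (Nat.pow_le_pow_left (PW_mono hzz) B) hZF₁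
  have c5 : 64 * l ≤ z := by
    have : (64 : ℝ) * l ≤ C₀ * l := by gcongr
    linarith
  have c6 : (κ : ℝ) * z * l ≤ Real.log Y := by
    refine le_trans ?_ hYl
    have h1 : (z : ℝ) ≤ (17 + C₀) * (Q + l) := by
      have h3 : 0 ≤ (Q : ℝ) := Nat.cast_nonneg _
      have h4 : 0 ≤ C₀ * Q := by positivity
      nlinarith
    calc (κ : ℝ) * z * l ≤ κ * ((17 + C₀) * (Q + l)) * l := by gcongr
      _ = _ := by ring
  have c7 : 64 * z * l ≤ Real.log Y := by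
    have h1 : (64 : ℝ) * z * l ≤ κ * z * l := by gcongr
    linarith
  have hK64 : 64 * (K + 1) ≤ z := by omega
  have hKz : K ≤ z := by omega
  have hz₀z : z₀ ≤ z := by
    have : (z₀ : ℝ) ≤ z := by linarith
    exact_mod_cast this
  obtain ⟨h1, D, hD, hDc, h2⟩ := hin z X ω T (by linarith) hz c2 hω hω4 c3 hT hTz c4 hZF (4 * Y * Tt) hS.1 hS.2
  have hex := hexq z Y X K Tt D (by linarith) c5 c7 hYX hKz hS hD hDc
  have hgm1 := hgm z Y K Tt hz₀z hKz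
  have hsub : ((Icc 1 Tt).filter fun t => ¬ HLC Y (fun _ : Fin K => 4 * Y * Tt) (qt (G0 Y fun _ : Fin K => Tt) fun _ => t) ε) ⊆
      ((Icc 1 Tt).filter fun t => ¬ (((exq Y (qt (G0 Y fun _ : Fin K => Tt) fun _ => t) fun _ => D).card : ℝ) ≤ (Y : ℝ) ^ 2 / (PW z : ℝ) ^ (2 * (a₀ + 8)))) ∪
      ((Icc 1 Tt).filter fun t => ¬ GG z (qt (G0 Y fun _ : Fin K => Tt) fun _ => t) ≤ g) := by
    intro t htt
    rw [mem_filter] at htt
    by_contra hcon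
    rw [mem_union, mem_filter, mem_filter, not_or] at hcon
    have k1 : ((exq Y (qt (G0 Y fun _ : Fin K => Tt) fun _ => t) fun _ => D).card : ℝ) ≤ (Y : ℝ) ^ 2 / (PW z : ℝ) ^ (2 * (a₀ + 8)) := by
      by_contra h
      exact hcon.1 ⟨htt.1, h⟩
    have k2 : GG z (qt (G0 Y fun _ : Fin K => Tt) fun _ => t) ≤ g := by
      by_contra h
      exact hcon.2 ⟨htt.1, h⟩
    apply htt.2
    have hSt : SysL z Y X (fun _ : Fin K => 4 * Y * Tt) (qt (G0 Y fun _ : Fin K => Tt) fun _ => t) :=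
      sysL_qt (T := fun _ : Fin K => Tt) (t := fun _ => t) (by rw [Fintype.mem_piFinset]; exact fun _ => htt.1) fun _ => hS
    exact hlc_of hε (hh z Y X K (fun _ => 4 * Y * Tt) (qt (G0 Y fun _ => Tt) fun _ => t) (fun _ => D) (by linarith) c5 c6 hYX hK64 hSt (k2.trans hgg3) (fun i => ⟨h1, h2⟩) k1 _
      (hnear z Y X K (fun _ => 4 * Y * Tt) (qt (G0 Y fun _ => Tt) fun _ => t) (by linarith) c5 c7 hYX (by omega) hSt (k2.trans hgg2)))
      (hcv z Y X K (fun _ => 4 * Y * Tt) (qt (G0 Y fun _ => Tt) fun _ => t) (by linarith) c5 c7 hYX (by omega) hSt (k2.trans hgg4))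
  have h3 := (card_le_card hsub).trans (card_union_le _ _)
  have h4 : ((((Icc 1 Tt).filter fun t => ¬ HLC Y (fun _ : Fin K => 4 * Y * Tt) (qt (G0 Y fun _ : Fin K => Tt) fun _ => t) ε).card : ℕ) : ℝ) ≤
      ((((Icc 1 Tt).filter fun t => ¬ (((exq Y (qt (G0 Y fun _ : Fin K => Tt) fun _ => t) fun _ => D).card : ℝ) ≤ (Y : ℝ) ^ 2 / (PW z : ℝ) ^ (2 * (a₀ + 8)))).card : ℕ) : ℝ) +
      ((((Icc 1 Tt).filter fun t => ¬ GG z (qt (G0 Y fun _ : Fin K => Tt) fun _ => t) ≤ g).card : ℕ) : ℝ) := by exact_mod_cast h3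
  linarith

/-- all three parts with one constant `C` -/
theorem mainC : ∃ C₁ : ℝ, 0 < C₁ ∧
    (∀ A ε : ℝ, 0 < ε → ∀ᶠ X : ℕ in atTop, ∀ Q : ℕ, (Q : ℝ) ≤ A * Real.log (Real.log X) → PC C₁ X Q ε) ∧
    (∃ c : ℝ, 0 < c ∧ ∀ ε : ℝ, 0 < ε → ∃ᶠ X : ℕ in atTop, ∀ Q : ℕ, (Q : ℝ) ≤ c * (Real.log X / Real.log (Real.log X)) → PC C₁ X Q ε) ∧
    (∃ c C : ℝ, 0 < c ∧ 0 < C ∧ ∀ ε : ℝ, 0 < ε → ∀ᶠ X : ℕ in atTop,
      (∀ (r : ℕ) [NeZero r], 1 < r → (r : ℝ) ≤ Real.exp (Real.log X / Real.log (Real.log X)) → ∀ χ : DirichletCharacter ℂ r, χ.IsPrimitive → χ ^ 2 = 1 →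
        ∀ β : ℝ, χ.LFunction β = 0 → β ≤ 1 - C * (Real.log (Real.log X) / Real.log X)) →
      ∀ Q : ℕ, (Q : ℝ) ≤ c * (Real.log X / Real.log (Real.log X)) → PC C₁ X Q ε) := by
  obtain ⟨C₁, hC₁, h⟩ := sufC
  exact ⟨C₁, hC₁, fun A ε hε => case1 zr' Pool.Agent.Q111.SZ.t_PWB Pool.Agent.Q177.SZ.t_SIEG h A ε hε,
    case2 Pool.Agent.Q111.SZ.t_PWB h good', dich zr' Pool.Agent.Q111.SZ.t_PWB h⟩

end Pool.Agent.Q145.LT
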