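import Pool.Agent.Q145.LT.Av
import Pool.Agent.Q145.LE.All

/-!
# Project LT: assembly (adapted from `Pool/Agent/Q145/LQ/AllF.lean`)
-/

set_option autoImplicit false
set_option linter.all false

namespace Pool.Agent.Q145.LT

open Finset Filter
open Pool.Agent.Q145.SZ Pool.Agent.Q145.LQ Pool.Agent.Q145.LE
open Pool.Agent.Q145.LS (SUFP SUFc case1 case2 dich)

open Classical in
/-- the result -/
def PL (C : ℝ) (X Q : ℕ) (ε : ℝ) : Prop := ∀ (Y K : ℕ) (T : Fin K → ℕ),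
  C * ((Q + Real.log (Real.log X)) * Real.log (Real.log X)) ≤ Real.log Y → Y ≤ X → 4 * (K + 1) ≤ Q →
  (∀ i, X ≤ 4 * Y * T i ∧ 4 * Y * T i ≤ Uz Q * X) →
  ((((Fintype.piFinset fun i => Icc 1 (T i)).filter fun t => ¬ HLC Y (fun i => 4 * Y * T i) (qt (G0 Y T) t) ε).card : ℕ) : ℝ) ≤ ε * ∏ i, (T i : ℝ)

open Classical in
theorem sufL : ∃ C : ℝ, 0 < C ∧ SUFP (PL C) := by
  obtain ⟨a₀, κ, hκ, vb⟩ := vbl
  obtain ⟨B, C₀, hB, hC₀, hin⟩ := inputsE anE Pool.Agent.Q53.LQ.H2U.main (2 * (a₀ + 11)) (4 * a₀ + 40) (by omega)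
  have hκr : (64 : ℝ) ≤ κ := by exact_mod_cast hκ
  refine ⟨κ * (17 + C₀), by positivity, B, C₀ + 1, hB, by linarith, fun ε hε => ?_⟩
  obtain ⟨M₁, hM₁, hexq⟩ := exq_l t_PRT t_TAU a₀ (ε / 2) (by positivity)
  obtain ⟨M₂, g₂, hM₂, hg₂, hnear⟩ := near_linL (min (ε / 2) 1 / 16) (ε / 2 / 16) (by positivity) (by positivity)
  obtain ⟨M₃, g₃, hM₃, hg₃, hh⟩ := hls_boundL hκ vb t_MBQ Pool.Agent.Q111.SZ.t_PWB (ε / 2) (by positivity)
  obtain ⟨M₄, hM₄, hcv⟩ := conv_linL (ε / 2) (by positivity)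
  set g : ℝ := min (min g₂ g₃) (1 / 8) with hg
  have hg0 : 0 < g := by positivity
  have hgg2 : g ≤ g₂ := (min_le_left _ _).trans (min_le_left _ _)
  have hgg3 : g ≤ g₃ := (min_le_left _ _).trans (min_le_right _ _)
  have hgg4 : g ≤ 1 / 8 := min_le_right _ _
  obtain ⟨z₀, hgm⟩ := gg_most g (ε / 2) hg0 (by positivity)
  have hz₀0 : (0 : ℝ) ≤ z₀ := Nat.cast_nonneg _
  refine ⟨M₁ + M₂ + M₃ + M₄ + C₀ + z₀ + 1, by linarith, ?_⟩
  intro z₁ X ω T hl hz₁ hzL₁ hω hω4 hωL hT hTz₁ hTL hZF₁ Q hQ₁ Y K Tt hYl hYX hKQ hSys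
  set l := Real.log (Real.log X) with hldef
  have hl0 : 0 < l := by linarith
  have hl1 : 1 ≤ l := by linarith
  -- the smaller sieve level
  set z : ℕ := max (16 * Q) ⌈C₀ * l⌉₊ with hzdef
  have hzz : z ≤ z₁ := by
    apply max_le hQ₁
    apply Nat.ceil_le.2
    refine le_trans ?_ hz₁
    nlinarith
  have hz : C₀ * l ≤ z := (Nat.le_ceil _).trans (by exact_mod_cast le_max_right _ _)
  have hQ16 : 16 * Q ≤ z := le_max_left _ _
  have hzub : (z : ℝ) ≤ 16 * Q + C₀ * l + 1 := by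
    have h1 : (⌈C₀ * l⌉₊ : ℝ) ≤ C₀ * l + 1 := (Nat.ceil_lt_add_one (by positivity)).le
    have h2 : (z : ℝ) = max ((16 * Q : ℕ) : ℝ) (⌈C₀ * l⌉₊ : ℝ) := by
      rw [hzdef]
      push_cast
      rfl
    have h3 : 0 ≤ (Q : ℝ) := Nat.cast_nonneg _
    have h4 : 0 ≤ C₀ * l := by positivity
    rw [h2]
    apply max_le
    · push_cast
      linarith
    · linarith
  have hzzr : (z : ℝ) ≤ z₁ := by exact_mod_cast hzz
  have hz0 : (0 : ℝ) ≤ z := by positivity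
  have hlog0 : 0 ≤ Real.log X := Real.log_natCast_nonneg X
  have hC₀0 : 0 ≤ C₀ := by linarith
  have hz₁0 : (0 : ℝ) ≤ z₁ := by positivity
  have hC₀l : 0 ≤ C₀ * l := by positivity
  have hzl0 : 0 ≤ (z₁ : ℝ) * l := by positivity
  have hS : ∀ i, X ≤ 4 * Y * Tt i ∧ 4 * Y * Tt i ≤ Uz z * X := fun i => ⟨(hSys i).1, (hSys i).2.trans (Nat.mul_le_mul_right _ (Uz_mono (by omega)))⟩
  have c2 : C₀ * z * l ≤ Real.log X := by
    have h1 : C₀ * z * l ≤ C₀ * z₁ * l := by gcongr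
    nlinarith
  have c3 : C₀ * l ≤ ω * Real.log X := by nlinarith
  have c4 : 7 * √(Real.log X) ≤ Real.log T := by
    refine le_trans ?_ hTL
    have := Real.sqrt_nonneg (Real.log X)
    linarith
  have hTz : 120 * B * z ≤ Real.log T := by
    refine le_trans ?_ hTz₁
    gcongr
  have hZF : ZF (PW z ^ B) ω T := ZF_mono (Nat.pow_le_pow_left (PW_mono hzz) B) hZF₁
  have c5 : 64 * l ≤ z := by
    have : (64 : ℝ) * l ≤ C₀ * l := by gcongr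
    linarith
  have c6 : (κ : ℝ) * z * l ≤ Real.log Y := by
    refine le_trans ?_ hYl
    have h1 : (z : ℝ) ≤ (17 + C₀) * (Q + l) := by
      have h3 : 0 ≤ (Q : ℝ) := Nat.cast_nonneg _
      have h4 : 0 ≤ C₀ * Q := by positivity
      nlinarith
    calc (κ : ℝ) * z * l ≤ κ * ((17 + C₀) * (Q + l)) * l := by gcongr
      _ = _ := by ring
  have c7 : 64 * z * l ≤ Real.log Y := by
    have h1 : (64 : ℝ) * z * l ≤ κ * z * l := by gcongr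
    linarith
  have hK64 : 64 * (K + 1) ≤ z := by omega
  have hKz : K ≤ z := by omega
  have hz₀z : z₀ ≤ z := by
    have : (z₀ : ℝ) ≤ z := by linarith
    exact_mod_cast this
  have hIN : ∀ i, INQ (2 * (a₀ + 11)) (4 * a₀ + 40) z (4 * Y * Tt i) := fun i =>
    hin z X ω T (by linarith) hz c2 hω hω4 c3 hT hTz c4 hZF (4 * Y * Tt i) (hS i).1 (hS i).2
  choose h1 D hD hDc h2 using hIN
  have hex := hexq z Y X K Tt D (by linarith) c5 c7 hYX hKz hS (fun i => ⟨hD i, hDc i⟩)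
  have hgm1 := hgm z Y K Tt hz₀z hKz
  have hsub : ((Fintype.piFinset fun i => Icc 1 (Tt i)).filter fun t => ¬ HLC Y (fun i => 4 * Y * Tt i) (qt (G0 Y Tt) t) ε) ⊆
      ((Fintype.piFinset fun i => Icc 1 (Tt i)).filter fun t => ¬ (((exq Y (qt (G0 Y Tt) t) D).card : ℝ) ≤ (Y : ℝ) ^ 2 / (PW z : ℝ) ^ (2 * (a₀ + 8)))) ∪
      ((Fintype.piFinset fun i => Icc 1 (Tt i)).filter fun t => ¬ GG z (qt (G0 Y Tt) t) ≤ g) := by
    intro t htt
    rw [mem_filter] at htt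
    by_contra hcon
    rw [mem_union, mem_filter, mem_filter, not_or] at hcon
    have k1 : ((exq Y (qt (G0 Y Tt) t) D).card : ℝ) ≤ (Y : ℝ) ^ 2 / (PW z : ℝ) ^ (2 * (a₀ + 8)) := by
      by_contra h
      exact hcon.1 ⟨htt.1, h⟩
    have k2 : GG z (qt (G0 Y Tt) t) ≤ g := by
      by_contra h
      exact hcon.2 ⟨htt.1, h⟩
    apply htt.2
    have hSt : SysL z Y X (fun i => 4 * Y * Tt i) (qt (G0 Y Tt) t) := sysL_qt htt.1 hS
    exact hlc_of hε (hh z Y X K (fun i => 4 * Y * Tt i) (qt (G0 Y Tt) t) D (by linarith) c5 c6 hYX hK64 hSt (k2.trans hgg3) (fun i => ⟨h1 i, h2 i⟩) k1 _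
      (hnear z Y X K (fun i => 4 * Y * Tt i) (qt (G0 Y Tt) t) (by linarith) c5 c7 hYX (by omega) hSt (k2.trans hgg2)))
      (hcv z Y X K (fun i => 4 * Y * Tt i) (qt (G0 Y Tt) t) (by linarith) c5 c7 hYX (by omega) hSt (k2.trans hgg4))
  have h3 := (card_le_card hsub).trans (card_union_le _ _)
  have h4 : ((((Fintype.piFinset fun i => Icc 1 (Tt i)).filter fun t => ¬ HLC Y (fun i => 4 * Y * Tt i) (qt (G0 Y Tt) t) ε).card : ℕ) : ℝ) ≤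
      ((((Fintype.piFinset fun i => Icc 1 (Tt i)).filter fun t => ¬ (((exq Y (qt (G0 Y Tt) t) D).card : ℝ) ≤ (Y : ℝ) ^ 2 / (PW z : ℝ) ^ (2 * (a₀ + 8)))).card : ℕ) : ℝ) +
      ((((Fintype.piFinset fun i => Icc 1 (Tt i)).filter fun t => ¬ GG z (qt (G0 Y Tt) t) ≤ g).card : ℕ) : ℝ) := by exact_mod_cast h3
  linarith

/-- all three parts with one constant `C` -/
theorem mainL : ∃ C₁ : ℝ, 0 < C₁ ∧
    (∀ A ε : ℝ, 0 < ε → ∀ᶠ X : ℕ in atTop, ∀ Q : ℕ, (Q : ℝ) ≤ A * Real.log (Real.log X) → PL C₁ X Q ε) ∧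
    (∃ c : ℝ, 0 < c ∧ ∀ ε : ℝ, 0 < ε → ∃ᶠ X : ℕ in atTop, ∀ Q : ℕ, (Q : ℝ) ≤ c * (Real.log X / Real.log (Real.log X)) → PL C₁ X Q ε) ∧
    (∃ c C : ℝ, 0 < c ∧ 0 < C ∧ ∀ ε : ℝ, 0 < ε → ∀ᶠ X : ℕ in atTop,
      (∀ (r : ℕ) [NeZero r], 1 < r → (r : ℝ) ≤ Real.exp (Real.log X / Real.log (Real.log X)) → ∀ χ : DirichletCharacter ℂ r, χ.IsPrimitive → χ ^ 2 = 1 →
        ∀ β : ℝ, χ.LFunction β = 0 → β ≤ 1 - C * (Real.log (Real.log X) / Real.log X)) →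
      ∀ Q : ℕ, (Q : ℝ) ≤ c * (Real.log X / Real.log (Real.log X)) → PL C₁ X Q ε) := by
  obtain ⟨C₁, hC₁, h⟩ := sufL
  exact ⟨C₁, hC₁, fun A ε hε => case1 zr' Pool.Agent.Q111.SZ.t_PWB Pool.Agent.Q177.SZ.t_SIEG h A ε hε,
    case2 Pool.Agent.Q111.SZ.t_PWB h good', dich zr' Pool.Agent.Q111.SZ.t_PWB h⟩

end Pool.Agent.Q145.LT
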