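import Pool.Agent.Q145.LE.Ta
import Pool.Agent.Q145.LE.Far
import Pool.Agent.Q53.LQ.HSQ

/-!
# Project LT (helper145): systems of linear forms whose slopes may have large prime factors. Part 1: the systems, elementary transfers

The systems `SysL` are the systems `SysE` of project LE of degree `1`, without the condition on the leading coefficients; its place is taken by the condition that
`GG z q`, the sum of `1/p` over the primes `p > z` dividing the leading coefficients (with multiplicity), is small.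
-/

set_option autoImplicit false
set_option linter.unusedSectionVars false

namespace Pool.Agent.Q145.LT

open Finset Filter
open Pool.Agent.Q145.SZ Pool.Agent.Q145.LQ Pool.Agent.Q145.LE

/-- the systems: degree `1`, scales `X ≤ H_i ≤ 2 ^ (16 z) X`, values in `(5 H_i / 4, 2 H_i]` -/
structure SysL (z Y X : ℕ) {K : ℕ} (H : Fin K → ℕ) (q : Fin K → Polynomial ℤ) : Prop where
  deg : ∀ i, (q i).natDegree = 1
  scale : ∀ i, X ≤ H i ∧ H i ≤ Uz z * X
  val : ∀ i, ∀ n ∈ Ioc Y (2 * Y), 5 * (H i : ℤ) < 4 * (q i).eval (n : ℤ) ∧ (q i).eval (n : ℤ) ≤ 2 * H i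

lemma SysL.mono {z z' Y X K : ℕ} {H : Fin K → ℕ} {q : Fin K → Polynomial ℤ} (h : SysL z Y X H q) (hz : z ≤ z') : SysL z' Y X H q where
  deg := h.deg
  scale := fun i => ⟨(h.scale i).1, (h.scale i).2.trans (Nat.mul_le_mul_right _ (Uz_mono hz))⟩
  val := h.val

lemma SysL.deg' {z Y X K : ℕ} {H : Fin K → ℕ} {q : Fin K → Polynomial ℤ} (h : SysL z Y X H q) (i : Fin K) : 1 ≤ (q i).natDegree ∧ (q i).natDegree ≤ 1 := by
  rw [h.deg i]; exact ⟨le_rfl, le_rfl⟩

lemma SysL.nonneg {z Y X K : ℕ} {H : Fin K → ℕ} {q : Fin K → Polynomial ℤ} (h : SysL z Y X H q) (i : Fin K) {n : ℕ} (hn : n ∈ Ioc Y (2 * Y)) :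
    0 ≤ (q i).eval (n : ℤ) := by
  have := (h.val i n hn).1
  have h2 : (0 : ℤ) ≤ H i := by positivity
  linarith

lemma SysL.mem {z Y X K : ℕ} {H : Fin K → ℕ} {q : Fin K → Polynomial ℤ} (h : SysL z Y X H q) (i : Fin K) {n : ℕ} (hn : n ∈ Ioc Y (2 * Y)) :
    vq (q i) n ∈ Ioc (H i) (2 * H i) ∧ 5 * H i < 4 * vq (q i) n := by
  have h1 := h.val i n hn
  have h0 := h.nonneg i hn
  have e : ((vq (q i) n : ℕ) : ℤ) = (q i).eval (n : ℤ) := Int.toNat_of_nonneg h0
  rw [← e] at h1
  rw [mem_Ioc]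
  omega

/-- the leading coefficient -/
def la (q : Polynomial ℤ) : ℕ := q.leadingCoeff.natAbs

/-- the sum of `1/p` over the primes `p > z` dividing the leading coefficients -/
noncomputable def GG {K : ℕ} (z : ℕ) (q : Fin K → Polynomial ℤ) : ℝ := ∑ i, ∑ p ∈ (la (q i)).primeFactors.filter (fun p => z < p), 1 / (p : ℝ)

lemma GG_nonneg {K : ℕ} (z : ℕ) (q : Fin K → Polynomial ℤ) : 0 ≤ GG z q := sum_nonneg fun i _ => sum_nonneg fun p _ => by positivity

lemma la_pos {q : Polynomial ℤ} (h : q.natDegree = 1) : 0 < la q := by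
  unfold la
  rw [Int.natAbs_pos, Ne, Polynomial.leadingCoeff_eq_zero]
  rintro rfl
  simp at h

/-- the weighted count and the count -/
theorem wcbL {z Y X K : ℕ} {H : Fin K → ℕ} {q : Fin K → Polynomial ℤ} {s : Fin K → ℕ} (hX : 3 ≤ X) (hS : SysL z Y X H q) (hs : ∀ i, s i ∈ Icc 1 (H i)) :
    (cntQ Y q s : ℝ) * ∏ i, Real.log (H i) ≤ wcQ Y q s ∧ wcQ Y q s ≤ cntQ Y q s * ∏ i, Real.log (3 * H i) := by
  classical
  have hH3 : ∀ i, 3 ≤ H i := fun i => hX.trans (hS.scale i).1
  have hH : ∀ i, (3 : ℝ) ≤ (H i : ℝ) := fun i => by exact_mod_cast hH3 i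
  have hv : ∀ n ∈ Ioc Y (2 * Y), ∀ i, H i ≤ vq (q i) n + s i ∧ vq (q i) n + s i ≤ 3 * H i := by
    intro n hn i
    have h1 := hS.val i n hn
    have h2 := mem_Icc.1 (hs i)
    have h3 := hH3 i
    unfold vq
    have h4 : 0 ≤ (q i).eval (n : ℤ) := by omega
    have h5 : (((q i).eval (n : ℤ)).toNat : ℤ) = (q i).eval (n : ℤ) := Int.toNat_of_nonneg h4
    omega
  have key : ∀ n ∈ Ioc Y (2 * Y),
      (if ∀ i, (vq (q i) n + s i).Prime then ∏ i, Real.log (H i) else 0) ≤
        ∏ i, wt (vq (q i) n + s i) ∧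
      ∏ i, wt (vq (q i) n + s i) ≤
        (if ∀ i, (vq (q i) n + s i).Prime then ∏ i, Real.log (3 * H i) else 0) := by
    intro n hn
    have hb := hv n hn
    split_ifs with h
    · have hc : ∏ i, wt (vq (q i) n + s i) = ∏ i, Real.log ((vq (q i) n + s i : ℕ) : ℝ) :=
        prod_congr rfl fun i _ => by
          unfold wt
          rw [if_pos (h i)]
      rw [hc]
      have hv1 : ∀ i, (H i : ℝ) ≤ ((vq (q i) n + s i : ℕ) : ℝ) := fun i => by
        exact_mod_cast (hb i).1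
      have hv2 : ∀ i, ((vq (q i) n + s i : ℕ) : ℝ) ≤ 3 * (H i : ℝ) := fun i => by
        exact_mod_cast (hb i).2
      constructor
      · exact prod_le_prod (fun i _ => Real.log_nonneg (by linarith [hH i])) fun i _ =>
          Real.log_le_log (by linarith [hH i]) (hv1 i)
      · exact prod_le_prod (fun i _ => Real.log_natCast_nonneg _) fun i _ =>
          Real.log_le_log (by linarith [hH i, hv1 i]) (hv2 i)
    · push Not at h
      obtain ⟨i, hi⟩ := h
      have : ∏ i, wt (vq (q i) n + s i) = 0 :=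
        prod_eq_zero (mem_univ i) (by unfold wt; rw [if_neg hi])
      rw [this]
      exact ⟨le_rfl, le_rfl⟩
  have e : ∀ x : ℝ, (cntQ Y q s : ℝ) * x = ∑ n ∈ Ioc Y (2 * Y),
      (if ∀ i, (vq (q i) n + s i).Prime then x else 0) := by
    intro x
    unfold cntQ
    rw [← sum_filter, sum_const, nsmul_eq_mul]
  rw [e, e]
  unfold wcQ
  exact ⟨sum_le_sum fun n hn => (key n hn).1, sum_le_sum fun n hn => (key n hn).2⟩

/-- the primes above `z` which make `s` not admissible -/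
def BadL {K : ℕ} (z : ℕ) (q : Fin K → Polynomial ℤ) (s : Fin K → ℕ) : Prop := ∃ i, ∃ p : ℕ, p.Prime ∧ z < p ∧ p ∣ la (q i) ∧ (p : ℤ) ∣ cf (q i) (s i)

/-- few zeros modulo a prime above `z` -/
theorem nuQ_le_K {K : ℕ} {q : Fin K → Polynomial ℤ} (hq : ∀ i, (q i).natDegree = 1) {s : Fin K → ℕ} {p : ℕ} (hp : p.Prime)
    (hs : ∀ i, p ∣ la (q i) → ¬ (p : ℤ) ∣ cf (q i) (s i)) : nuQ q s p ≤ K := by
  classical
  unfold nuQ
  have hsub : ((range p).filter fun n : ℕ => ∃ i, (p : ℤ) ∣ (q i).eval (n : ℤ) + s i) ⊆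
      (univ : Finset (Fin K)).biUnion fun i => (range p).filter fun n : ℕ => (p : ℤ) ∣ (q i).eval (n : ℤ) + s i := by
    intro n hn
    rw [mem_filter] at hn
    obtain ⟨h1, i, hi⟩ := hn
    rw [mem_biUnion]
    exact ⟨i, mem_univ i, mem_filter.2 ⟨h1, hi⟩⟩
  refine (card_le_card hsub).trans (card_biUnion_le.trans ?_)
  have h1 : ∀ i : Fin K, ((range p).filter fun n : ℕ => (p : ℤ) ∣ (q i).eval (n : ℤ) + s i).card ≤ 1 := by
    intro i
    rw [card_le_one]
    intro n hn m hm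
    rw [mem_filter, mem_range] at hn hm
    have e : ∀ k : ℤ, (q i).eval k + s i = (q i).coeff 1 * k + cf (q i) (s i) := by
      intro k
      rw [eval_lin (hq i)]
      unfold cf
      ring
    rw [e] at hn hm
    have hd := dvd_sub hn.2 hm.2
    have e2 : (q i).coeff 1 * (n : ℤ) + cf (q i) (s i) - ((q i).coeff 1 * (m : ℤ) + cf (q i) (s i)) = (q i).coeff 1 * ((n : ℤ) - m) := by ring
    rw [e2] at hd
    rcases (Nat.prime_iff_prime_int.1 hp).dvd_or_dvd hd with h | h
    · exfalso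
      have hla : p ∣ la (q i) := by
        unfold la
        rw [lc_lin (hq i), ← Int.natCast_dvd]
        exact h
      apply hs i hla
      have := hn.2
      exact (Int.dvd_add_right (h.mul_right _)).1 this
    · have h2 : ((n : ℤ) - m).natAbs < p := by omega
      have h3 := Int.natCast_dvd.1 h
      have h4 := Nat.eq_zero_of_dvd_of_lt h3 h2
      omega
  calc ∑ i : Fin K, ((range p).filter fun n : ℕ => (p : ℤ) ∣ (q i).eval (n : ℤ) + s i).card ≤ ∑ _i : Fin K, 1 := sum_le_sum fun i _ => h1 i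
    _ = K := by simp

/-- admissible constants have admissible classes -/
theorem adm_cls {K : ℕ} {z : ℕ} {q : Fin K → Polynomial ℤ} {s : Fin K → ℕ} (h : AdmQ q s) : (GQ q (fun i => (s i : ZMod (PW z)))).Nonempty := by
  classical
  rw [← Finset.card_pos, Pool.Agent.Q151.LQ.card_GQ, Pool.Agent.Q151.LQ.cG_PW]
  rw [Nat.pos_iff_ne_zero, Finset.prod_ne_zero_iff]
  intro p hp
  rw [mem_filter] at hp
  have := h p hp.2
  omega

/-- good constants with admissible classes are admissible -/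
theorem cls_adm {K : ℕ} {z : ℕ} {q : Fin K → Polynomial ℤ} (hq : ∀ i, (q i).natDegree = 1) {s : Fin K → ℕ} (hK : K ≤ z) (hb : ¬ BadL z q s)
    (h : (GQ q (fun i => (s i : ZMod (PW z)))).Nonempty) : AdmQ q s := by
  classical
  rw [← Finset.card_pos, Pool.Agent.Q151.LQ.card_GQ, Pool.Agent.Q151.LQ.cG_PW] at h
  rw [Nat.pos_iff_ne_zero, Finset.prod_ne_zero_iff] at h
  intro p hp
  by_cases hz : p ≤ z
  · have := h p (mem_filter.2 ⟨mem_Icc.2 ⟨hp.one_lt.le, hz⟩, hp⟩)
    omega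
  · have h1 : nuQ q s p ≤ K := nuQ_le_K hq hp fun i hi hc => hb ⟨i, p, hp, not_le.1 hz, hi, hc⟩
    omega

end Pool.Agent.Q145.LT
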