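import Pool.Agent.Q145.LT.Bad

/-!
# Project LT: the medium primes, with primes dividing the slopes (adapted from `Pool/Agent/Q151/LQ/LMQ.lean`, `VARQ.lean`, `Pool/Agent/Q145/LE/Ta.lean`)
-/

set_option autoImplicit false

namespace Pool.Agent.Q145.LT

open Finset Filter
open Pool.Agent.Q145.SZ Pool.Agent.Q145.LQ Pool.Agent.Q145.LE Pool.Agent.Q151.LQ

/-- the number of slopes divisible by `p` -/
def kap {K : ℕ} (q : Fin K → Polynomial ℤ) (p : ℕ) : ℕ := (univ.filter fun i => p ∣ la (q i)).card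

lemma la_dvd {q : Polynomial ℤ} {p : ℕ} : p ∣ la q ↔ (p : ℤ) ∣ q.leadingCoeff := by
  unfold la
  rw [Int.natCast_dvd]

/-- the moments of the local factor modulo a prime which may divide some slopes -/
theorem momL {p K : ℕ} (q : Fin K → Polynomial ℤ) (hp : p.Prime) (hK : K + 1 ≤ p) (hq : ∀ i, (q i).natDegree = 1) :
    ∑ s ∈ Fintype.piFinset (fun _ : Fin K => range p), (locQ q s p - 1) = 0 ∧
    ∑ s ∈ Fintype.piFinset (fun _ : Fin K => range p), (locQ q s p - 1) ^ 2 ≤ (4 * K / (p : ℝ) ^ 2 + 4 * kap q p / p) * (p : ℝ) ^ K := by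
  classical
  have : Fact p.Prime := ⟨hp⟩
  have hp2 : (2 : ℝ) ≤ p := by exact_mod_cast hp.two_le
  have hp0 : (0 : ℝ) < p := by linarith
  have hq0 : (0 : ℝ) < (p : ℝ) - 1 := by linarith
  have hr : (0 : ℝ) < 1 - 1 / (p : ℝ) := by
    rw [sub_pos, div_lt_one hp0]; linarith
  have hr1 : 1 - 1 / (p : ℝ) = ((p : ℝ) - 1) / p := by field_simp
  have hloc : ∀ s : Fin K → ℕ, locQ q s p =
      NQ (p := p) q (fun i => (s i : ZMod p)) * ((p : ℝ) * (1 - 1 / (p : ℝ)) ^ K)⁻¹ := by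
    intro s
    rw [← NQ_eq]
    unfold locQ
    have : (0 : ℝ) < (1 - 1 / (p : ℝ)) ^ K := by positivity
    field_simp
  have hcard : ((Fintype.piFinset (fun _ : Fin K => range p)).card : ℝ) = (p : ℝ) ^ K := by
    rw [Fintype.card_piFinset, prod_const, card_range, card_univ, Fintype.card_fin]
    push_cast
    rfl
  have hmean : ∑ s ∈ Fintype.piFinset (fun _ : Fin K => range p), locQ q s p = (p : ℝ) ^ K := by
    rw [sum_congr rfl fun s _ => hloc s, ← sum_mul, sum_range_zmod (p := p) K (fun S => NQ q S), first, hr1]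
    rw [div_pow]
    field_simp
  constructor
  · rw [sum_sub_distrib, hmean, sum_const, nsmul_eq_mul, mul_one, hcard, sub_self]
  · have h1 : ∑ s ∈ Fintype.piFinset (fun _ : Fin K => range p), (locQ q s p - 1) ^ 2 =
        (∑ s ∈ Fintype.piFinset (fun _ : Fin K => range p), locQ q s p ^ 2) - (p : ℝ) ^ K := by
      have : ∀ s ∈ Fintype.piFinset (fun _ : Fin K => range p),
          (locQ q s p - 1) ^ 2 = locQ q s p ^ 2 - 2 * locQ q s p + 1 := fun s _ => by ring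
      rw [sum_congr rfl this, sum_add_distrib, sum_sub_distrib, ← mul_sum, hmean, sum_const,
        nsmul_eq_mul, mul_one, hcard]
      ring
    -- the second moment
    have h2 : ∑ s ∈ Fintype.piFinset (fun _ : Fin K => range p), locQ q s p ^ 2 =
        (p : ℝ) ^ K * (((p : ℝ) ^ 2)⁻¹ * ∑ x : ZMod p, ∑ y : ZMod p,
          ∏ i, (((p : ℝ) - 2 + if ev (q i) x = ev (q i) y then 1 else 0) * (p / ((p : ℝ) - 1) ^ 2))) := by
      have e1 : ∀ s ∈ Fintype.piFinset (fun _ : Fin K => range p), locQ q s p ^ 2 =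
          NQ (p := p) q (fun i => (s i : ZMod p)) ^ 2 * (((p : ℝ) * (1 - 1 / (p : ℝ)) ^ K)⁻¹) ^ 2 := fun s _ => by
        rw [hloc s, mul_pow]
      have e2 : ∀ x y : ZMod p, ∏ i, (((p : ℝ) - 2 + if ev (q i) x = ev (q i) y then 1 else 0) * (p / ((p : ℝ) - 1) ^ 2)) =
          (∏ i, ((p : ℝ) - 2 + if ev (q i) x = ev (q i) y then 1 else 0)) * (p / ((p : ℝ) - 1) ^ 2) ^ K := by
        intro x y
        rw [prod_mul_distrib, prod_const, card_univ, Fintype.card_fin]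
      rw [sum_congr rfl e1, ← sum_mul, sum_range_zmod (p := p) K (fun S => NQ q S ^ 2), second,
        sum_congr rfl fun x _ => sum_congr rfl fun y _ => e2 x y]
      simp_rw [← sum_mul]
      rw [hr1, div_pow, div_pow]
      have e3 : (((p : ℝ) - 1) ^ 2) ^ K = ((p : ℝ) - 1) ^ K * ((p : ℝ) - 1) ^ K := by
        rw [← pow_mul, mul_comm, pow_mul, sq]
      rw [e3]
      field_simp
    have hKp' : (K : ℝ) ≤ (p : ℝ) - 1 := by
      have h3 : ((K + 1 : ℕ) : ℝ) ≤ (p : ℝ) := by exact_mod_cast hK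
      push_cast at h3
      linarith
    have hfac : ∀ x y : ZMod p, ∏ i, (((p : ℝ) - 2 + if ev (q i) x = ev (q i) y then 1 else 0) * (p / ((p : ℝ) - 1) ^ 2)) ≤
        1 + 4 / p * ∑ i, (if ev (q i) x = ev (q i) y then (1 : ℝ) else 0) := by
      intro x y
      obtain ⟨κ, hκ⟩ : ∃ κ : ℝ, κ = ∑ i, (if ev (q i) x = ev (q i) y then (1 : ℝ) else 0) := ⟨_, rfl⟩
      have hκ0 : 0 ≤ κ := by
        rw [hκ]
        exact sum_nonneg fun i _ => by split_ifs <;> norm_num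
      have hκK : κ ≤ K := by
        rw [hκ]
        refine (sum_le_card_nsmul _ _ 1 fun i _ => ?_).trans ?_
        · split_ifs <;> norm_num
        · simp
      have e1 : ∀ i ∈ (univ : Finset (Fin K)),
          ((p : ℝ) - 2 + if ev (q i) x = ev (q i) y then 1 else 0) * (p / ((p : ℝ) - 1) ^ 2) ≤
          Real.exp ((if ev (q i) x = ev (q i) y then (1 : ℝ) else 0) * (1 / ((p : ℝ) - 1))) := by
        intro i _
        refine le_trans ?_ (Real.add_one_le_exp _)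
        split_ifs
        · rw [mul_div_assoc', div_le_iff₀ (by positivity)]
          have : (1 * (1 / ((p : ℝ) - 1)) + 1) * ((p : ℝ) - 1) ^ 2 = ((p : ℝ) - 1) + ((p : ℝ) - 1) ^ 2 := by
            field_simp
          rw [this]
          apply le_of_eq
          ring
        · rw [mul_div_assoc', div_le_iff₀ (by positivity)]
          nlinarith
      have e2 : ∀ i ∈ (univ : Finset (Fin K)), 0 ≤
          ((p : ℝ) - 2 + if ev (q i) x = ev (q i) y then 1 else 0) * (p / ((p : ℝ) - 1) ^ 2) := by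
        intro i _
        refine mul_nonneg ?_ (by positivity)
        split_ifs <;> linarith
      have e3 := prod_le_prod e2 e1
      refine e3.trans ?_
      rw [← Real.exp_sum, ← sum_mul, ← hκ]
      have e4 : κ * (1 / ((p : ℝ) - 1)) ≤ 1 := by
        rw [mul_one_div, div_le_one hq0]
        linarith
      refine (exp_le' (by positivity) e4).trans ?_
      have e5 : 2 * (κ * (1 / ((p : ℝ) - 1))) ≤ 4 / p * κ := by
        have e6 : 2 * (1 / ((p : ℝ) - 1)) ≤ 4 / p := by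
          rw [mul_one_div, div_le_div_iff₀ hq0 hp0]
          linarith
        nlinarith [mul_le_mul_of_nonneg_right e6 hκ0]
      linarith
    have hκsum : ∑ x : ZMod p, ∑ y : ZMod p, ∑ i, (if ev (q i) x = ev (q i) y then (1 : ℝ) else 0) ≤ K * p + kap q p * (p : ℝ) ^ 2 := by
      have e1 : ∀ x : ZMod p, ∑ y : ZMod p, ∑ i, (if ev (q i) x = ev (q i) y then (1 : ℝ) else 0) ≤ K + kap q p * p := by
        intro x
        rw [sum_comm]
        have e2 : ∀ i ∈ (univ : Finset (Fin K)), ∑ y : ZMod p, (if ev (q i) x = ev (q i) y then (1 : ℝ) else 0) ≤ 1 + (if p ∣ la (q i) then (p : ℝ) else 0) := by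
          intro i _
          have e3 : ∑ y : ZMod p, (if ev (q i) x = ev (q i) y then (1 : ℝ) else 0) =
              ((univ.filter fun y : ZMod p => ev (q i) y = ev (q i) x).card : ℝ) := by
            rw [sum_boole]
            congr 2
            ext y
            simp only [mem_filter, mem_univ, true_and]
            exact eq_comm
          rw [e3]
          split_ifs with hd
          · have e4 : (univ.filter fun y : ZMod p => ev (q i) y = ev (q i) x).card ≤ p := by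
              refine (card_filter_le _ _).trans ?_
              rw [card_univ, ZMod.card]
            have e5 : ((univ.filter fun y : ZMod p => ev (q i) y = ev (q i) x).card : ℝ) ≤ p := by exact_mod_cast e4
            linarith
          · have e4 := roots_le (d := 1) (q i) (hq i).ge (hq i).le (fun h => hd (la_dvd.2 h)) (ev (q i) x)
            have e5 : ((univ.filter fun y : ZMod p => ev (q i) y = ev (q i) x).card : ℝ) ≤ 1 := by exact_mod_cast e4
            linarith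
        refine (sum_le_sum e2).trans (le_of_eq ?_)
        rw [sum_add_distrib, sum_const, card_univ, Fintype.card_fin, nsmul_eq_mul, mul_one, ← sum_filter, sum_const, nsmul_eq_mul]
        rfl
      refine (sum_le_card_nsmul _ _ _ fun x _ => e1 x).trans (le_of_eq ?_)
      rw [card_univ, ZMod.card, nsmul_eq_mul]
      ring
    have hmain : ((p : ℝ) ^ 2)⁻¹ * ∑ x : ZMod p, ∑ y : ZMod p,
          ∏ i, (((p : ℝ) - 2 + if ev (q i) x = ev (q i) y then 1 else 0) * (p / ((p : ℝ) - 1) ^ 2)) ≤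
        1 + (4 * K / (p : ℝ) ^ 2 + 4 * kap q p / p) := by
      have e1 : ∑ x : ZMod p, ∑ y : ZMod p,
          ∏ i, (((p : ℝ) - 2 + if ev (q i) x = ev (q i) y then 1 else 0) * (p / ((p : ℝ) - 1) ^ 2)) ≤
          ∑ x : ZMod p, ∑ y : ZMod p, (1 + 4 / p * ∑ i, (if ev (q i) x = ev (q i) y then (1 : ℝ) else 0)) :=
        sum_le_sum fun x _ => sum_le_sum fun y _ => hfac x y
      have e2 : ∑ x : ZMod p, ∑ y : ZMod p, (1 + 4 / p * ∑ i, (if ev (q i) x = ev (q i) y then (1 : ℝ) else 0)) =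
          (p : ℝ) ^ 2 + 4 / p * ∑ x : ZMod p, ∑ y : ZMod p, ∑ i, (if ev (q i) x = ev (q i) y then (1 : ℝ) else 0) := by
        simp_rw [sum_add_distrib, ← mul_sum, sum_const, card_univ, ZMod.card, nsmul_eq_mul]
        ring
      have e3 : 4 / (p : ℝ) * ∑ x : ZMod p, ∑ y : ZMod p, ∑ i, (if ev (q i) x = ev (q i) y then (1 : ℝ) else 0) ≤
          4 / p * (K * p + kap q p * (p : ℝ) ^ 2) := mul_le_mul_of_nonneg_left hκsum (by positivity)
      have e4 : 4 / (p : ℝ) * (K * p + kap q p * (p : ℝ) ^ 2) = 4 * K + 4 * kap q p * p := by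
        field_simp
      rw [inv_mul_le_iff₀ (by positivity)]
      have e5 : (p : ℝ) ^ 2 * (1 + (4 * K / (p : ℝ) ^ 2 + 4 * kap q p / p)) = (p : ℝ) ^ 2 + (4 * K + 4 * kap q p * p) := by
        field_simp
      rw [e5]
      linarith
    rw [h1, h2]
    have hpK : (0 : ℝ) < (p : ℝ) ^ K := by positivity
    have := mul_le_mul_of_nonneg_left hmain hpK.le
    linarith

theorem abs_locL {K : ℕ} (q : Fin K → Polynomial ℤ) (s : Fin K → ℕ) {p : ℕ} (hp : p.Prime) (hK : 8 * (K + 1) ≤ p) :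
    |locQ q s p - 1| ≤ 1 := by
  have hp0 : (0 : ℝ) < p := by exact_mod_cast hp.pos
  have hp2 : (2 : ℝ) ≤ p := by exact_mod_cast hp.two_le
  have hKr : 8 * ((K : ℝ) + 1) ≤ p := by exact_mod_cast hK
  have h2 : 1 / (p : ℝ) ≤ 1 / 2 := one_div_le_one_div_of_le two_pos hp2
  have h3 : (7 : ℝ) / 8 ≤ (1 - 1 / (p : ℝ)) ^ K := by
    have h4 := one_add_mul_le_pow (a := -(1 / (p : ℝ))) (by linarith) K
    have h5 : (K : ℝ) * (1 / p) ≤ 1 / 8 := by
      rw [mul_one_div, div_le_div_iff₀ hp0 (by norm_num)]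
      linarith
    have h6 : 1 + (K : ℝ) * (-(1 / (p : ℝ))) = 1 - K * (1 / p) := by ring
    rw [h6] at h4
    have h7 : (1 + -(1 / (p : ℝ))) ^ K = (1 - 1 / (p : ℝ)) ^ K := by ring
    rw [h7] at h4
    linarith
  have h4 : 0 < (1 - 1 / (p : ℝ)) ^ K := by linarith
  have h0 := locQ_nonneg q s hp
  rw [abs_le]
  refine ⟨by linarith, ?_⟩
  have h8 : locQ q s p ≤ 8 / 7 := by
    unfold locQ
    rw [div_le_iff₀ h4]
    have : 0 ≤ (nuQ q s p : ℝ) / p := by positivity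
    linarith
  linarith

variable {W : ℕ} [NeZero W]

theorem diagL {K X p : ℕ} (H : Fin K → ℕ) (q : Fin K → Polynomial ℤ) (hH : ∀ i, X ≤ H i) (hp : p.Prime)
    (hq : ∀ i, (q i).natDegree = 1) (hK : 8 * (K + 1) ≤ p) (hW : W.Coprime p)
    (hT : 4 * (K + 1) * (p : ℝ) ≤ (X : ℝ) / W) (b : Fin K → ZMod W) :
    ∑ s ∈ SbQ H b, (locQ q s p - 1) ^ 2 ≤
      (4 * K / (p : ℝ) ^ 2 + 4 * kap q p / p + 8 * K * p / ((X : ℝ) / W)) * (SbQ H b).card := by
  have hp0 : (0 : ℝ) < p := by exact_mod_cast hp.pos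
  have h1 := Pool.Agent.Q145.LS.VarS.den (fun i => cls (H i) (b i)) (fun s => s % p) (range p) ((X : ℝ) / W)
    (fun i => (H i : ℝ) / W) (len_le X H hH)
    ⟨0, mem_range.2 hp.pos⟩ (by rw [card_range]; exact hT)
    (fun i s _ => mem_range.2 (Nat.mod_lt _ hp.pos)) (fun i x hx => by
      rw [card_range]
      have h2 := Pool.Agent.Q261.SZ.cnt_cls (H i) p x hp.pos hW (b i)
      have h3 : (cls (H i) (b i)).filter (fun s => s % p = x) =
          (cls (H i) (b i)).filter fun s => s ≡ x [MOD p] := by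
        refine filter_congr fun s _ => ?_
        rw [Nat.ModEq, Nat.mod_eq_of_lt (mem_range.1 hx)]
      rw [h3]
      exact h2) (fun x => (locQ q x p - 1) ^ 2) (fun x _ => by
      rw [abs_of_nonneg (sq_nonneg _)]
      have := abs_locL q x hp hK
      nlinarith [sq_abs (locQ q x p - 1), abs_nonneg (locQ q x p - 1)])
  rw [card_range] at h1
  simp only [locQ_mod] at h1
  have h2 := (momL q hp (by omega) hq).2
  have h3 := (abs_le.1 h1).2
  change ∑ s ∈ SbQ H b, (locQ q s p - 1) ^ 2 - ((SbQ H b).card : ℝ) / (p : ℝ) ^ K *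
    ∑ x ∈ Fintype.piFinset (fun _ : Fin K => range p), (locQ q x p - 1) ^ 2 ≤
      8 * K * p / ((X : ℝ) / W) * (SbQ H b).card at h3
  have h4 : ((SbQ H b).card : ℝ) / (p : ℝ) ^ K *
    ∑ x ∈ Fintype.piFinset (fun _ : Fin K => range p), (locQ q x p - 1) ^ 2 ≤
      ((SbQ H b).card : ℝ) / (p : ℝ) ^ K * ((4 * K / (p : ℝ) ^ 2 + 4 * kap q p / p) * (p : ℝ) ^ K) := by
    gcongr
  have h5 : ((SbQ H b).card : ℝ) / (p : ℝ) ^ K *
      ((4 * K / (p : ℝ) ^ 2 + 4 * kap q p / p) * (p : ℝ) ^ K) =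
      (4 * K / (p : ℝ) ^ 2 + 4 * kap q p / p) * (SbQ H b).card := by
    have : (p : ℝ) ^ K ≠ 0 := by positivity
    field_simp
  rw [h5] at h4
  linarith

theorem offdiagL {K X p p' : ℕ} (H : Fin K → ℕ) (q : Fin K → Polynomial ℤ) (hH : ∀ i, X ≤ H i)
    (hq : ∀ i, (q i).natDegree = 1) (hp : p.Prime)
    (hK : 8 * (K + 1) ≤ p) (hW : W.Coprime p)
    (hp' : p'.Prime)
    (hK' : 8 * (K + 1) ≤ p')
    (hW' : W.Coprime p') (hne : p ≠ p')
    (hT : 4 * (K + 1) * ((p : ℝ) * p') ≤ (X : ℝ) / W) (b : Fin K → ZMod W) :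
    ∑ s ∈ SbQ H b, (locQ q s p - 1) * (locQ q s p' - 1) ≤
      8 * K * ((p : ℝ) * p') / ((X : ℝ) / W) * (SbQ H b).card := by
  have hco : p.Coprime p' := (Nat.coprime_primes hp hp').2 hne
  have hcard : ((range p ×ˢ range p').card : ℝ) = (p : ℝ) * p' := by
    rw [card_product, card_range, card_range]
    push_cast
    rfl
  have h1 := Pool.Agent.Q145.LS.VarS.den (fun i => cls (H i) (b i)) (fun s => (s % p, s % p')) (range p ×ˢ range p')
    ((X : ℝ) / W) (fun i => (H i : ℝ) / W) (len_le X H hH)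
    ⟨(0, 0), mem_product.2 ⟨mem_range.2 hp.pos, mem_range.2 hp'.pos⟩⟩ (by rw [hcard]; exact hT)
    (fun i s _ => mem_product.2 ⟨mem_range.2 (Nat.mod_lt _ hp.pos),
      mem_range.2 (Nat.mod_lt _ hp'.pos)⟩) (fun i x hx => by
      rw [hcard]
      rw [mem_product, mem_range, mem_range] at hx
      obtain ⟨c, hc1, hc2⟩ := Nat.chineseRemainder hco x.1 x.2
      have h2 := Pool.Agent.Q261.SZ.cnt_cls (H i) (p * p') c (Nat.mul_pos hp.pos hp'.pos) (hW.mul_right hW') (b i)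
      have h3 : (cls (H i) (b i)).filter (fun s => (s % p, s % p') = x) =
          (cls (H i) (b i)).filter fun s => s ≡ c [MOD (p * p')] := by
        refine filter_congr fun s _ => ?_
        rw [← Nat.modEq_and_modEq_iff_modEq_mul hco, Prod.ext_iff]
        have e1 : s % p = x.1 ↔ s ≡ c [MOD p] := by
          have : c % p = x.1 := by
            rw [hc1, Nat.mod_eq_of_lt hx.1]
          rw [Nat.ModEq, this]
        have e2 : s % p' = x.2 ↔ s ≡ c [MOD p'] := by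
          have : c % p' = x.2 := by
            rw [hc2, Nat.mod_eq_of_lt hx.2]
          rw [Nat.ModEq, this]
        exact and_congr e1 e2
      rw [h3]
      rw [Nat.cast_mul p p'] at h2
      exact h2)
      (fun x => (locQ q (fun i => (x i).1) p - 1) * (locQ q (fun i => (x i).2) p' - 1))
      (fun x _ => by
        rw [abs_mul]
        exact mul_le_one₀ (abs_locL q _ hp hK) (abs_nonneg _) (abs_locL q _ hp' hK'))
  rw [hcard] at h1
  have h2 : ∑ x ∈ Fintype.piFinset (fun _ : Fin K => range p ×ˢ range p'),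
      (locQ q (fun i => (x i).1) p - 1) * (locQ q (fun i => (x i).2) p' - 1) = 0 := by
    rw [Pool.Agent.Q261.SZ.piProd (range p) (range p') (fun x => locQ q x p - 1)
      (fun x => locQ q x p' - 1), (momL q hp (by omega) hq).1, zero_mul]
  rw [h2, mul_zero, sub_zero] at h1
  simp only [locQ_mod] at h1
  exact (abs_le.1 h1).2

/-- the sum over the primes dividing the slopes -/
lemma sum_kap {K z w : ℕ} (q : Fin K → Polynomial ℤ) (hq : ∀ i, (q i).natDegree = 1) : ∑ p ∈ (Ioc z w).filter Nat.Prime, (kap q p : ℝ) / p ≤ GG z q := by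
  classical
  have h1 : ∀ p ∈ (Ioc z w).filter Nat.Prime, (kap q p : ℝ) / p = ∑ i, if p ∣ la (q i) then 1 / (p : ℝ) else 0 := by
    intro p _
    unfold kap
    rw [← sum_filter, sum_const, nsmul_eq_mul]
    ring
  rw [sum_congr rfl h1, sum_comm]
  unfold GG
  refine sum_le_sum fun i _ => ?_
  rw [← sum_filter]
  refine sum_le_sum_of_subset_of_nonneg ?_ fun p _ _ => by positivity
  intro p hp
  rw [mem_filter, mem_filter, mem_Ioc] at hp
  rw [mem_filter, Nat.mem_primeFactors]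
  exact ⟨⟨hp.1.2, hp.2, (la_pos (hq i)).ne'⟩, hp.1.1.1⟩

theorem var_genL {C : ℝ} (hC : 0 < C) (hSQ : ∀ z w : ℕ, 2 ≤ z →
    ∑ p ∈ (Ioc z w).filter Nat.Prime, 1 / (p : ℝ) ^ 2 ≤ C / ((z : ℝ) * Real.log z))
    (z X Y K : ℕ) (H : Fin K → ℕ) (q : Fin K → Polynomial ℤ) (hz : 2 ≤ z) (hK : 8 * (K + 1) ≤ z)
    (hH : ∀ i, X ≤ H i)
    (hq : ∀ i, (q i).natDegree = 1)
    (hX : 16 * (K + 1) * (Y : ℝ) ^ 4 * W ≤ X)
    (hco : ∀ p : ℕ, p.Prime → z < p → W.Coprime p) (b : Fin K → ZMod W) :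
    ∑ s ∈ SbQ H b, (∑ p ∈ (Ioc z Y).filter Nat.Prime, (locQ q s p - 1)) ^ 2 ≤
      (C / Real.log z + 4 * GG z q + 16 * (K + 1) * (Y : ℝ) ^ 4 * W / X) * (SbQ H b).card ∧
    ∑ s ∈ SbQ H b, ∑ p ∈ (Ioc z Y).filter Nat.Prime, (locQ q s p - 1) ^ 2 ≤
      (C / Real.log z + 4 * GG z q + 16 * (K + 1) * (Y : ℝ) ^ 4 * W / X) * (SbQ H b).card := by
  set P := (Ioc z Y).filter Nat.Prime with hP
  have hGG := GG_nonneg z q
  have hW0 : (0 : ℝ) < W := by exact_mod_cast Nat.pos_of_ne_zero (NeZero.ne W)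
  have hmem : ∀ p ∈ P, p.Prime ∧ z < p ∧ p ≤ Y ∧ 8 * (K + 1) ≤ p ∧ W.Coprime p := by
    intro p hp
    rw [hP, mem_filter, mem_Ioc] at hp
    exact ⟨hp.2, hp.1.1, hp.1.2, by omega, hco p hp.2 hp.1.1⟩
  have hlog : 0 < Real.log z := Real.log_pos (by exact_mod_cast (show 1 < z by omega))
  set N : ℝ := ((SbQ H b).card : ℝ) with hN
  have hN0 : 0 ≤ N := Nat.cast_nonneg _
  set T : ℝ := (X : ℝ) / W with hT
  rcases P.eq_empty_or_nonempty with hPe | ⟨p0, hp0⟩
  · rw [hPe]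
    simp only [sum_empty]
    have h1 : 0 ≤ (C / Real.log z + 4 * GG z q + 16 * (K + 1) * (Y : ℝ) ^ 4 * W / X) * N := by positivity
    constructor
    · simpa using h1
    · simpa using h1
  have hY1 : (1 : ℝ) ≤ Y := by
    have := hmem p0 hp0
    have h2 := this.1.pos
    exact_mod_cast (show 1 ≤ Y by omega)
  have hTY : 16 * (K + 1) * (Y : ℝ) ^ 4 ≤ T := by
    rw [hT, le_div_iff₀ hW0]
    exact hX
  have hT0 : 0 < T := lt_of_lt_of_le (by positivity) hTY
  have hY2 : (Y : ℝ) ^ 2 ≤ (Y : ℝ) ^ 4 := pow_le_pow_right₀ hY1 (by norm_num)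
  have hY12 : (Y : ℝ) ≤ (Y : ℝ) ^ 2 := by nlinarith
  have hKr : (0 : ℝ) ≤ K := Nat.cast_nonneg _
  have hcard : (P.card : ℝ) ≤ Y := by
    have h1 : P.card ≤ (Ioc z Y).card := card_filter_le _ _
    rw [Nat.card_Ioc] at h1
    exact_mod_cast (show P.card ≤ Y by omega)
  have hX0 : 0 < (X : ℝ) := by
    have : T * W = X := by rw [hT]; field_simp
    rw [← this]
    positivity
  have hsq : ∑ p ∈ P, (4 * (K : ℝ) / (p : ℝ) ^ 2 + 4 * kap q p / p) ≤ C / Real.log z + 4 * GG z q := by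
    have h1 : ∑ p ∈ P, (4 * (K : ℝ) / (p : ℝ) ^ 2 + 4 * kap q p / p) =
        4 * (K : ℝ) * ∑ p ∈ P, 1 / (p : ℝ) ^ 2 + 4 * ∑ p ∈ P, (kap q p : ℝ) / p := by
      rw [mul_sum, mul_sum, ← sum_add_distrib]
      exact sum_congr rfl fun _ _ => by ring
    rw [h1]
    have h2 := hSQ z Y hz
    have hz0 : (0 : ℝ) < z := by exact_mod_cast (show 0 < z by omega)
    have h3 : 4 * (K : ℝ) ≤ z := by
      have : 8 * ((K : ℝ) + 1) ≤ z := by exact_mod_cast hK
      nlinarith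
    have h4 := sum_kap (z := z) (w := Y) q hq
    rw [← hP] at h4
    have h5 : 4 * (K : ℝ) * ∑ p ∈ P, 1 / (p : ℝ) ^ 2 ≤ C / Real.log z := by
      calc 4 * (K : ℝ) * ∑ p ∈ P, 1 / (p : ℝ) ^ 2 ≤
          (z : ℝ) * (C / ((z : ℝ) * Real.log z)) := by
            refine mul_le_mul h3 h2 (sum_nonneg fun _ _ => by positivity) (by positivity)
        _ = C / Real.log z := by field_simp
    linarith
  have hWX : (W : ℝ) / X = 1 / T := by
    rw [hT]
    field_simp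
  have hrhs : C / Real.log z + 4 * GG z q + 16 * (K + 1) * (Y : ℝ) ^ 4 * W / X =
      C / Real.log z + 4 * GG z q + 16 * (K + 1) * (Y : ℝ) ^ 4 / T := by
    rw [mul_div_assoc _ (W : ℝ), hWX]
    ring
  rw [hrhs]
  have hd : ∀ p ∈ P, ∑ s ∈ SbQ H b, (locQ q s p - 1) ^ 2 ≤
      (4 * (K : ℝ) / (p : ℝ) ^ 2 + 4 * kap q p / p) * N + 8 * K * (Y : ℝ) ^ 2 / T * N := by
    intro p hp
    obtain ⟨h1, h2, h3, h4, h5⟩ := hmem p hp
    have h3' : (p : ℝ) ≤ Y := by exact_mod_cast h3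
    have h6 : 4 * (K + 1) * (p : ℝ) ≤ T := by
      refine le_trans ?_ hTY
      have : (p : ℝ) ≤ (Y : ℝ) ^ 4 := by linarith
      nlinarith
    have h7 := diagL H q hH h1 hq h4 h5 h6 b
    rw [← hT, ← hN] at h7
    refine h7.trans ?_
    rw [add_mul]
    have h8 : 8 * (K : ℝ) * p / T ≤ 8 * K * (Y : ℝ) ^ 2 / T := by
      gcongr
      linarith
    have h9 := mul_le_mul_of_nonneg_right h8 hN0
    linarith
  have ho : ∀ p ∈ P, ∀ p' ∈ P, ∑ s ∈ SbQ H b, (locQ q s p - 1) * (locQ q s p' - 1) ≤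
      (if p = p' then (4 * (K : ℝ) / (p : ℝ) ^ 2 + 4 * kap q p / p) * N else 0) +
        8 * K * (Y : ℝ) ^ 2 / T * N := by
    intro p hp p' hp'
    split_ifs with h
    · subst h
      have := hd p hp
      simpa only [← sq] using this
    · obtain ⟨h1, h2, h3, h4, h5⟩ := hmem p hp
      obtain ⟨k1, k2, k3, k4, k5⟩ := hmem p' hp'
      have h3' : (p : ℝ) ≤ Y := by exact_mod_cast h3
      have k3' : (p' : ℝ) ≤ Y := by exact_mod_cast k3
      have hpp : (p : ℝ) * p' ≤ (Y : ℝ) ^ 2 := by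
        rw [sq]
        gcongr
      have h6 : 4 * (K + 1) * ((p : ℝ) * p') ≤ T := by
        refine le_trans ?_ hTY
        have : (p : ℝ) * p' ≤ (Y : ℝ) ^ 4 := by linarith
        have h0 : (0 : ℝ) ≤ (p : ℝ) * p' := by positivity
        nlinarith
      have h7 := offdiagL H q hH hq h1 h4 h5 k1 k4 k5 h h6 b
      refine h7.trans ?_
      rw [zero_add]
      have h8 : 8 * (K : ℝ) * ((p : ℝ) * p') / T ≤ 8 * K * (Y : ℝ) ^ 2 / T := by
        gcongr
      exact mul_le_mul_of_nonneg_right h8 hN0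
  constructor
  · have h1 : ∑ s ∈ SbQ H b, (∑ p ∈ P, (locQ q s p - 1)) ^ 2 =
        ∑ p ∈ P, ∑ p' ∈ P, ∑ s ∈ SbQ H b, (locQ q s p - 1) * (locQ q s p' - 1) := by
      have h2 : ∀ s : Fin K → ℕ, (∑ p ∈ P, (locQ q s p - 1)) ^ 2 =
          ∑ p ∈ P, ∑ p' ∈ P, (locQ q s p - 1) * (locQ q s p' - 1) := by
        intro s
        rw [sq, sum_mul_sum]
      simp only [h2]
      rw [sum_comm]
      refine sum_congr rfl fun p _ => ?_
      rw [sum_comm]
    rw [h1]
    refine (sum_le_sum fun p hp => sum_le_sum fun p' hp' => ho p hp p' hp').trans ?_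
    simp only [sum_add_distrib, sum_ite_eq, sum_const, nsmul_eq_mul]
    have h2 : ∑ p ∈ P, (if p ∈ P then (4 * (K : ℝ) / (p : ℝ) ^ 2 + 4 * kap q p / p) * N else 0) =
        (∑ p ∈ P, (4 * (K : ℝ) / (p : ℝ) ^ 2 + 4 * kap q p / p)) * N := by
      rw [sum_mul]
      exact sum_congr rfl fun p hp => if_pos hp
    rw [h2]
    have h3 : (P.card : ℝ) * (P.card * (8 * K * (Y : ℝ) ^ 2 / T * N)) ≤
        16 * (K + 1) * (Y : ℝ) ^ 4 / T * N := by
      calc (P.card : ℝ) * (P.card * (8 * K * (Y : ℝ) ^ 2 / T * N)) ≤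
            Y * (Y * (8 * K * (Y : ℝ) ^ 2 / T * N)) := by gcongr
        _ = 8 * K * (Y : ℝ) ^ 4 / T * N := by ring
        _ ≤ 16 * (K + 1) * (Y : ℝ) ^ 4 / T * N := by
          refine mul_le_mul_of_nonneg_right ?_ hN0
          gcongr
          · norm_num
          · linarith
    have h4 := mul_le_mul_of_nonneg_right hsq hN0
    rw [add_mul _ _ N]
    linarith
  · rw [sum_comm]
    refine (sum_le_sum hd).trans ?_
    rw [sum_add_distrib, ← sum_mul, sum_const, nsmul_eq_mul, add_mul _ _ N]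
    have h3 : (P.card : ℝ) * (8 * K * (Y : ℝ) ^ 2 / T * N) ≤
        16 * (K + 1) * (Y : ℝ) ^ 4 / T * N := by
      calc (P.card : ℝ) * (8 * K * (Y : ℝ) ^ 2 / T * N) ≤
            Y * (8 * K * (Y : ℝ) ^ 2 / T * N) := by gcongr
        _ ≤ (Y : ℝ) ^ 2 * (8 * K * (Y : ℝ) ^ 2 / T * N) := by gcongr
        _ = 8 * K * (Y : ℝ) ^ 4 / T * N := by ring
        _ ≤ 16 * (K + 1) * (Y : ℝ) ^ 4 / T * N := by
          refine mul_le_mul_of_nonneg_right ?_ hN0
          gcongr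
          · norm_num
          · linarith
    have h4 := mul_le_mul_of_nonneg_right hsq hN0
    linarith

/-- conclusion of the variance bound -/
theorem varL : ∃ C : ℝ, 0 < C ∧ ∀ (z w Y X K : ℕ) (H : Fin K → ℕ) (q : Fin K → Polynomial ℤ), 2 ≤ z → 8 * (K + 1) ≤ z → SysL z Y X H q → 16 * (K + 1) * (w : ℝ) ^ 4 * PW z ≤ X →
  ∀ b : Fin K → ZMod (PW z),
  ∑ s ∈ SbQ H b, (∑ p ∈ (Ioc z w).filter Nat.Prime, (locQ q s p - 1)) ^ 2 ≤ (C / Real.log z + 4 * GG z q + 16 * (K + 1) * (w : ℝ) ^ 4 * PW z / X) * (SbQ H b).card ∧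
  ∑ s ∈ SbQ H b, ∑ p ∈ (Ioc z w).filter Nat.Prime, (locQ q s p - 1) ^ 2 ≤ (C / Real.log z + 4 * GG z q + 16 * (K + 1) * (w : ℝ) ^ 4 * PW z / X) * (SbQ H b).card := by
  obtain ⟨C, hC, h⟩ := Pool.Agent.Q145.LS.t_SQ2
  exact ⟨C, hC, fun z w Y X K H q hz hK hS hX b => var_genL hC (fun z w hz => (h z w hz).1) z X w K H q hz hK
    (fun i => (hS.scale i).1) hS.deg hX
    (fun p hp hzp => Pool.Agent.Q261.SZ.coprime_PW hp hzp) b⟩

theorem good_caseL {K : ℕ} (q : Fin K → Polynomial ℤ) (s : Fin K → ℕ) {z w : ℕ} {δ : ℝ}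
    (hδ : δ ≤ 1 / 8) (hzw : z ≤ w)
    (h1 : |∑ p ∈ (Ioc z w).filter Nat.Prime, (locQ q s p - 1)| ≤ δ)
    (h2 : ∑ p ∈ (Ioc z w).filter Nat.Prime, (locQ q s p - 1) ^ 2 ≤ δ) :
    |singPQ q s w - singPQ q s z| ≤ 8 * δ * singPQ q s z := by
  have hz0 := singPQ_nonneg q s z
  obtain ⟨P, hP⟩ : ∃ P : Finset ℕ, P = (Ioc z w).filter Nat.Prime := ⟨_, rfl⟩
  rw [← hP] at h1 h2
  have hloc : ∀ p ∈ P, 0 < locQ q s p ∧ |locQ q s p - 1| ≤ 1 / 2 := by
    intro p hp
    have g0 : (locQ q s p - 1) ^ 2 ≤ 1 / 8 :=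
      (single_le_sum (f := fun p => (locQ q s p - 1) ^ 2) (fun p _ => sq_nonneg _) hp).trans (h2.trans hδ)
    have g1 : |locQ q s p - 1| ≤ 1 / 2 := by
      apply abs_le_of_sq_le_sq _ (by norm_num)
      linarith
    refine ⟨?_, g1⟩
    rw [abs_le] at g1
    linarith [g1.1]
  rw [singPQ_split q s hzw, ← hP]
  obtain ⟨t, ht⟩ : ∃ t : ℝ, t = ∑ p ∈ P, Real.log (locQ q s p) := ⟨_, rfl⟩
  have hexp : ∏ p ∈ P, locQ q s p = Real.exp t := by
    rw [ht, Real.exp_sum]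
    exact prod_congr rfl fun p hp => (Real.exp_log (hloc p hp).1).symm
  have ht2 : t = ∑ p ∈ P, (Real.log (1 + (locQ q s p - 1)) - (locQ q s p - 1)) +
      ∑ p ∈ P, (locQ q s p - 1) := by
    rw [ht, ← sum_add_distrib]
    refine sum_congr rfl fun p _ => ?_
    rw [sub_add_cancel]
    congr 1
    ring
  have ht3 : |∑ p ∈ P, (Real.log (1 + (locQ q s p - 1)) - (locQ q s p - 1))| ≤ 2 * δ := by
    refine (abs_sum_le_sum_abs _ _).trans ?_
    refine (sum_le_sum fun p hp => log_one_add_le (hloc p hp).2).trans ?_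
    rw [← mul_sum]
    linarith
  have ht4 : |t| ≤ 3 * δ := by
    rw [ht2]
    have a2 := abs_add_le (∑ p ∈ P, (Real.log (1 + (locQ q s p - 1)) - (locQ q s p - 1)))
      (∑ p ∈ P, (locQ q s p - 1))
    linarith
  have ht5 : |Real.exp t - 1| ≤ 2 * |t| := Real.abs_exp_sub_one_le (by linarith)
  have h6 : singPQ q s z * (∏ p ∈ P, locQ q s p) - singPQ q s z = singPQ q s z * (Real.exp t - 1) := by
    rw [hexp]
    ring
  rw [h6, abs_mul, abs_of_nonneg hz0, mul_comm]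
  refine mul_le_mul_of_nonneg_right ?_ hz0
  have := abs_nonneg t
  linarith

theorem tail_genL {C₁ : ℝ} (hC : 0 < C₁) {δ : ℝ} (hδ0 : 0 < δ) (hδ : δ ≤ 1 / 8)
    (z w X K : ℕ) (H : Fin K → ℕ) (q : Fin K → Polynomial ℤ)
    (hV : 16 * (K + 1) * (w : ℝ) ^ 4 * W ≤ X →
      ∀ b : Fin K → ZMod (W),
      ∑ s ∈ SbQ H b, (∑ p ∈ (Ioc z w).filter Nat.Prime, (locQ q s p - 1)) ^ 2 ≤ (C₁ / Real.log z + 4 * GG z q + 16 * (K + 1) * (w : ℝ) ^ 4 * W / X) * (SbQ H b).card ∧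
      ∑ s ∈ SbQ H b, ∑ p ∈ (Ioc z w).filter Nat.Prime, (locQ q s p - 1) ^ 2 ≤ (C₁ / Real.log z + 4 * GG z q + 16 * (K + 1) * (w : ℝ) ^ 4 * W / X) * (SbQ H b).card)
    (hX3 : 2 ^ 20 ≤ X) (hz : 2 ≤ z)
    (hK : 8 * (K + 1) ≤ z)
    (hzX : (z : ℝ) ≤ Real.log X) (hW : (W : ℝ) ^ 20 ≤ X) (hzw : z ≤ w) (hw : (w : ℝ) ^ 20 ≤ X)
    (b : Fin K → ZMod (W)) :
    (((SbQ H b).filter fun s => ¬ (|singPQ q s w - singPQ q s z| ≤ 8 * δ * singPQ q s z)).card : ℝ) ≤
      (((C₁ + 1) * (1 / δ ^ 2 + 1 / δ)) / Real.log z + 4 * (1 / δ ^ 2 + 1 / δ) * GG z q) * (SbQ H b).card := by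
  have hX0 : (0 : ℝ) < X := by exact_mod_cast (show 0 < X by omega)
  have hGG := GG_nonneg z q
  obtain ⟨R, hR⟩ : ∃ R : ℝ, R = (X : ℝ) ^ (1 / 20 : ℝ) := ⟨_, rfl⟩
  have hR0 : 0 < R := by
    rw [hR]
    exact Real.rpow_pos_of_pos hX0 _
  have hR20 : R ^ 20 = X := by
    rw [hR, ← Real.rpow_natCast, ← Real.rpow_mul hX0.le]
    norm_num
  have hle : ∀ x : ℝ, x ^ 20 ≤ X → x ≤ R := by
    intro x hx
    refine le_of_pow_le_pow_left₀ (n := 20) (by norm_num) hR0.le ?_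
    rw [hR20]
    exact hx
  have hWR := hle _ hW
  have hwR := hle _ hw
  have hR2 : 2 ≤ R := hle 2 (by exact_mod_cast hX3)
  have hlogX : Real.log X ≤ 20 * R := by
    rw [← hR20, Real.log_pow]
    have := Real.log_le_self hR0.le
    push_cast
    linarith
  have hz2 : (2 : ℝ) ≤ z := by exact_mod_cast hz
  have hlogz : 0 < Real.log z := Real.log_pos (by linarith)
  have hlogzR : Real.log z ≤ 20 * R := by
    have := Real.log_le_self (show (0 : ℝ) ≤ z by linarith)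
    linarith
  have hKr : (0 : ℝ) ≤ K := Nat.cast_nonneg _
  have hKR : 16 * ((K : ℝ) + 1) ≤ 40 * R := by
    have h1 : 8 * ((K : ℝ) + 1) ≤ z := by exact_mod_cast hK
    nlinarith
  have hW0 : (0 : ℝ) < W := by exact_mod_cast Nat.pos_of_ne_zero (NeZero.ne W)
  have hw0 : (0 : ℝ) ≤ w := Nat.cast_nonneg _
  have hE : 16 * (K + 1) * (w : ℝ) ^ 4 * W ≤ 40 * R ^ 6 := by
    calc 16 * ((K : ℝ) + 1) * (w : ℝ) ^ 4 * W ≤ (40 * R) * R ^ 4 * R := by gcongr
      _ = 40 * R ^ 6 := by ring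
  have hR12 : 4096 ≤ R ^ 12 := by
    calc (4096 : ℝ) = 2 ^ 12 := by norm_num
      _ ≤ R ^ 12 := pow_le_pow_left₀ (by norm_num) hR2 12
  have hEX : 16 * (K + 1) * (w : ℝ) ^ 4 * W ≤ X := by
    refine hE.trans ?_
    rw [← hR20]
    have h1 : R ^ 20 = R ^ 6 * (R ^ 12 * R ^ 2) := by ring
    have h2 : 1 ≤ R ^ 2 := one_le_pow₀ (by linarith)
    have h3 : 40 ≤ R ^ 12 * R ^ 2 := by nlinarith
    have h4 : 0 ≤ R ^ 6 := by positivity
    rw [h1]
    nlinarith
  have hEL : 16 * (K + 1) * (w : ℝ) ^ 4 * W / X ≤ 1 / Real.log z := by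
    calc 16 * (K + 1) * (w : ℝ) ^ 4 * W / X ≤ 40 * R ^ 6 / X := by gcongr
      _ ≤ 1 / (20 * R) := by
        rw [div_le_div_iff₀ hX0 (by positivity), ← hR20]
        have h1 : R ^ 20 = R ^ 7 * (R ^ 12 * R) := by ring
        have h2 : 40 * R ^ 6 * (20 * R) = R ^ 7 * 800 := by ring
        have h3 : 800 ≤ R ^ 12 * R := by nlinarith
        rw [one_mul, h1, h2]
        exact mul_le_mul_of_nonneg_left h3 (by positivity)
      _ ≤ 1 / Real.log z := one_div_le_one_div_of_le hlogz hlogzR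
  obtain ⟨v1, v2⟩ := hV hEX b
  obtain ⟨N, hN⟩ : ∃ N : ℝ, N = ((SbQ H b).card : ℝ) := ⟨_, rfl⟩
  rw [← hN] at v1 v2 ⊢
  have hN0 : 0 ≤ N := by rw [hN]; exact Nat.cast_nonneg _
  obtain ⟨V, hVdef⟩ : ∃ V : ℝ, V = (C₁ + 1) / Real.log z + 4 * GG z q := ⟨_, rfl⟩
  have hVE : (C₁ / Real.log z + 4 * GG z q + 16 * (K + 1) * (w : ℝ) ^ 4 * W / X) * N ≤
      V * N := by
    refine mul_le_mul_of_nonneg_right ?_ hN0
    rw [hVdef, add_div]
    linarith
  classical
  obtain ⟨B2, hB2⟩ : ∃ B2 : Finset (Fin K → ℕ), B2 = (SbQ H b).filter fun s => δ < |∑ p ∈ (Ioc z w).filter Nat.Prime, (locQ q s p - 1)| := ⟨_, rfl⟩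
  obtain ⟨B3, hB3⟩ : ∃ B3 : Finset (Fin K → ℕ), B3 = (SbQ H b).filter fun s => δ < ∑ p ∈ (Ioc z w).filter Nat.Prime, (locQ q s p - 1) ^ 2 := ⟨_, rfl⟩
  have hsub : (SbQ H b).filter (fun s => ¬ (|singPQ q s w - singPQ q s z| ≤ 8 * δ * singPQ q s z)) ⊆
      B2 ∪ B3 := by
    intro s hs
    rw [mem_filter] at hs
    by_contra hcon
    rw [mem_union, not_or, hB2, hB3, mem_filter, mem_filter] at hcon
    obtain ⟨c2, c3⟩ := hcon
    have c2' : |∑ p ∈ (Ioc z w).filter Nat.Prime, (locQ q s p - 1)| ≤ δ := by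
      by_contra h
      exact c2 ⟨hs.1, not_le.1 h⟩
    have c3' : ∑ p ∈ (Ioc z w).filter Nat.Prime, (locQ q s p - 1) ^ 2 ≤ δ := by
      by_contra h
      exact c3 ⟨hs.1, not_le.1 h⟩
    exact hs.2 (good_caseL q s hδ hzw c2' c3')
  have hb2 : (B2.card : ℝ) ≤ V / δ ^ 2 * N := by
    have h1 : (B2.card : ℝ) * δ ^ 2 ≤
        ∑ s ∈ SbQ H b, (∑ p ∈ (Ioc z w).filter Nat.Prime, (locQ q s p - 1)) ^ 2 := by
      calc (B2.card : ℝ) * δ ^ 2 = ∑ _s ∈ B2, δ ^ 2 := by rw [sum_const, nsmul_eq_mul]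
        _ ≤ ∑ s ∈ B2, (∑ p ∈ (Ioc z w).filter Nat.Prime, (locQ q s p - 1)) ^ 2 := by
          refine sum_le_sum fun s hs => ?_
          rw [hB2, mem_filter] at hs
          rw [← sq_abs (∑ p ∈ (Ioc z w).filter Nat.Prime, (locQ q s p - 1))]
          exact pow_le_pow_left₀ hδ0.le hs.2.le 2
        _ ≤ _ := by
          rw [hB2]
          exact sum_le_sum_of_subset_of_nonneg (filter_subset _ _) fun _ _ _ => sq_nonneg _
    have h2 := h1.trans (v1.trans hVE)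
    rw [← le_div_iff₀ (by positivity)] at h2
    refine h2.trans (le_of_eq ?_)
    field_simp
  have hb3 : (B3.card : ℝ) ≤ V / δ * N := by
    have h1 : (B3.card : ℝ) * δ ≤
        ∑ s ∈ SbQ H b, ∑ p ∈ (Ioc z w).filter Nat.Prime, (locQ q s p - 1) ^ 2 := by
      calc (B3.card : ℝ) * δ = ∑ _s ∈ B3, δ := by rw [sum_const, nsmul_eq_mul]
        _ ≤ ∑ s ∈ B3, ∑ p ∈ (Ioc z w).filter Nat.Prime, (locQ q s p - 1) ^ 2 := by
          refine sum_le_sum fun s hs => ?_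
          rw [hB3, mem_filter] at hs
          exact hs.2.le
        _ ≤ _ := by
          rw [hB3]
          exact sum_le_sum_of_subset_of_nonneg (filter_subset _ _) fun _ _ _ =>
            sum_nonneg fun _ _ => sq_nonneg _
    have h2 := h1.trans (v2.trans hVE)
    rw [← le_div_iff₀ hδ0] at h2
    refine h2.trans (le_of_eq ?_)
    field_simp
  have hc : (((SbQ H b).filter fun s => ¬ (|singPQ q s w - singPQ q s z| ≤ 8 * δ * singPQ q s z)).card : ℝ) ≤
      B2.card + B3.card := by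
    have h1 := card_le_card hsub
    have h3 := card_union_le B2 B3
    exact_mod_cast (h1.trans h3)
  calc _ ≤ (B2.card : ℝ) + B3.card := hc
    _ ≤ V / δ ^ 2 * N + V / δ * N := by linarith
    _ = _ := by
      rw [hVdef]
      field_simp

open Classical in
/-- **the medium primes** -/
theorem tailL : ∀ ε : ℝ, 0 < ε → ∃ (C : ℝ) (X₀ z₀ : ℕ), 0 < C ∧ ∀ (z w Y X K : ℕ) (H : Fin K → ℕ) (q : Fin K → Polynomial ℤ), X₀ ≤ X → z₀ ≤ z → 8 * (K + 1) ≤ z → SysL z Y X H q →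
  (z : ℝ) ≤ Real.log X → (PW z : ℝ) ^ 20 ≤ X → z ≤ w → (w : ℝ) ^ 20 ≤ X → ∀ b : Fin K → ZMod (PW z),
  (((SbQ H b).filter fun s => ¬ (|singPQ q s w - singPQ q s z| ≤ ε * singPQ q s z)).card : ℝ) ≤ (C / Real.log z + C * GG z q) * (SbQ H b).card := by
  classical
  intro ε hε
  obtain ⟨C₁, hC₁, hV⟩ := varL
  obtain ⟨δ, hδ⟩ : ∃ δ : ℝ, δ = min ε 1 / 8 := ⟨_, rfl⟩
  have hδ0 : 0 < δ := by
    rw [hδ]
    positivity
  have hδ1 : δ ≤ 1 / 8 := by
    rw [hδ]
    have := min_le_right ε 1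
    linarith
  have hδε : 8 * δ ≤ ε := by
    rw [hδ]
    have := min_le_left ε 1
    linarith
  refine ⟨(C₁ + 4) * (1 / δ ^ 2 + 1 / δ), 2 ^ 20, 2, by positivity, ?_⟩
  intro z w Y X K H q hX hz hK hS hzX hW hzw hw b
  have h2 := tail_genL hC₁ hδ0 hδ1 (W := PW z) z w X K H q (fun hY b' => hV z w Y X K H q hz hK hS hY b')
    hX hz hK hzX hW hzw hw b
  have h3 : (SbQ H b).filter (fun s => ¬ (|singPQ q s w - singPQ q s z| ≤ ε * singPQ q s z)) ⊆
      (SbQ H b).filter (fun s => ¬ (|singPQ q s w - singPQ q s z| ≤ 8 * δ * singPQ q s z)) := by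
    intro s hs
    rw [mem_filter] at hs ⊢
    refine ⟨hs.1, fun h => hs.2 (h.trans ?_)⟩
    exact mul_le_mul_of_nonneg_right hδε (singPQ_nonneg q s z)
  have h4 : (((SbQ H b).filter fun s => ¬ (|singPQ q s w - singPQ q s z| ≤ ε * singPQ q s z)).card : ℝ) ≤ (((SbQ H b).filter fun s => ¬ (|singPQ q s w - singPQ q s z| ≤ 8 * δ * singPQ q s z)).card : ℝ) := by
    exact_mod_cast card_le_card h3
  refine h4.trans (h2.trans ?_)
  apply mul_le_mul_of_nonneg_right _ (Nat.cast_nonneg _)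
  have hGG := GG_nonneg z q
  have hlogz : 0 < Real.log z := Real.log_pos (by exact_mod_cast (show 1 < z by omega))
  have h5 : (0 : ℝ) < 1 / δ ^ 2 + 1 / δ := by positivity
  apply add_le_add
  · gcongr
    norm_num
  · apply mul_le_mul_of_nonneg_right _ hGG
    apply mul_le_mul_of_nonneg_right _ h5.le
    linarith

end Pool.Agent.Q145.LT
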